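import Pool.Agent.KL.Level

/-! Lines with integer coefficients in a box. -/

namespace Pool.Agent.ILV

/-- all lines `y = a x + b` of `Γ` have integer coefficients with `0 ≤ a ≤ s`, `0 ≤ b ≤ m` -/
def InBox (s m : ℕ) (Γ : Finset (ℝ × ℝ)) : Prop :=
  ∀ l ∈ Γ, ∃ a b : ℕ, a ≤ s ∧ b ≤ m ∧ l = ((a : ℝ), (b : ℝ))

end Pool.Agent.ILV
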