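import Mathlib

/-! Counting coprime pairs. -/

namespace Pool.Agent.ILV
open Finset

/-- coprime pairs `(q, p)` with `1 ≤ q ≤ A`, `1 ≤ p ≤ B` -/
def cop (A B : ℕ) : Finset (ℕ × ℕ) :=
  ((Finset.Ioc 0 A) ×ˢ (Finset.Ioc 0 B)).filter fun z => Nat.Coprime z.1 z.2

theorem mem_cop {A B : ℕ} {z : ℕ × ℕ} : z ∈ cop A B ↔
    (0 < z.1 ∧ z.1 ≤ A) ∧ (0 < z.2 ∧ z.2 ≤ B) ∧ Nat.Coprime z.1 z.2 := by
  unfold cop
  rw [Finset.mem_filter, Finset.mem_product, Finset.mem_Ioc, Finset.mem_Ioc]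
  tauto

theorem sum_odd (N : ℕ) :
    ∑ j ∈ Finset.range N, (1 : ℝ) / ((2 * (j + 1) + 1 : ℕ) : ℝ) ^ 2 ≤ 1 / 4 - 1 / (4 * (N + 1)) := by
  induction N with
  | zero => norm_num
  | succ N ih =>
    rw [Finset.sum_range_succ]
    have h1 : (1 : ℝ) / ((2 * (N + 1) + 1 : ℕ) : ℝ) ^ 2 ≤
        1 / (4 * (N + 1)) - 1 / (4 * (((N + 1 : ℕ) : ℝ) + 1)) := by
      have e : 1 / (4 * ((N : ℝ) + 1)) - 1 / (4 * (((N + 1 : ℕ) : ℝ) + 1)) =
          1 / (4 * ((N : ℝ) + 1) * (N + 2)) := by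
        push_cast
        field_simp
        ring
      rw [e]
      push_cast
      apply one_div_le_one_div_of_le (by positivity)
      nlinarith
    linarith

theorem cop_card (A B : ℕ) : A * B ≤ 2 * (cop A B).card := by
  classical
  let D : ℕ → Finset (ℕ × ℕ) := fun r =>
    ((Finset.Ioc 0 A).filter fun x => r ∣ x) ×ˢ ((Finset.Ioc 0 B).filter fun x => r ∣ x)
  have hD : ∀ r, (D r).card = (A / r) * (B / r) := by
    intro r
    simp only [D]
    rw [Finset.card_product, Nat.Ioc_filter_dvd_card_eq_div, Nat.Ioc_filter_dvd_card_eq_div]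
  have hcov : (Finset.Ioc 0 A) ×ˢ (Finset.Ioc 0 B) ⊆ cop A B ∪ (D 2 ∪
      (Finset.range A).biUnion fun j => D (2 * (j + 1) + 1)) := by
    intro z hz
    rw [Finset.mem_product, Finset.mem_Ioc, Finset.mem_Ioc] at hz
    rw [Finset.mem_union, Finset.mem_union]
    by_cases hc : Nat.Coprime z.1 z.2
    · exact Or.inl (mem_cop.2 ⟨hz.1, hz.2, hc⟩)
    right
    obtain ⟨r, hr, h1, h2⟩ := Nat.Prime.not_coprime_iff_dvd.1 hc
    have hmem : z ∈ D r := by
      simp only [D]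
      rw [Finset.mem_product, Finset.mem_filter, Finset.mem_filter, Finset.mem_Ioc, Finset.mem_Ioc]
      exact ⟨⟨hz.1, h1⟩, ⟨hz.2, h2⟩⟩
    rcases hr.eq_two_or_odd with h3 | h3
    · left; rw [← h3]; exact hmem
    · right
      rw [Finset.mem_biUnion]
      have h4 := hr.two_le
      have h5 := Nat.le_of_dvd hz.1.1 h1
      refine ⟨(r - 1) / 2 - 1, ?_, ?_⟩
      · rw [Finset.mem_range]; omega
      · have : 2 * ((r - 1) / 2 - 1 + 1) + 1 = r := by omega
        rw [this]; exact hmem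
  have h1 := Finset.card_le_card hcov
  have h2 := Finset.card_union_le (cop A B) (D 2 ∪
      (Finset.range A).biUnion fun j => D (2 * (j + 1) + 1))
  have h3 := Finset.card_union_le (D 2) ((Finset.range A).biUnion fun j => D (2 * (j + 1) + 1))
  have h4 : ((Finset.range A).biUnion fun j => D (2 * (j + 1) + 1)).card ≤
      ∑ j ∈ Finset.range A, (D (2 * (j + 1) + 1)).card := Finset.card_biUnion_le
  rw [Finset.card_product, Nat.card_Ioc, Nat.card_Ioc, Nat.sub_zero, Nat.sub_zero] at h1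
  have key : ∀ r : ℕ, ((D r).card : ℝ) ≤ (A : ℝ) * B * (1 / (r : ℝ) ^ 2) := by
    intro r
    rw [hD]
    push_cast
    have a1 : ((A / r : ℕ) : ℝ) ≤ (A : ℝ) / r := Nat.cast_div_le
    have a2 : ((B / r : ℕ) : ℝ) ≤ (B : ℝ) / r := Nat.cast_div_le
    calc ((A / r : ℕ) : ℝ) * ((B / r : ℕ) : ℝ) ≤ ((A : ℝ) / r) * ((B : ℝ) / r) :=
          mul_le_mul a1 a2 (Nat.cast_nonneg _) (by positivity)
      _ = (A : ℝ) * B * (1 / (r : ℝ) ^ 2) := by ring
  have h5 : ((∑ j ∈ Finset.range A, (D (2 * (j + 1) + 1)).card : ℕ) : ℝ) ≤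
      (A : ℝ) * B * (1 / 4) := by
    push_cast
    calc ∑ j ∈ Finset.range A, ((D (2 * (j + 1) + 1)).card : ℝ)
        ≤ ∑ j ∈ Finset.range A, (A : ℝ) * B * (1 / ((2 * (j + 1) + 1 : ℕ) : ℝ) ^ 2) :=
          Finset.sum_le_sum fun j _ => key _
      _ = (A : ℝ) * B * ∑ j ∈ Finset.range A, (1 / ((2 * (j + 1) + 1 : ℕ) : ℝ) ^ 2) := by
          rw [Finset.mul_sum]
      _ ≤ (A : ℝ) * B * (1 / 4) := by
          refine mul_le_mul_of_nonneg_left ?_ (by positivity)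
          refine (sum_odd A).trans ?_
          have : (0 : ℝ) ≤ 1 / (4 * (A + 1)) := by positivity
          linarith
  have h6 := key 2
  have h7 : (A : ℝ) * B ≤ (cop A B).card + ((D 2).card +
      ((∑ j ∈ Finset.range A, (D (2 * (j + 1) + 1)).card : ℕ) : ℝ)) := by
    have : A * B ≤ (cop A B).card + ((D 2).card +
      (∑ j ∈ Finset.range A, (D (2 * (j + 1) + 1)).card)) := by omega
    exact_mod_cast this
  have h8 : (A : ℝ) * B ≤ 2 * (cop A B).card := by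
    norm_num at h6
    linarith
  exact_mod_cast h8

/-- coprime pairs with large denominator -/
def copL (A B : ℕ) : Finset (ℕ × ℕ) := (cop A B).filter fun z => A < 4 * z.1

theorem copL_card (A B : ℕ) : A * B ≤ 4 * (copL A B).card := by
  classical
  have h1 := cop_card A B
  have h2 : (cop A B) ⊆ copL A B ∪ (Finset.Ioc 0 (A / 4)) ×ˢ (Finset.Ioc 0 B) := by
    intro z hz
    rw [Finset.mem_union]
    by_cases h : A < 4 * z.1
    · left; unfold copL; rw [Finset.mem_filter]; exact ⟨hz, h⟩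
    · right
      have := mem_cop.1 hz
      rw [Finset.mem_product, Finset.mem_Ioc, Finset.mem_Ioc]
      omega
  have h3 := (Finset.card_le_card h2).trans (Finset.card_union_le _ _)
  rw [Finset.card_product, Nat.card_Ioc, Nat.card_Ioc, Nat.sub_zero, Nat.sub_zero] at h3
  have h4 : 4 * (A / 4 * B) ≤ A * B := by
    have : 4 * (A / 4) ≤ A := by omega
    calc 4 * (A / 4 * B) = (4 * (A / 4)) * B := by ring
      _ ≤ A * B := Nat.mul_le_mul_right B this
  omega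

theorem slope_inj {z z' : ℕ × ℕ} (h1 : 0 < z.1) (h1' : 0 < z'.1) (h3 : Nat.Coprime z.1 z.2)
    (h3' : Nat.Coprime z'.1 z'.2) (h : -((z.2 : ℝ) / z.1) = -((z'.2 : ℝ) / z'.1)) : z = z' := by
  have e1 : (0 : ℝ) < z.1 := by exact_mod_cast h1
  have e1' : (0 : ℝ) < z'.1 := by exact_mod_cast h1'
  have h2 : (z.2 : ℝ) / z.1 = (z'.2 : ℝ) / z'.1 := neg_injective h
  rw [div_eq_div_iff e1.ne' e1'.ne'] at h2
  have h4 : z.2 * z'.1 = z'.2 * z.1 := by exact_mod_cast h2
  have d1 : z.1 ∣ z'.1 := by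
    have : z.1 ∣ z.2 * z'.1 := by rw [h4]; exact Dvd.intro_left _ rfl
    exact h3.dvd_of_dvd_mul_left this
  have d2 : z'.1 ∣ z.1 := by
    have : z'.1 ∣ z'.2 * z.1 := by rw [← h4]; exact Dvd.intro_left _ rfl
    exact h3'.dvd_of_dvd_mul_left this
  have h5 : z.1 = z'.1 := Nat.dvd_antisymm d1 d2
  have h6 : z.2 = z'.2 := by
    rw [← h5] at h4
    exact Nat.eq_of_mul_eq_mul_right h1 h4
  exact Prod.ext h5 h6

end Pool.Agent.ILV
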