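import Pool.Agent.ILV.Local
import Pool.Agent.ILV.Box
import Pool.Agent.ILV.Coprime

/-! From lattice point classes to levels. -/

namespace Pool.Agent.ILV
open Finset Filter Topology Pool.Agent.KL Pool.Agent.KLS

/-- the class of rank `k` of `R` in direction `(q, p)` has at least two points -/
def ClassMulti (R : Finset (ℤ × ℤ)) (k : ℕ) (q p : ℤ) : Prop :=
  ∃ u : ℤ, (R.filter fun z => q * z.2 - p * z.1 < u).card ≤ k ∧
      k < (R.filter fun z => q * z.2 - p * z.1 < u).card +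
        (R.filter fun z => q * z.2 - p * z.1 = u).card ∧
      2 ≤ (R.filter fun z => q * z.2 - p * z.1 = u).card

/-- a lattice point, translated, as a line -/
noncomputable def lin (α β : ℤ) (z : ℤ × ℤ) : ℝ × ℝ := (((z.1 + α : ℤ) : ℝ), ((z.2 + β : ℤ) : ℝ))

theorem lin_inj (α β : ℤ) : Function.Injective (lin α β) := by
  intro z z' h
  have h1 : ((z.1 + α : ℤ) : ℝ) = ((z'.1 + α : ℤ) : ℝ) := congrArg Prod.fst h
  have h2 : ((z.2 + β : ℤ) : ℝ) = ((z'.2 + β : ℤ) : ℝ) := congrArg Prod.snd h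
  have h3 : z.1 + α = z'.1 + α := by exact_mod_cast h1
  have h4 : z.2 + β = z'.2 + β := by exact_mod_cast h2
  exact Prod.ext (by linarith) (by linarith)

theorem ev_lin (α β p q : ℤ) (hq : 0 < q) (z : ℤ × ℤ) :
    (q : ℝ) * ev (lin α β z) (-((p : ℝ) / q)) = ((q * z.2 - p * z.1 + (q * β - p * α) : ℤ) : ℝ) := by
  have hq' : (q : ℝ) ≠ 0 := by exact_mod_cast hq.ne'
  unfold ev lin
  push_cast
  field_simp
  ring

theorem multi_of_class {R : Finset (ℤ × ℤ)} {k : ℕ} {q p : ℤ} (hq : 0 < q) (α β : ℤ)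
    (h : ClassMulti R k q p) : Multi (R.image (lin α β)) k (-((p : ℝ) / q)) := by
  classical
  obtain ⟨u, h1, h2, h3⟩ := h
  have hq' : (0 : ℝ) < q := by exact_mod_cast hq
  set y : ℝ := ((u + (q * β - p * α) : ℤ) : ℝ) / q with hy
  have hyq : (q : ℝ) * y = ((u + (q * β - p * α) : ℤ) : ℝ) := by
    rw [hy]; field_simp
  have elt : ∀ z : ℤ × ℤ, ev (lin α β z) (-((p : ℝ) / q)) < y ↔ q * z.2 - p * z.1 < u := by
    intro z
    rw [← mul_lt_mul_iff_right₀ hq', ev_lin α β p q hq z, hyq, Int.cast_lt]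
    constructor <;> intro h <;> linarith
  have eeq : ∀ z : ℤ × ℤ, ev (lin α β z) (-((p : ℝ) / q)) = y ↔ q * z.2 - p * z.1 = u := by
    intro z
    rw [← mul_right_inj' hq'.ne', ev_lin α β p q hq z, hyq, Int.cast_inj]
    constructor <;> intro h <;> linarith
  have clt : nlt (R.image (lin α β)) (-((p : ℝ) / q)) y =
      (R.filter fun z => q * z.2 - p * z.1 < u).card := by
    unfold nlt
    rw [Finset.filter_image, Finset.card_image_of_injective _ (lin_inj α β)]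
    congr 1
    exact Finset.filter_congr fun z _ => elt z
  have ceq : ((R.image (lin α β)).filter fun l => ev l (-((p : ℝ) / q)) = y).card =
      (R.filter fun z => q * z.2 - p * z.1 = u).card := by
    rw [Finset.filter_image, Finset.card_image_of_injective _ (lin_inj α β)]
    congr 1
    exact Finset.filter_congr fun z _ => eeq z
  exact ⟨y, by rw [clt]; exact h1, by rw [clt, ceq]; exact h2, by rw [ceq]; exact h3⟩

open Classical in
/-- the low lines -/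
noncomputable def lows (s1 s β : ℕ) : Finset (ℝ × ℝ) :=
  ((Finset.Ioc s1 s) ×ˢ (Finset.range β)).image
    fun z : ℕ × ℕ => (((z.1 : ℕ) : ℝ), ((z.2 : ℕ) : ℝ))

theorem lows_card (s1 s β : ℕ) : (lows s1 s β).card = (s - s1) * β := by
  classical
  unfold lows
  rw [Finset.card_image_of_injective, Finset.card_product, Nat.card_Ioc, Finset.card_range]
  intro z z' h
  have h1 : ((z.1 : ℕ) : ℝ) = ((z'.1 : ℕ) : ℝ) := congrArg Prod.fst h
  have h2 : ((z.2 : ℕ) : ℝ) = ((z'.2 : ℕ) : ℝ) := congrArg Prod.snd h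
  exact Prod.ext (by exact_mod_cast h1) (by exact_mod_cast h2)

theorem mem_lows {s1 s β : ℕ} {l : ℝ × ℝ} (hl : l ∈ lows s1 s β) :
    ∃ a b : ℕ, s1 < a ∧ a ≤ s ∧ b < β ∧ l = ((a : ℝ), (b : ℝ)) := by
  classical
  unfold lows at hl
  obtain ⟨z, hz, rfl⟩ := Finset.mem_image.1 hl
  rw [Finset.mem_product, Finset.mem_Ioc, Finset.mem_range] at hz
  exact ⟨z.1, z.2, hz.1.1, hz.1.2, hz.2, rfl⟩

theorem assemble (R : Finset (ℤ × ℤ)) (α : ℤ) (s1 m1 β s m k w : ℕ) (P : Finset (ℕ × ℕ))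
    (hR : ∀ z ∈ R, (0 ≤ z.1 + α ∧ z.1 + α ≤ s1) ∧ (0 ≤ z.2 ∧ z.2 ≤ m1))
    (hP : ∀ z ∈ P, 0 < z.1 ∧ 0 < z.2 ∧ Nat.Coprime z.1 z.2)
    (hcl : ∀ z ∈ P, ClassMulti R k z.1 z.2) (hk : k < R.card) (hs1 : s1 ≤ s) (hm : β + m1 ≤ m)
    (hw : w + 1 ≤ (s - s1) * β) :
    ∃ Γ : Finset (ℝ × ℝ), InBox s m Γ ∧ k + w < Γ.card ∧ P.card ≤ 2 * psi Γ (k + w) := by
  classical
  set Γ0 := R.image (lin α β) with hΓ0
  set X := P.image fun z => -((z.2 : ℝ) / z.1) with hX
  have hXcard : X.card = P.card := by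
    rw [hX, Finset.card_image_of_injOn]
    intro z hz z' hz' h
    have e := hP z hz
    have e' := hP z' hz'
    exact slope_inj e.1 e'.1 e.2.2 e'.2.2 h
  have hXm : ∀ x ∈ X, Multi Γ0 k x := by
    intro x hx
    obtain ⟨z, hz, rfl⟩ := Finset.mem_image.1 hx
    have e := hP z hz
    have := multi_of_class (by exact_mod_cast e.1) α β (hcl z hz)
    rw [Int.cast_natCast, Int.cast_natCast] at this
    exact this
  have hΓmem : ∀ l ∈ Γ0, ∃ a b : ℕ, a ≤ s1 ∧ β ≤ b ∧ b ≤ β + m1 ∧ l = ((a : ℝ), (b : ℝ)) := by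
    intro l hl
    obtain ⟨z, hz, rfl⟩ := Finset.mem_image.1 hl
    obtain ⟨⟨e1, e2⟩, ⟨e3, e4⟩⟩ := hR z hz
    refine ⟨(z.1 + α).toNat, (z.2 + β).toNat, by omega, by omega, by omega, ?_⟩
    unfold lin
    have f1 : (((z.1 + α).toNat : ℕ) : ℤ) = z.1 + α := Int.toNat_of_nonneg e1
    have f2 : (((z.2 + β).toNat : ℕ) : ℤ) = z.2 + β := Int.toNat_of_nonneg (by omega)
    have g1 : (((z.1 + α).toNat : ℕ) : ℝ) = ((z.1 + α : ℤ) : ℝ) := by
      have := congrArg (fun t : ℤ => (t : ℝ)) f1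
      simp only [Int.cast_natCast] at this
      exact this
    have g2 : (((z.2 + β).toNat : ℕ) : ℝ) = ((z.2 + β : ℤ) : ℝ) := by
      have := congrArg (fun t : ℤ => (t : ℝ)) f2
      simp only [Int.cast_natCast] at this
      exact this
    rw [g1, g2]
  have hlow : ∀ x ∈ X, ∀ l' ∈ lows s1 s β, ∀ l ∈ Γ0, ev l' x < ev l x := by
    intro x hx l' hl' l hl
    obtain ⟨z, hz, rfl⟩ := Finset.mem_image.1 hx
    obtain ⟨a', b', ha', -, hb', rfl⟩ := mem_lows hl'
    obtain ⟨a, b, ha, hb, -, rfl⟩ := hΓmem l hl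
    have e := hP z hz
    have hx0 : (0 : ℝ) < (z.2 : ℝ) / z.1 := by
      have e1 : (0 : ℝ) < z.1 := by exact_mod_cast e.1
      have e2 : (0 : ℝ) < z.2 := by exact_mod_cast e.2.1
      positivity
    unfold ev
    simp only
    have h1 : (a : ℝ) ≤ a' := by exact_mod_cast (by omega : a ≤ a')
    have h2 : (b' : ℝ) < b := by exact_mod_cast (by omega : b' < b)
    have h3 : (a : ℝ) * ((z.2 : ℝ) / z.1) ≤ a' * ((z.2 : ℝ) / z.1) :=
      mul_le_mul_of_nonneg_right h1 hx0.le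
    linarith
  obtain ⟨Λ', hΛ', hc, hψ⟩ := exists_psi X hXm hlow (by rw [lows_card]; exact hw)
  refine ⟨Λ' ∪ Γ0, ?_, ?_, by rw [← hXcard]; exact hψ⟩
  · intro l hl
    rcases Finset.mem_union.1 hl with h | h
    · obtain ⟨a, b, -, h2, h3, h4⟩ := mem_lows (hΛ' h)
      exact ⟨a, b, h2, by omega, h4⟩
    · obtain ⟨a, b, h1, h2, h3, h4⟩ := hΓmem l h
      exact ⟨a, b, by omega, by omega, h4⟩
  · have hdisj : Disjoint Λ' Γ0 := by
      rw [Finset.disjoint_left]
      intro l h1 h2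
      obtain ⟨a, b, e1, -, -, e2⟩ := mem_lows (hΛ' h1)
      obtain ⟨a', b', e3, -, -, e4⟩ := hΓmem l h2
      rw [e2] at e4
      have : ((a : ℕ) : ℝ) = ((a' : ℕ) : ℝ) := congrArg Prod.fst e4
      have : a = a' := by exact_mod_cast this
      omega
    rw [Finset.card_union_of_disjoint hdisj, hΓ0, Finset.card_image_of_injective _ (lin_inj α β)]
    omega

end Pool.Agent.ILV
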