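import Mathlib

/-! Lattice points above a parabola: the classes of points on lines of a given direction. -/

namespace Pool.Agent.ILV
open Finset

/-- lattice points of the box `[-h, h] × [0, m]` above the parabola `2 h² b = m a²` -/
noncomputable def reg (h m : ℕ) : Finset (ℤ × ℤ) :=
  ((Finset.Icc (-(h : ℤ)) h) ×ˢ (Finset.Icc (0 : ℤ) m)).filter
    fun z => (m : ℤ) * z.1 ^ 2 ≤ 2 * (h : ℤ) ^ 2 * z.2

theorem mem_reg {h m : ℕ} {z : ℤ × ℤ} : z ∈ reg h m ↔
    (-(h : ℤ) ≤ z.1 ∧ z.1 ≤ h) ∧ (0 ≤ z.2 ∧ z.2 ≤ m) ∧ (m : ℤ) * z.1 ^ 2 ≤ 2 * (h : ℤ) ^ 2 * z.2 := by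
  unfold reg
  rw [Finset.mem_filter, Finset.mem_product, Finset.mem_Icc, Finset.mem_Icc]
  tauto

/-- the discriminant -/
def disc (h m : ℕ) (p q u : ℤ) : ℤ := 2 * (h : ℤ) ^ 2 * m * q * u + (h : ℤ) ^ 4 * p ^ 2

theorem disc_eq (h m : ℕ) (p q a b : ℤ) : disc h m p q (q * b - p * a) =
    ((m : ℤ) * q * a - (h : ℤ) ^ 2 * p) ^ 2 + (m : ℤ) * q ^ 2 * (2 * (h : ℤ) ^ 2 * b - m * a ^ 2) := by
  unfold disc; ring

theorem exists_ceil (N c : ℤ) (hN : 0 < N) : ∃ a, c ≤ N * a ∧ N * a < c + N := by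
  refine ⟨-((-c) / N), ?_, ?_⟩
  · have := Int.mul_ediv_self_le (x := -c) (k := N) hN.ne'
    linarith [mul_neg N ((-c) / N)]
  · have := Int.lt_mul_ediv_self_add (x := -c) (k := N) hN
    linarith [mul_neg N ((-c) / N)]

theorem disc_nonneg {h m : ℕ} {p q : ℤ} {z : ℤ × ℤ} (hz : z ∈ reg h m) :
    ((m : ℤ) * q * z.1 - (h : ℤ) ^ 2 * p) ^ 2 ≤ disc h m p q (q * z.2 - p * z.1) := by
  rw [disc_eq]
  have h1 := (mem_reg.1 hz).2.2
  have h2 : 0 ≤ (m : ℤ) * q ^ 2 * (2 * (h : ℤ) ^ 2 * z.2 - m * z.1 ^ 2) :=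
    mul_nonneg (by positivity) (by linarith)
  linarith

theorem disc_mono {h m : ℕ} {p q u v : ℤ} (hq : 0 < q) (huv : u ≤ v) :
    disc h m p q u ≤ disc h m p q v := by
  unfold disc
  have : 2 * (h : ℤ) ^ 2 * m * q * u ≤ 2 * (h : ℤ) ^ 2 * m * q * v :=
    mul_le_mul_of_nonneg_left huv (by positivity)
  linarith

/-- few points in short classes -/
theorem step_short (h m k : ℕ) (p q : ℤ) (hh : 1 ≤ h) (hm : 1 ≤ m) (hq : 0 < q)
    (hpq : IsCoprime q p) (c3 : (m : ℤ) * q ^ 3 + 2 * (h : ℤ) ^ 2 ≤ k * (h : ℤ) ^ 2) :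
    ((reg h m).filter fun z => disc h m p q (q * z.2 - p * z.1) < (m : ℤ) ^ 2 * q ^ 4).card ≤ k := by
  classical
  have hh' : (0 : ℤ) < h := by exact_mod_cast hh
  have hm' : (0 : ℤ) < m := by exact_mod_cast hm
  set A := (reg h m).filter fun z => disc h m p q (q * z.2 - p * z.1) < (m : ℤ) ^ 2 * q ^ 4 with hA
  set f : ℤ × ℤ → ℤ := fun z => q * z.2 - p * z.1 with hf
  have hfib : ∀ u ∈ A.image f, (A.filter fun z => f z = u).card ≤ 2 := by
    intro u _
    have h1 : Set.InjOn (fun z : ℤ × ℤ => decide (0 ≤ (m : ℤ) * q * z.1 - (h : ℤ) ^ 2 * p))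
        ((A.filter fun z => f z = u : Finset (ℤ × ℤ)) : Set (ℤ × ℤ)) := by
      intro z hz z' hz' hzz
      simp only [decide_eq_decide] at hzz
      rw [Finset.mem_coe, Finset.mem_filter] at hz hz'
      obtain ⟨hzA, hzu⟩ := hz
      obtain ⟨hzA', hzu'⟩ := hz'
      rw [hA, Finset.mem_filter] at hzA hzA'
      have hb : ((m : ℤ) * q * z.1 - (h : ℤ) ^ 2 * p) ^ 2 < ((m : ℤ) * q * q) ^ 2 := by
        have e1 := disc_nonneg (p := p) (q := q) hzA.1
        have e2 := hzA.2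
        have e3 : ((m : ℤ) * q * q) ^ 2 = (m : ℤ) ^ 2 * q ^ 4 := by ring
        rw [e3]; linarith
      have hb' : ((m : ℤ) * q * z'.1 - (h : ℤ) ^ 2 * p) ^ 2 < ((m : ℤ) * q * q) ^ 2 := by
        have e1 := disc_nonneg (p := p) (q := q) hzA'.1
        have e2 := hzA'.2
        have e3 : ((m : ℤ) * q * q) ^ 2 = (m : ℤ) ^ 2 * q ^ 4 := by ring
        rw [e3]; linarith
      have hpos : (0 : ℤ) ≤ (m : ℤ) * q * q := by positivity
      obtain ⟨l1, l2⟩ := abs_lt.1 (abs_lt_of_sq_lt_sq hb hpos)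
      obtain ⟨l1', l2'⟩ := abs_lt.1 (abs_lt_of_sq_lt_sq hb' hpos)
      have hclose : |z.1 - z'.1| < q := by
        have hmq : (0 : ℤ) < (m : ℤ) * q := by positivity
        have e : (m : ℤ) * q * |z.1 - z'.1| < (m : ℤ) * q * q := by
          rw [← abs_of_pos hmq, ← abs_mul, abs_of_pos hmq, abs_lt]
          by_cases c : 0 ≤ (m : ℤ) * q * z.1 - (h : ℤ) ^ 2 * p
          · have c' := hzz.1 c
            constructor <;> linarith
          · have c' : ¬ 0 ≤ (m : ℤ) * q * z'.1 - (h : ℤ) ^ 2 * p := fun h => c (hzz.2 h)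
            push Not at c c'
            constructor <;> linarith
        exact lt_of_mul_lt_mul_left e hmq.le
      have hdvd : q ∣ z.1 - z'.1 := by
        have e : q ∣ p * (z.1 - z'.1) := by
          refine ⟨z.2 - z'.2, ?_⟩
          simp only [hf] at hzu hzu'
          linarith
        exact hpq.dvd_of_dvd_mul_left e
      have hz0 : z.1 - z'.1 = 0 := Int.eq_zero_of_abs_lt_dvd hdvd hclose
      have e1 : z.1 = z'.1 := by linarith
      have e2 : z.2 = z'.2 := by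
        simp only [hf] at hzu hzu'
        rw [e1] at hzu
        have : q * (z.2 - z'.2) = 0 := by linarith
        rcases mul_eq_zero.1 this with h | h
        · exact absurd h hq.ne'
        · linarith
      exact Prod.ext e1 e2
    have h2 := Finset.card_le_card_of_injOn (s := A.filter fun z => f z = u)
      (t := (Finset.univ : Finset Bool)) _ (fun _ _ => Finset.mem_coe.2 (Finset.mem_univ _)) h1
    simpa using h2
  have h1 := Finset.card_le_mul_card_image A 2 hfib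
  by_cases hne : (A.image f).Nonempty
  swap
  · rw [Finset.not_nonempty_iff_eq_empty] at hne
    rw [hne, Finset.card_empty] at h1
    omega
  set T := A.image f with hT
  have h2 : (T.card : ℤ) ≤ T.max' hne - T.min' hne + 1 := by
    have h3 : T ⊆ Finset.Icc (T.min' hne) (T.max' hne) := by
      intro u hu
      exact Finset.mem_Icc.2 ⟨T.min'_le u hu, T.le_max' u hu⟩
    have h4 := Finset.card_le_card h3
    rw [Int.card_Icc] at h4
    have h5 : T.min' hne ≤ T.max' hne := T.min'_le _ (T.max'_mem hne)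
    omega
  have h3 : 0 ≤ disc h m p q (T.min' hne) := by
    obtain ⟨z, hz, hzu⟩ := Finset.mem_image.1 (T.min'_mem hne)
    rw [← hzu]
    exact (sq_nonneg _).trans (disc_nonneg (Finset.mem_filter.1 hz).1)
  have h4 : disc h m p q (T.max' hne) < (m : ℤ) ^ 2 * q ^ 4 := by
    obtain ⟨z, hz, hzu⟩ := Finset.mem_image.1 (T.max'_mem hne)
    rw [← hzu]
    exact (Finset.mem_filter.1 hz).2
  have h5 : 2 * (h : ℤ) ^ 2 * m * q * (T.max' hne - T.min' hne) < (m : ℤ) ^ 2 * q ^ 4 := by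
    unfold disc at h3 h4
    linarith
  have h6 : 2 * (h : ℤ) ^ 2 * (T.max' hne - T.min' hne) < (m : ℤ) * q ^ 3 := by
    have e : ((m : ℤ) * q) * (2 * (h : ℤ) ^ 2 * (T.max' hne - T.min' hne)) <
        ((m : ℤ) * q) * ((m : ℤ) * q ^ 3) := by
      have e1 : ((m : ℤ) * q) * (2 * (h : ℤ) ^ 2 * (T.max' hne - T.min' hne)) =
        2 * (h : ℤ) ^ 2 * m * q * (T.max' hne - T.min' hne) := by ring
      have e2 : ((m : ℤ) * q) * ((m : ℤ) * q ^ 3) = (m : ℤ) ^ 2 * q ^ 4 := by ring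
      rw [e1, e2]; exact h5
    exact lt_of_mul_lt_mul_left e (by positivity)
  have h7 : (A.card : ℤ) ≤ 2 * T.card := by exact_mod_cast h1
  have h8 : (h : ℤ) ^ 2 * A.card ≤ k * (h : ℤ) ^ 2 := by
    have hpos : (0 : ℤ) ≤ (h : ℤ) ^ 2 := by positivity
    calc (h : ℤ) ^ 2 * A.card ≤ (h : ℤ) ^ 2 * (2 * T.card) := mul_le_mul_of_nonneg_left h7 hpos
      _ ≤ (h : ℤ) ^ 2 * (2 * (T.max' hne - T.min' hne + 1)) :=
          mul_le_mul_of_nonneg_left (by linarith) hpos
      _ ≤ k * (h : ℤ) ^ 2 := by nlinarith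
  have h9 : (A.card : ℤ) ≤ k := by
    have hpos : (0 : ℤ) < (h : ℤ) ^ 2 := by positivity
    refine le_of_mul_le_mul_left ?_ hpos
    linarith
  exact_mod_cast h9

/-- many points in the classes of bounded length -/
theorem step_many (h m : ℕ) (p q : ℤ) (hh : 1 ≤ h) (hm : 1 ≤ m) (hp : 0 < p) (hq : 0 < q)
    (c1 : 2 * (h : ℤ) * p ≤ m * q) :
    (h / 2) * (3 * m / 32) ≤ ((reg h m).filter fun z =>
      4 * disc h m p q (q * z.2 - p * z.1) ≤ (m : ℤ) ^ 2 * q ^ 2 * (h : ℤ) ^ 2).card := by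
  classical
  have hh' : (0 : ℤ) < h := by exact_mod_cast hh
  have hm' : (0 : ℤ) < m := by exact_mod_cast hm
  obtain ⟨a0, ha1, ha2⟩ := exists_ceil (4 * m * q) (4 * (h : ℤ) ^ 2 * p - m * q * h) (by positivity)
  choose bs hb1 hb2 using fun a : ℤ => exists_ceil (2 * (h : ℤ) ^ 2) (m * a ^ 2) (by positivity)
  have hcard : (h / 2) * (3 * m / 32) =
      ((Finset.range (h / 2)) ×ˢ (Finset.range (3 * m / 32))).card := by
    rw [Finset.card_product, Finset.card_range, Finset.card_range]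
  rw [hcard]
  refine Finset.card_le_card_of_injOn
    (fun z : ℕ × ℕ => ((a0 + z.1, bs (a0 + z.1) + z.2) : ℤ × ℤ)) ?_ ?_
  · rintro ⟨i, j⟩ hij
    rw [Finset.mem_coe, Finset.mem_product, Finset.mem_range, Finset.mem_range] at hij
    obtain ⟨hi, hj⟩ := hij
    simp only at hi hj
    rw [Finset.mem_coe, Finset.mem_filter, mem_reg]
    simp only
    set a : ℤ := a0 + i with ha
    have i1 : (0 : ℤ) ≤ i := by positivity
    have i2 : 2 * ((i : ℤ) + 1) ≤ h := by omega
    have j1 : (0 : ℤ) ≤ j := by positivity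
    have j2 : 32 * ((j : ℤ) + 1) ≤ 3 * m := by omega
    have hmq : (0 : ℤ) < (m : ℤ) * q := by positivity
    have a1 : -((m : ℤ) * q * h) ≤ 4 * (m * q * a - (h : ℤ) ^ 2 * p) := by
      have e : 0 ≤ (m : ℤ) * q * i := by positivity
      rw [ha]; linarith [ha1, e]
    have a2 : 4 * (m * q * a - (h : ℤ) ^ 2 * p) ≤ (m : ℤ) * q * h := by
      have e : (m : ℤ) * q * (2 * ((i : ℤ) + 1)) ≤ (m : ℤ) * q * h :=
        mul_le_mul_of_nonneg_left i2 hmq.le
      rw [ha]; linarith [ha2, e]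
    have e1 : (h : ℤ) * (2 * (h : ℤ) * p) ≤ h * (m * q) := mul_le_mul_of_nonneg_left c1 hh'.le
    have e0 : 0 ≤ (h : ℤ) ^ 2 * p := by positivity
    have a3 : a ≤ h := by
      have e : (m : ℤ) * q * a ≤ (m : ℤ) * q * h := by
        have : 0 ≤ (m : ℤ) * q * h := by positivity
        linarith [a2, e1, this]
      exact le_of_mul_le_mul_left e hmq
    have a4 : -(h : ℤ) ≤ a := by
      have e : (m : ℤ) * q * (-(h : ℤ)) ≤ (m : ℤ) * q * a := by
        have : 0 ≤ (m : ℤ) * q * h := by positivity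
        linarith [a1, e0, this]
      exact le_of_mul_le_mul_left e hmq
    have b1 := hb1 a
    have b2 := hb2 a
    set b := bs a + (j : ℤ) with hb
    have b3 : (m : ℤ) * a ^ 2 ≤ 2 * (h : ℤ) ^ 2 * b := by
      have : 0 ≤ 2 * (h : ℤ) ^ 2 * j := by positivity
      rw [hb]; linarith [b1, this]
    have b4 : 16 * (2 * (h : ℤ) ^ 2 * b - m * a ^ 2) ≤ 3 * m * (h : ℤ) ^ 2 := by
      have e : (h : ℤ) ^ 2 * (32 * ((j : ℤ) + 1)) ≤ (h : ℤ) ^ 2 * (3 * m) :=
        mul_le_mul_of_nonneg_left j2 (by positivity)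
      rw [hb]; linarith [b2, e]
    have asq : a ^ 2 ≤ (h : ℤ) ^ 2 := sq_le_sq' a4 a3
    have b5 : b ≤ m := by
      have e2 : (m : ℤ) * a ^ 2 ≤ m * (h : ℤ) ^ 2 := mul_le_mul_of_nonneg_left asq hm'.le
      have e3 : (0 : ℤ) ≤ m * (h : ℤ) ^ 2 := by positivity
      have e : (2 * (h : ℤ) ^ 2) * b ≤ (2 * (h : ℤ) ^ 2) * m := by linarith [b4, e2, e3]
      exact le_of_mul_le_mul_left e (by positivity)
    have b6 : 0 ≤ b := by
      have e2 : (0 : ℤ) ≤ (m : ℤ) * a ^ 2 := by positivity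
      have e : (2 * (h : ℤ) ^ 2) * 0 ≤ (2 * (h : ℤ) ^ 2) * b := by linarith [b3, e2]
      exact le_of_mul_le_mul_left e (by positivity)
    refine ⟨⟨⟨a4, a3⟩, ⟨b6, b5⟩, b3⟩, ?_⟩
    rw [disc_eq]
    have s1 : (4 * (m * q * a - (h : ℤ) ^ 2 * p)) ^ 2 ≤ ((m : ℤ) * q * h) ^ 2 := sq_le_sq' a1 a2
    have s2 : (m : ℤ) * q ^ 2 * (16 * (2 * (h : ℤ) ^ 2 * b - m * a ^ 2)) ≤
        (m : ℤ) * q ^ 2 * (3 * m * (h : ℤ) ^ 2) := mul_le_mul_of_nonneg_left b4 (by positivity)
    have e3 : ((m : ℤ) * q * h) ^ 2 = (m : ℤ) ^ 2 * q ^ 2 * (h : ℤ) ^ 2 := by ring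
    have e4 : (m : ℤ) * q ^ 2 * (3 * m * (h : ℤ) ^ 2) = 3 * ((m : ℤ) ^ 2 * q ^ 2 * (h : ℤ) ^ 2) := by
      ring
    rw [e3] at s1
    rw [e4] at s2
    linarith [s1, s2]
  · rintro ⟨i, j⟩ _ ⟨i', j'⟩ _ hz
    simp only [Prod.mk.injEq] at hz
    obtain ⟨z1, z2⟩ := hz
    have e1 : (i : ℤ) = i' := by linarith
    rw [e1] at z2
    have e2 : (j : ℤ) = j' := by linarith
    rw [Prod.mk.injEq]
    exact ⟨by exact_mod_cast e1, by exact_mod_cast e2⟩

/-- discrete levels -/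
theorem exists_class (R : Finset (ℤ × ℤ)) (f : ℤ × ℤ → ℤ) (k : ℕ) (hk : k < R.card) :
    ∃ u, (R.filter fun z => f z < u).card ≤ k ∧ k < (R.filter fun z => f z ≤ u).card := by
  classical
  set W := (R.image f).filter fun u => k < (R.filter fun z => f z ≤ u).card with hW
  have hRne : (R.image f).Nonempty := by
    have : R.Nonempty := Finset.card_pos.1 (by omega)
    exact this.image f
  have hWne : W.Nonempty := by
    refine ⟨(R.image f).max' hRne, ?_⟩
    rw [hW, Finset.mem_filter]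
    refine ⟨Finset.max'_mem _ _, ?_⟩
    rw [Finset.filter_true_of_mem]
    · exact hk
    · intro z hz
      exact Finset.le_max' _ _ (Finset.mem_image_of_mem f hz)
  refine ⟨W.min' hWne, ?_, ?_⟩
  · by_contra hc
    push Not at hc
    set L := R.filter fun z => f z < W.min' hWne with hL
    have hLne : (L.image f).Nonempty := by
      have : L.Nonempty := Finset.card_pos.1 (by omega)
      exact this.image f
    set u' := (L.image f).max' hLne with hu'
    obtain ⟨z, hz, hzu⟩ := Finset.mem_image.1 ((L.image f).max'_mem hLne)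
    rw [← hu'] at hzu
    have hz' := Finset.mem_filter.1 hz
    have h1 : u' ∈ W := by
      rw [hW, Finset.mem_filter]
      refine ⟨by rw [← hzu]; exact Finset.mem_image_of_mem f hz'.1, ?_⟩
      refine lt_of_lt_of_le hc (Finset.card_le_card ?_)
      intro y hy
      rw [Finset.mem_filter]
      exact ⟨(Finset.mem_filter.1 hy).1, Finset.le_max' _ _ (Finset.mem_image_of_mem f hy)⟩
    have h2 := W.min'_le _ h1
    have h3 := hz'.2
    rw [hzu] at h3
    linarith
  · exact (Finset.mem_filter.1 (W.min'_mem hWne)).2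

/-- the class of rank `k` has at least two points -/
theorem core_class (h m k : ℕ) (p q : ℤ) (hh : 1 ≤ h) (hm : 1 ≤ m) (hp : 0 < p) (hq : 0 < q)
    (hpq : IsCoprime q p) (c1 : 2 * (h : ℤ) * p ≤ m * q) (c2 : 2 * q ≤ h)
    (c3 : (m : ℤ) * q ^ 3 + 2 * (h : ℤ) ^ 2 ≤ k * (h : ℤ) ^ 2) (c4 : k < (h / 2) * (3 * m / 32)) :
    ∃ u : ℤ, ((reg h m).filter fun z => q * z.2 - p * z.1 < u).card ≤ k ∧
      k < ((reg h m).filter fun z => q * z.2 - p * z.1 < u).card +
        ((reg h m).filter fun z => q * z.2 - p * z.1 = u).card ∧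
      2 ≤ ((reg h m).filter fun z => q * z.2 - p * z.1 = u).card := by
  classical
  have hh' : (0 : ℤ) < h := by exact_mod_cast hh
  have hm' : (0 : ℤ) < m := by exact_mod_cast hm
  have hA := step_short h m k p q hh hm hq hpq c3
  have hB := step_many h m p q hh hm hp hq c1
  have hR : k < (reg h m).card :=
    (lt_of_lt_of_le c4 hB).trans_le (Finset.card_le_card (Finset.filter_subset _ _))
  obtain ⟨u, hu1, hu2⟩ := exists_class (reg h m) (fun z => q * z.2 - p * z.1) k hR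
  -- the class is long
  have d1 : (m : ℤ) ^ 2 * q ^ 4 ≤ disc h m p q u := by
    by_contra hc
    push Not at hc
    have : (reg h m).filter (fun z => q * z.2 - p * z.1 ≤ u) ⊆ (reg h m).filter
        fun z => disc h m p q (q * z.2 - p * z.1) < (m : ℤ) ^ 2 * q ^ 4 := by
      intro z hz
      rw [Finset.mem_filter] at hz ⊢
      exact ⟨hz.1, lt_of_le_of_lt (disc_mono hq hz.2) hc⟩
    have := Finset.card_le_card this
    omega
  -- the class is not too long
  have d2 : 4 * disc h m p q u ≤ (m : ℤ) ^ 2 * q ^ 2 * (h : ℤ) ^ 2 := by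
    by_contra hc
    push Not at hc
    have : (reg h m).filter (fun z => 4 * disc h m p q (q * z.2 - p * z.1) ≤
        (m : ℤ) ^ 2 * q ^ 2 * (h : ℤ) ^ 2) ⊆ (reg h m).filter
        fun z => q * z.2 - p * z.1 < u := by
      intro z hz
      rw [Finset.mem_filter] at hz ⊢
      refine ⟨hz.1, ?_⟩
      by_contra hcc
      push Not at hcc
      have := disc_mono (h := h) (m := m) (p := p) hq hcc
      linarith [hz.2]
    have := Finset.card_le_card this
    omega
  have hmq : (0 : ℤ) < (m : ℤ) * q := by positivity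
  -- two points in the class
  obtain ⟨x, y, hxy⟩ := hpq
  -- residue
  have hres : ∃ ar br : ℤ, q * br = u + p * ar := ⟨-(u * y), u * x, by linear_combination u * hxy⟩
  obtain ⟨ar, br, hr⟩ := hres
  obtain ⟨t, ht1, ht2⟩ := exists_ceil ((m : ℤ) * q * q) ((h : ℤ) ^ 2 * p - m * q * ar) (by positivity)
  -- a2 = ar + q t , a1 = a2 - q
  have hmem : ∀ a b : ℤ, q * b = u + p * a → -((m : ℤ) * q * q) ≤ m * q * a - (h : ℤ) ^ 2 * p →
      m * q * a - (h : ℤ) ^ 2 * p ≤ (m : ℤ) * q * q → (a, b) ∈ reg h m := by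
    intro a b hab l1 l2
    have hu : u = q * b - p * a := by linarith
    have s1 : ((m : ℤ) * q * a - (h : ℤ) ^ 2 * p) ^ 2 ≤ ((m : ℤ) * q * q) ^ 2 := sq_le_sq' l1 l2
    have e1 : ((m : ℤ) * q * q) ^ 2 = (m : ℤ) ^ 2 * q ^ 4 := by ring
    have e2 := disc_eq h m p q a b
    rw [← hu] at e2
    have b3 : (m : ℤ) * a ^ 2 ≤ 2 * (h : ℤ) ^ 2 * b := by
      have e3 : 0 ≤ (m : ℤ) * q ^ 2 * (2 * (h : ℤ) ^ 2 * b - m * a ^ 2) := by linarith
      by_contra hc
      push Not at hc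
      have : (m : ℤ) * q ^ 2 * (2 * (h : ℤ) ^ 2 * b - m * a ^ 2) < 0 :=
        mul_neg_of_pos_of_neg (by positivity) (by linarith)
      linarith
    have e0 : 0 ≤ (h : ℤ) ^ 2 * p := by positivity
    have e4 : (h : ℤ) * (2 * (h : ℤ) * p) ≤ h * (m * q) := mul_le_mul_of_nonneg_left c1 hh'.le
    have e5 : (m : ℤ) * q * (2 * q) ≤ m * q * h := mul_le_mul_of_nonneg_left c2 hmq.le
    have a3 : a ≤ h := by
      have e : (m : ℤ) * q * a ≤ (m : ℤ) * q * h := by linarith
      exact le_of_mul_le_mul_left e hmq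
    have a4 : -(h : ℤ) ≤ a := by
      have e : (m : ℤ) * q * (-(h : ℤ)) ≤ (m : ℤ) * q * a := by
        have : 0 ≤ (m : ℤ) * q * h := by positivity
        linarith
      exact le_of_mul_le_mul_left e hmq
    have b6 : 0 ≤ b := by
      have e2 : (0 : ℤ) ≤ (m : ℤ) * a ^ 2 := by positivity
      have e : (2 * (h : ℤ) ^ 2) * 0 ≤ (2 * (h : ℤ) ^ 2) * b := by linarith [b3, e2]
      exact le_of_mul_le_mul_left e (by positivity)
    have u1 : 8 * u ≤ m * q := by
      have e6 : 4 * (2 * (h : ℤ) ^ 2 * m * q * u) ≤ (m : ℤ) ^ 2 * q ^ 2 * (h : ℤ) ^ 2 := by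
        have : 0 ≤ (h : ℤ) ^ 4 * p ^ 2 := by positivity
        unfold disc at d2
        linarith
      have e7 : ((h : ℤ) ^ 2 * (m * q)) * (8 * u) ≤ ((h : ℤ) ^ 2 * (m * q)) * (m * q) := by
        linarith [e6]
      exact le_of_mul_le_mul_left e7 (by positivity)
    have b5 : b ≤ m := by
      have e8 : p * a ≤ p * h := mul_le_mul_of_nonneg_left a3 hp.le
      have e : q * b ≤ q * m := by linarith
      exact le_of_mul_le_mul_left e hq
    exact mem_reg.2 ⟨⟨a4, a3⟩, ⟨b6, b5⟩, b3⟩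
  have m2 : ((ar + q * t, br + p * t) : ℤ × ℤ) ∈ reg h m := by
    refine hmem _ _ (by linear_combination hr) ?_ ?_
    · linarith [ht1, ht2]
    · linarith [ht1, ht2]
  have m1 : ((ar + q * (t - 1), br + p * (t - 1)) : ℤ × ℤ) ∈ reg h m := by
    refine hmem _ _ (by linear_combination hr) ?_ ?_
    · linarith [ht1, ht2]
    · linarith [ht1, ht2]
  have hcls : 2 ≤ ((reg h m).filter fun z => q * z.2 - p * z.1 = u).card := by
    have : ({((ar + q * t, br + p * t) : ℤ × ℤ), ((ar + q * (t - 1), br + p * (t - 1)) : ℤ × ℤ)} :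
        Finset (ℤ × ℤ)) ⊆ (reg h m).filter fun z => q * z.2 - p * z.1 = u := by
      intro z hz
      rw [Finset.mem_insert, Finset.mem_singleton] at hz
      rw [Finset.mem_filter]
      rcases hz with rfl | rfl
      · exact ⟨m2, by simp only; linear_combination hr⟩
      · exact ⟨m1, by simp only; linear_combination hr⟩
    refine le_trans ?_ (Finset.card_le_card this)
    rw [Finset.card_pair]
    intro h
    have h1 : ar + q * t = ar + q * (t - 1) := congrArg Prod.fst h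
    linarith
  refine ⟨u, hu1, ?_, hcls⟩
  have hun : (reg h m).filter (fun z => q * z.2 - p * z.1 ≤ u) =
      (reg h m).filter (fun z => q * z.2 - p * z.1 < u) ∪
        (reg h m).filter (fun z => q * z.2 - p * z.1 = u) := by
    ext z
    rw [Finset.mem_union, Finset.mem_filter, Finset.mem_filter, Finset.mem_filter]
    constructor
    · rintro ⟨h1, h2⟩
      rcases lt_or_eq_of_le h2 with h3 | h3
      · exact Or.inl ⟨h1, h3⟩
      · exact Or.inr ⟨h1, h3⟩
    · rintro (⟨h1, h2⟩ | ⟨h1, h2⟩)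
      · exact ⟨h1, h2.le⟩
      · exact ⟨h1, h2.le⟩
  rw [hun] at hu2
  exact hu2.trans_le (Finset.card_union_le _ _)

end Pool.Agent.ILV
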