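import Pool.Agent.ILV.UpperQ

/-! Levels of sets of lines with small tripling. -/

namespace Pool.Agent.ILV
open Finset Filter Topology Pool.Agent.KL Pool.Agent.KLS
open scoped Pointwise

/-- the cell of `a` in the subdivision of step `ℓ` starting at `a0` -/
noncomputable def cell (a0 ℓ a : ℝ) : ℤ := ⌊(a - a0) / ℓ⌋

theorem cell_lt {a0 ℓ a a' : ℝ} (hℓ : 0 < ℓ) (h : cell a0 ℓ a = cell a0 ℓ a') : a - a' < ℓ := by
  unfold cell at h
  have h1 := Int.lt_floor_add_one ((a - a0) / ℓ)
  have h2 := Int.floor_le ((a' - a0) / ℓ)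
  rw [h] at h1
  have h3 : (a - a0) / ℓ < (a' - a0) / ℓ + 1 := by linarith
  rw [div_add_one hℓ.ne', div_lt_div_iff_of_pos_right hℓ] at h3
  linarith

theorem cell_mono {a0 ℓ a a' : ℝ} (hℓ : 0 < ℓ) (h : a' ≤ a) : cell a0 ℓ a' ≤ cell a0 ℓ a := by
  unfold cell
  apply Int.floor_le_floor
  rw [div_le_div_iff_of_pos_right hℓ]
  linarith

open Classical in
/-- the number of nonempty cells can be prescribed up to a factor two -/
theorem exists_scale (A : Finset ℝ) (a0 : ℝ) (hA : ∀ a ∈ A, a0 ≤ a) (t : ℕ) (ht : 1 ≤ t)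
    (htA : t ≤ A.card) :
    ∃ ℓ : ℝ, 0 < ℓ ∧ t ≤ (A.image (cell a0 ℓ)).card ∧ (A.image (cell a0 ℓ)).card ≤ 2 * t - 1 := by
  obtain ⟨L, hL⟩ : ∃ L : ℝ, ∀ a ∈ A, a - a0 < L := by
    obtain ⟨L, hL⟩ := (A.image fun a => a - a0).bddAbove
    refine ⟨L + 1, fun a ha => ?_⟩
    have : a - a0 ≤ L := hL (Finset.mem_coe.2 (Finset.mem_image_of_mem (fun a => a - a0) ha))
    linarith
  have hne : A.Nonempty := Finset.card_pos.1 (by omega)
  have hLpos : 0 < L := by
    obtain ⟨a, ha⟩ := hne
    have := hL a ha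
    have := hA a ha
    linarith
  set N : ℕ → ℕ := fun i => (A.image (cell a0 (L / 2 ^ i))).card with hN
  have h0 : N 0 = 1 := by
    have : A.image (cell a0 (L / 2 ^ 0)) = {0} := by
      ext j
      rw [Finset.mem_image, Finset.mem_singleton]
      have key : ∀ a ∈ A, cell a0 (L / 2 ^ 0) a = 0 := by
        intro a ha
        unfold cell
        rw [pow_zero, div_one, Int.floor_eq_zero_iff]
        refine ⟨div_nonneg (by linarith [hA a ha]) hLpos.le, ?_⟩
        rw [div_lt_one hLpos]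
        exact hL a ha
      constructor
      · rintro ⟨a, ha, rfl⟩; exact key a ha
      · rintro rfl
        obtain ⟨a, ha⟩ := hne
        exact ⟨a, ha, key a ha⟩
    simp only [hN, this, Finset.card_singleton]
  have hstep : ∀ i, N (i + 1) ≤ 2 * N i := by
    intro i
    have hhalf : ∀ a : ℝ, cell a0 (L / 2 ^ i) a = cell a0 (L / 2 ^ (i + 1)) a / 2 := by
      intro a
      unfold cell
      have e1 : (a - a0) / (L / 2 ^ (i + 1)) = 2 * ((a - a0) / (L / 2 ^ i)) := by
        rw [pow_succ]; field_simp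
      rw [e1]
      have := Int.floor_div_natCast (2 * ((a - a0) / (L / 2 ^ i))) 2
      have e2 : 2 * ((a - a0) / (L / 2 ^ i)) / ((2 : ℕ) : ℝ) = (a - a0) / (L / 2 ^ i) := by
        push_cast
        ring
      rw [e2] at this
      exact_mod_cast this
    have himg : (A.image (cell a0 (L / 2 ^ (i + 1)))).image (fun j => j / 2) =
        A.image (cell a0 (L / 2 ^ i)) := by
      rw [Finset.image_image]
      refine Finset.image_congr fun a _ => ?_
      simp only [Function.comp]
      exact (hhalf a).symm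
    have := Finset.card_le_mul_card_image (f := fun j : ℤ => j / 2)
      (A.image (cell a0 (L / 2 ^ (i + 1)))) 2 (by
        intro b _
        have hsub : (A.image (cell a0 (L / 2 ^ (i + 1)))).filter (fun j => j / 2 = b) ⊆
            ({2 * b, 2 * b + 1} : Finset ℤ) := by
          intro j hj
          rw [Finset.mem_filter] at hj
          rw [Finset.mem_insert, Finset.mem_singleton]
          omega
        exact (Finset.card_le_card hsub).trans Finset.card_le_two)
    rw [himg] at this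
    exact this
  have hlim : ∃ i, t ≤ N i := by
    obtain ⟨g, hg0, hg⟩ : ∃ g : ℝ, 0 < g ∧ ∀ a ∈ A, ∀ a' ∈ A, a' < a → g ≤ a - a' := by
      have h : ∀ᶠ g in 𝓝[>] (0 : ℝ), ∀ a ∈ A, ∀ a' ∈ A, a' < a → g ≤ a - a' := by
        rw [Finset.eventually_all]; intro a _
        rw [Finset.eventually_all]; intro a' _
        by_cases haa : a' < a
        · have h2 : ∀ᶠ g in 𝓝 (0 : ℝ), g < a - a' := gt_mem_nhds (by linarith)
          filter_upwards [nhdsWithin_le_nhds h2] with g hg _
          exact hg.le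
        · exact Eventually.of_forall fun g h => absurd h haa
      obtain ⟨g, hg, hg0⟩ := (h.and self_mem_nhdsWithin).exists
      exact ⟨g, hg0, hg⟩
    obtain ⟨i, hi⟩ := exists_nat_gt (L / g)
    refine ⟨i, ?_⟩
    have hℓ : L / 2 ^ i < g := by
      have h1 : (i : ℝ) < 2 ^ i := by exact_mod_cast Nat.lt_two_pow_self
      have h2 : L / g < 2 ^ i := hi.trans h1
      rw [div_lt_iff₀ hg0] at h2
      rw [div_lt_iff₀ (by positivity)]
      linarith
    have hinj : Set.InjOn (cell a0 (L / 2 ^ i)) (A : Set ℝ) := by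
      intro a ha a' ha' h
      have hpos : 0 < L / 2 ^ i := by positivity
      rcases lt_trichotomy a a' with h1 | h1 | h1
      · have h2 := cell_lt hpos h.symm
        have h3 := hg a' ha' a ha h1
        linarith
      · exact h1
      · have h2 := cell_lt hpos h
        have h3 := hg a ha a' ha' h1
        linarith
    simp only [hN]
    rw [Finset.card_image_of_injOn hinj]
    exact htA
  refine ⟨L / 2 ^ (Nat.find hlim), by positivity, Nat.find_spec hlim, ?_⟩
  rcases Nat.eq_zero_or_pos (Nat.find hlim) with h1 | h1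
  · have h2 : (A.image (cell a0 (L / 2 ^ (Nat.find hlim)))).card = N 0 := by rw [h1]
    rw [h2, h0]; omega
  · have h2 := Nat.find_min hlim (m := Nat.find hlim - 1) (by omega)
    have h3 := hstep (Nat.find hlim - 1)
    have h4 : Nat.find hlim - 1 + 1 = Nat.find hlim := by omega
    rw [h4] at h3
    have h5 : (A.image (cell a0 (L / 2 ^ (Nat.find hlim)))).card = N (Nat.find hlim) := rfl
    rw [h5]
    omega

open Classical in
/-- differences inside cells -/
noncomputable def short (Γ : Finset (ℝ × ℝ)) (a0 ℓ : ℝ) : Finset (ℝ × ℝ) :=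
  ((Γ ×ˢ Γ).filter fun q => cell a0 ℓ q.1.1 = cell a0 ℓ q.2.1 ∧ q.2.1 < q.1.1).image
    fun q => q.1 - q.2

theorem mem_short {Γ : Finset (ℝ × ℝ)} {a0 ℓ : ℝ} {v : ℝ × ℝ} : v ∈ short Γ a0 ℓ ↔
    ∃ z ∈ Γ, ∃ z' ∈ Γ, cell a0 ℓ z.1 = cell a0 ℓ z'.1 ∧ z'.1 < z.1 ∧ z - z' = v := by
  classical
  unfold short
  rw [Finset.mem_image]
  constructor
  · rintro ⟨⟨z, z'⟩, hq, h⟩
    rw [Finset.mem_filter, Finset.mem_product] at hq
    exact ⟨z, hq.1.1, z', hq.1.2, hq.2.1, hq.2.2, h⟩
  · rintro ⟨z, hz, z', hz', h1, h2, h3⟩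
    exact ⟨(z, z'), by rw [Finset.mem_filter, Finset.mem_product]; exact ⟨⟨hz, hz'⟩, h1, h2⟩, h3⟩

open Classical in
/-- few short differences -/
theorem short_card (Γ : Finset (ℝ × ℝ)) (a0 ℓ : ℝ) (hℓ : 0 < ℓ) :
    (Γ.image fun z => cell a0 ℓ z.1).card * (short Γ a0 ℓ).card ≤ 2 * (Γ + Γ - Γ).card := by
  set J := Γ.image fun z => cell a0 ℓ z.1 with hJ
  have hrep : ∀ j ∈ J, ∃ z ∈ Γ, cell a0 ℓ z.1 = j := by
    intro j hj
    obtain ⟨z, hz, h⟩ := Finset.mem_image.1 hj
    exact ⟨z, hz, h⟩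
  choose! rep hrep1 hrep2 using hrep
  rw [← Finset.card_product]
  refine Finset.card_le_mul_card_image_of_maps_to
    (f := fun q : ℤ × (ℝ × ℝ) => rep q.1 + q.2) ?_ 2 ?_
  · rintro ⟨j, v⟩ hq
    rw [Finset.mem_product] at hq
    obtain ⟨z, hz, z', hz', -, -, h3⟩ := mem_short.1 hq.2
    simp only at h3 ⊢
    rw [← h3, ← add_sub_assoc]
    exact Finset.sub_mem_sub (Finset.add_mem_add (hrep1 j hq.1) hz) hz'
  · intro w _
    have hsub : Set.InjOn (fun q : ℤ × (ℝ × ℝ) => q.1)
        (((J ×ˢ short Γ a0 ℓ).filter fun q => rep q.1 + q.2 = w : Finset _) :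
          Set (ℤ × (ℝ × ℝ))) := by
      rintro ⟨j, v⟩ h1 ⟨j', v'⟩ h2 h
      rw [Finset.mem_coe, Finset.mem_filter] at h1 h2
      simp only at h h1 h2
      subst h
      have : v = v' := by
        have h3 := h1.2.trans h2.2.symm
        exact add_left_cancel h3
      rw [this]
    rw [← Finset.card_image_of_injOn hsub]
    have hsub2 : ((J ×ˢ short Γ a0 ℓ).filter fun q => rep q.1 + q.2 = w).image
        (fun q : ℤ × (ℝ × ℝ) => q.1) ⊆ ({cell a0 ℓ w.1, cell a0 ℓ w.1 - 1} : Finset ℤ) := by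
      intro j hj
      obtain ⟨⟨j', v⟩, hq, rfl⟩ := Finset.mem_image.1 hj
      rw [Finset.mem_filter, Finset.mem_product] at hq
      obtain ⟨⟨hj', hv⟩, hw⟩ := hq
      simp only at hj' hv hw ⊢
      obtain ⟨z, hz, z', hz', h1, h2, h3⟩ := mem_short.1 hv
      have h4 := cell_lt hℓ h1
      have hv1 : v.1 = z.1 - z'.1 := by rw [← h3]; rfl
      have hw1 : w.1 = (rep j').1 + v.1 := by rw [← hw]; rfl
      have hr := hrep2 j' hj'
      have c1 : j' ≤ cell a0 ℓ w.1 := by
        rw [← hr]; exact cell_mono hℓ (by linarith)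
      have c2 : cell a0 ℓ w.1 ≤ j' + 1 := by
        rw [← hr]
        have : cell a0 ℓ w.1 ≤ cell a0 ℓ ((rep j').1 + ℓ) := cell_mono hℓ (by linarith)
        refine this.trans (le_of_eq ?_)
        unfold cell
        rw [← Int.floor_add_one]
        congr 1
        field_simp
        ring
      rw [Finset.mem_insert, Finset.mem_singleton]
      omega
    exact (Finset.card_le_card hsub2).trans Finset.card_le_two

end Pool.Agent.ILV
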