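import Pool.Agent.ILV.Doubling

/-! Levels of sets of lines with small tripling: the bound. -/

namespace Pool.Agent.ILV
open Finset Filter Topology Pool.Agent.KL Pool.Agent.KLS
open scoped Pointwise

open Classical in
theorem psi_cells (Γ : Finset (ℝ × ℝ)) (k : ℕ) (hk : k < Γ.card) (a0 ℓ : ℝ) (hℓ : 0 < ℓ)
    (hmin : ∀ l ∈ Γ, a0 ≤ l.1) (hmin' : ∃ l ∈ Γ, l.1 = a0) :
    psi Γ k ≤ ((Γ.image fun z => cell a0 ℓ z.1).card - 1) * (2 * min (k + 1) (Γ.card - k) - 1)
      + (short Γ a0 ℓ).card := by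
  set M := min (k + 1) (Γ.card - k) with hM
  set C : Finset ℝ := (Γ ×ˢ Γ).image fun q : (ℝ × ℝ) × (ℝ × ℝ) =>
    (q.2.2 - q.1.2) / (q.1.1 - q.2.1) with hC
  have hCmem : ∀ l ∈ Γ, ∀ l' ∈ Γ, l ≠ l' → ∀ x, ev l x = ev l' x → x ∈ C := by
    intro l hl l' hl' hne x hx
    rw [hC, Finset.mem_image]
    exact ⟨(l, l'), by simp [hl, hl'], (eq_of_common hne hx).2.symm⟩
  obtain ⟨d, hd, hd0⟩ : ∃ d : ℝ, (∀ c ∈ C, ∀ c' ∈ C, c < c' → c + 2 * d < c') ∧ 0 < d := by
    have h : ∀ᶠ d in 𝓝[>] (0 : ℝ), ∀ c ∈ C, ∀ c' ∈ C, c < c' → c + 2 * d < c' := by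
      rw [Finset.eventually_all]; intro c _
      rw [Finset.eventually_all]; intro c' _
      by_cases hcc : c < c'
      · have h1 : ContinuousAt (fun d : ℝ => c + 2 * d) 0 := by fun_prop
        have h2 := h1.eventually_lt (continuousAt_const (y := c')) (by simpa using hcc)
        filter_upwards [nhdsWithin_le_nhds h2] with d hd _
        exact hd
      · exact Eventually.of_forall fun d h => absurd h hcc
    obtain ⟨d, hd, hd0⟩ := (h.and self_mem_nhdsWithin).exists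
    exact ⟨d, hd, hd0⟩
  set V : Finset (ℝ × ℝ) := (vertex_finite Γ k).toFinset with hV
  have hVmem : ∀ p, p ∈ V ↔ IsVertex Γ k p := by
    intro p; rw [hV, Set.Finite.mem_toFinset]; rfl
  have hpsi : psi Γ k = V.card := by
    unfold psi
    rw [Set.ncard_eq_toFinset_card _ (vertex_finite Γ k)]
  have hVC : ∀ p ∈ V, p.1 ∈ C := by
    intro p hp
    obtain ⟨l, hl, l', hl', hne, h1, h2, -⟩ := (hVmem p).1 hp
    exact hCmem l hl l' hl' hne _ (h1.trans h2.symm)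
  have hVlev : ∀ p ∈ V, p ∈ kLevel Γ k := by
    intro p hp
    obtain ⟨l, hl, l', hl', hne, h1, h2, δ, hδ, h3, -⟩ := (hVmem p).1 hp
    have := h3 p.1 ⟨by linarith, le_rfl⟩
    rw [h1] at this
    exact this
  have hsame : ∀ p ∈ V, ∀ q ∈ V, p.1 = q.1 → p = q := by
    intro p hp q hq h
    have h1 := hVlev p hp
    have h2 := hVlev q hq
    have e1 : p = (p.1, p.2) := rfl
    have e2 : q = (p.1, q.2) := by rw [h]
    rw [e1] at h1
    rw [e2] at h2
    have h3 := eq_of_mem h1 h2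
    exact Prod.ext h h3
  have hsep : ∀ p ∈ V, ∀ q ∈ V, p ≠ q → p.1 + 2 * d ≤ q.1 ∨ q.1 + 2 * d ≤ p.1 := by
    intro p hp q hq hne
    rcases lt_trichotomy p.1 q.1 with h | h | h
    · exact Or.inl (hd _ (hVC p hp) _ (hVC q hq) h).le
    · exact absurd (hsame p hp q hq h) hne
    · exact Or.inr (hd _ (hVC q hq) _ (hVC p hp) h).le
  have hgen : ∀ p ∈ V, ∀ x, p.1 - d < x → x < p.1 + d → x ≠ p.1 → Gen Γ x := by
    intro p hp x h1 h2 h3 l hl l' hl' h
    by_contra hne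
    have hx := hCmem l hl l' hl' hne x h
    rcases lt_or_gt_of_ne h3 with h4 | h4
    · have := hd _ hx _ (hVC p hp) h4; linarith
    · have := hd _ (hVC p hp) _ hx h4; linarith
  -- the classes
  let W : Set ℝ → (ℝ × ℝ → Prop) → Finset (ℝ × ℝ) := fun I Q =>
    (V.filter fun p => DrQ Γ I d (k + 1) Q p) ∪ (V.filter fun p => DrQ Γ I d k Q p)
  have hW : ∀ I Q, Up I Q → (W I Q).card ≤ 2 * M - 1 := by
    intro I Q hQ
    have h1 := class_cardQ (Γ := Γ) (d := d) (m := k + 1) hQ (by omega)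
      (V.filter fun p => DrQ Γ I d (k + 1) Q p)
      (fun p hp q hq => hsep p (Finset.mem_filter.1 hp).1 q (Finset.mem_filter.1 hq).1)
      (fun p hp => (Finset.mem_filter.1 hp).2)
    have h2 := class_cardQ (Γ := Γ) (d := d) (m := k) hQ (by omega)
      (V.filter fun p => DrQ Γ I d k Q p)
      (fun p hp q hq => hsep p (Finset.mem_filter.1 hp).1 q (Finset.mem_filter.1 hq).1)
      (fun p hp => (Finset.mem_filter.1 hp).2)
    have h3 := Finset.card_union_le (V.filter fun p => DrQ Γ I d (k + 1) Q p)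
      (V.filter fun p => DrQ Γ I d k Q p)
    simp only [W]
    omega
  let V0 : Finset (ℝ × ℝ) := V.filter fun p => ∃ v ∈ short Γ a0 ℓ, p.1 = -(v.2 / v.1)
  have hV0 : V0.card ≤ (short Γ a0 ℓ).card := by
    have h1 : Set.InjOn Prod.fst (V0 : Set (ℝ × ℝ)) := by
      intro p hp q hq h
      exact hsame p (Finset.mem_filter.1 hp).1 q (Finset.mem_filter.1 hq).1 h
    rw [← Finset.card_image_of_injOn h1]
    have h2 : V0.image Prod.fst ⊆ (short Γ a0 ℓ).image fun v : ℝ × ℝ => -(v.2 / v.1) := by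
      intro x hx
      obtain ⟨p, hp, rfl⟩ := Finset.mem_image.1 hx
      obtain ⟨v, hv, h⟩ := (Finset.mem_filter.1 hp).2
      exact Finset.mem_image.2 ⟨v, hv, h.symm⟩
    exact (Finset.card_le_card h2).trans Finset.card_image_le
  set J := Γ.image fun z => cell a0 ℓ z.1 with hJ
  have h0J : (0 : ℤ) ∈ J := by
    obtain ⟨l, hl, h⟩ := hmin'
    rw [hJ, Finset.mem_image]
    refine ⟨l, hl, ?_⟩
    unfold cell
    rw [h]
    simp
  let W1 : Finset (ℝ × ℝ) := (J.erase 0).biUnion fun j =>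
    W Set.univ (fun l => a0 + j * ℓ ≤ l.1)
  have hW1 : W1.card ≤ (J.card - 1) * (2 * M - 1) := by
    refine Finset.card_biUnion_le.trans ((Finset.sum_le_card_nsmul _ _ _
      fun j _ => hW _ _ (up_slope _)).trans ?_)
    rw [smul_eq_mul, Finset.card_erase_of_mem h0J]
  have hcover : V ⊆ V0 ∪ W1 := by
    intro p hp
    obtain ⟨l, hl, l', hl', hll, e1, e2, h⟩ := vertex_dataQ ((hVmem p).1 hp) hd0 (hgen p hp) hk
    rw [Finset.mem_union]
    by_cases c : cell a0 ℓ l.1 = cell a0 ℓ l'.1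
    · left
      rw [Finset.mem_filter]
      refine ⟨hp, l - l', mem_short.2 ⟨l, hl, l', hl', c, hll, rfl⟩, ?_⟩
      have e3 : l.1 * p.1 + l.2 = l'.1 * p.1 + l'.2 := e1.trans e2.symm
      have e4 : (l - l').1 = l.1 - l'.1 := rfl
      have e5 : (l - l').2 = l.2 - l'.2 := rfl
      have e6 : 0 < l.1 - l'.1 := by linarith
      rw [e4, e5, ← neg_div, eq_div_iff e6.ne']
      linarith
    · right
      have c1 : cell a0 ℓ l'.1 < cell a0 ℓ l.1 :=
        lt_of_le_of_ne (cell_mono hℓ hll.le) (Ne.symm c)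
      have c0 : 0 ≤ cell a0 ℓ l'.1 := by
        unfold cell
        rw [Int.floor_nonneg]
        exact div_nonneg (by linarith [hmin l' hl']) hℓ.le
      rw [Finset.mem_biUnion]
      refine ⟨cell a0 ℓ l.1, Finset.mem_erase.2 ⟨by omega, Finset.mem_image.2 ⟨l, hl, rfl⟩⟩, ?_⟩
      have t1 : a0 + (cell a0 ℓ l.1 : ℝ) * ℓ ≤ l.1 := by
        have := Int.floor_le ((l.1 - a0) / ℓ)
        rw [le_div_iff₀ hℓ] at this
        unfold cell
        linarith
      have t2 : l'.1 < a0 + (cell a0 ℓ l.1 : ℝ) * ℓ := by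
        have h3 := Int.lt_floor_add_one ((l'.1 - a0) / ℓ)
        have h4 : ((cell a0 ℓ l'.1 : ℤ) : ℝ) + 1 ≤ cell a0 ℓ l.1 := by exact_mod_cast c1
        have h5 : (l'.1 - a0) / ℓ < cell a0 ℓ l.1 := lt_of_lt_of_le h3 h4
        rw [div_lt_iff₀ hℓ] at h5
        linarith
      rw [Finset.mem_union, Finset.mem_filter, Finset.mem_filter]
      rcases h Set.univ (fun l'' => a0 + (cell a0 ℓ l.1 : ℝ) * ℓ ≤ l''.1) (up_slope _)
        (Set.subset_univ _) t1 (by rw [not_le]; exact t2) with h | h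
      · exact Or.inl ⟨hp, h⟩
      · exact Or.inr ⟨hp, h⟩
  rw [hpsi]
  have h1 := Finset.card_le_card hcover
  have h2 := Finset.card_union_le V0 W1
  omega

open Classical in
/-- the complexity of a level is controlled by the size of `Γ + Γ - Γ` -/
theorem psi_sq (Γ : Finset (ℝ × ℝ)) (k : ℕ) (hk : k < Γ.card) :
    psi Γ k ^ 2 ≤ 32 * ((Γ + Γ - Γ).card * min (k + 1) (Γ.card - k)) := by
  set M := min (k + 1) (Γ.card - k) with hM
  have hM1 : 1 ≤ M := by omega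
  set W := (Γ + Γ - Γ).card with hW
  have hΓ : Γ.Nonempty := Finset.card_pos.1 (by omega)
  have hW1 : 1 ≤ W := by
    rw [hW]
    exact Finset.card_pos.2 ((hΓ.add hΓ).sub hΓ)
  set A := Γ.image Prod.fst with hA
  have hAne : A.Nonempty := hΓ.image _
  set a0 := A.min' hAne with ha0
  have hmin : ∀ l ∈ Γ, a0 ≤ l.1 := fun l hl => A.min'_le _ (Finset.mem_image_of_mem _ hl)
  have hmin' : ∃ l ∈ Γ, l.1 = a0 := by
    obtain ⟨l, hl, h⟩ := Finset.mem_image.1 (A.min'_mem hAne)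
    exact ⟨l, hl, h⟩
  have hMR : (1 : ℝ) ≤ M := by exact_mod_cast hM1
  have hWR : (1 : ℝ) ≤ W := by exact_mod_cast hW1
  set τ : ℝ := Real.sqrt (W / (2 * M)) with hτ
  have hτ2 : τ ^ 2 = W / (2 * M) := Real.sq_sqrt (by positivity)
  have hτ0 : 0 < τ := Real.sqrt_pos.2 (by positivity)
  have hτM : τ ^ 2 * (2 * M) = W := by
    rw [hτ2]; field_simp
  have key : (psi Γ k : ℝ) ≤ 8 * (τ * M) → psi Γ k ^ 2 ≤ 32 * (W * M) := by
    intro h
    have h1 : (psi Γ k : ℝ) ^ 2 ≤ (8 * (τ * M)) ^ 2 := pow_le_pow_left₀ (Nat.cast_nonneg _) h 2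
    have h2 : (8 * (τ * M)) ^ 2 = 32 * (W * M) := by
      rw [← hτM]; ring
    rw [h2] at h1
    exact_mod_cast h1
  apply key
  by_cases c : (A.card : ℝ) ≤ τ
  · -- few slopes
    have h1 := psi_le_slopes Γ k hk
    rw [← hA] at h1
    have h2 : 2 * min k (Γ.card - 1 - k) + 1 ≤ 2 * M := by omega
    have h3 : psi Γ k ≤ A.card * (2 * M) := by
      calc psi Γ k ≤ (A.card - 1) * (2 * min k (Γ.card - 1 - k) + 1) := h1
        _ ≤ A.card * (2 * M) := Nat.mul_le_mul (Nat.sub_le _ _) h2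
    have h4 : (psi Γ k : ℝ) ≤ A.card * (2 * M) := by exact_mod_cast h3
    have h5 : (A.card : ℝ) * (2 * M) ≤ τ * (2 * M) := mul_le_mul_of_nonneg_right c (by positivity)
    have h6 : 0 < τ * M := by positivity
    linarith
  push Not at c
  set t := ⌈τ⌉₊ with ht
  have ht1 : 1 ≤ t := Nat.ceil_pos.2 hτ0
  have htτ : τ ≤ t := Nat.le_ceil τ
  have htA : t ≤ A.card := Nat.ceil_le.2 c.le
  have htu : ((t - 1 : ℕ) : ℝ) ≤ τ := by
    have := (Nat.ceil_lt_add_one hτ0.le).le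
    rw [Nat.cast_sub ht1]; push_cast
    rw [← ht] at this
    linarith
  obtain ⟨ℓ, hℓ, hN1, hN2⟩ := exists_scale A a0 (fun a ha => A.min'_le _ ha) t ht1 htA
  have himg : A.image (cell a0 ℓ) = Γ.image fun z => cell a0 ℓ z.1 := by
    rw [hA, Finset.image_image]
    rfl
  rw [himg] at hN1 hN2
  have h1 := psi_cells Γ k hk a0 ℓ hℓ hmin hmin'
  have h2 := short_card Γ a0 ℓ hℓ
  rw [← hW] at h2
  rw [← hM] at h1
  set N := (Γ.image fun z => cell a0 ℓ z.1).card with hN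
  set S := (short Γ a0 ℓ).card with hS
  have h3 : (N - 1) * (2 * M - 1) ≤ 2 * (t - 1) * (2 * M) := Nat.mul_le_mul (by omega) (by omega)
  have h4 : psi Γ k ≤ 2 * (t - 1) * (2 * M) + S := by omega
  have h5 : (psi Γ k : ℝ) ≤ 2 * ((t - 1 : ℕ) : ℝ) * (2 * M) + S := by exact_mod_cast h4
  have h6 : t * S ≤ 2 * W := (Nat.mul_le_mul_right _ hN1).trans h2
  have h7 : (t : ℝ) * S ≤ 2 * W := by exact_mod_cast h6
  have h8 : (S : ℝ) ≤ 4 * (τ * M) := by
    have e1 : τ * S ≤ 2 * W := (mul_le_mul_of_nonneg_right htτ (Nat.cast_nonneg _)).trans h7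
    have e2 : τ * S ≤ τ * (4 * (τ * M)) := by
      calc τ * S ≤ 2 * W := e1
        _ = τ * (4 * (τ * M)) := by rw [← hτM]; ring
    exact le_of_mul_le_mul_left e2 hτ0
  have h9 : 2 * ((t - 1 : ℕ) : ℝ) * (2 * M) ≤ 4 * (τ * M) := by
    have : ((t - 1 : ℕ) : ℝ) * M ≤ τ * M := mul_le_mul_of_nonneg_right htu (by positivity)
    linarith
  linarith

end Pool.Agent.ILV
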