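import Pool.Agent.KLS.Upper

/-! A local criterion for vertices of a level. -/

namespace Pool.Agent.ILV
open Finset Filter Topology Pool.Agent.KL Pool.Agent.KLS

theorem exists_rank {α : Type*} (S : Finset α) (f : α → ℝ) (hf : Set.InjOn f (S : Set α))
    (j : ℕ) (hj : j < S.card) : ∃ l ∈ S, (S.filter fun l' => f l' < f l).card = j := by
  classical
  have hmono : ∀ l ∈ S, ∀ l' ∈ S, f l < f l' →
      (S.filter fun l'' => f l'' < f l).card < (S.filter fun l'' => f l'' < f l').card := by
    intro l hl l' hl' h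
    refine Finset.card_lt_card ?_
    rw [Finset.ssubset_iff_of_subset]
    · exact ⟨l, by simp [hl, h], by simp⟩
    · intro l'' hl''
      rw [Finset.mem_filter] at hl'' ⊢
      exact ⟨hl''.1, hl''.2.trans h⟩
  have hinj : Set.InjOn (fun l => (S.filter fun l' => f l' < f l).card) (S : Set α) := by
    intro l hl l' hl' h
    simp only at h
    rcases lt_trichotomy (f l) (f l') with h1 | h1 | h1
    · have := hmono l hl l' hl' h1; omega
    · exact hf hl hl' h1
    · have := hmono l' hl' l hl h1; omega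
  have hlt : ∀ l ∈ S, (S.filter fun l' => f l' < f l).card < S.card := by
    intro l hl
    refine Finset.card_lt_card ?_
    rw [Finset.ssubset_iff_of_subset (Finset.filter_subset _ _)]
    exact ⟨l, hl, by simp⟩
  have himg : S.image (fun l => (S.filter fun l' => f l' < f l).card) = Finset.range S.card := by
    refine Finset.eq_of_subset_of_card_le ?_ ?_
    · intro j hj
      obtain ⟨l, hl, rfl⟩ := Finset.mem_image.1 hj
      exact Finset.mem_range.2 (hlt l hl)
    · rw [Finset.card_range, Finset.card_image_of_injOn hinj]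
  have h3 : j ∈ S.image (fun l => (S.filter fun l' => f l' < f l).card) := by
    rw [himg]; exact Finset.mem_range.2 hj
  obtain ⟨l, hl, h⟩ := Finset.mem_image.1 h3
  exact ⟨l, hl, h⟩

theorem good_vertex {Γ : Finset (ℝ × ℝ)} {k : ℕ} {x0 y0 : ℝ} (h1 : nlt Γ x0 y0 ≤ k)
    (h2 : k < nlt Γ x0 y0 + (Γ.filter fun l => ev l x0 = y0).card)
    (h3 : (Γ.filter fun l => ev l x0 = y0).card ≠ 2 * (k - nlt Γ x0 y0) + 1) :
    IsVertex Γ k (x0, y0) := by
  classical
  set r := nlt Γ x0 y0 with hr
  set G := Γ.filter fun l => ev l x0 = y0 with hG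
  have hmem : ∀ l, l ∈ G ↔ l ∈ Γ ∧ ev l x0 = y0 := by
    intro l; rw [hG, Finset.mem_filter]
  have hinj : Set.InjOn (fun l : ℝ × ℝ => l.1) (G : Set (ℝ × ℝ)) := by
    intro l hl l' hl' h
    simp only at h
    have e1 := ((hmem l).1 hl).2
    have e2 := ((hmem l').1 hl').2
    unfold ev at e1 e2
    refine Prod.ext h ?_
    rw [h] at e1
    linarith
  have hinj' : Set.InjOn (fun l : ℝ × ℝ => -l.1) (G : Set (ℝ × ℝ)) := by
    intro l hl l' hl' h
    simp only [neg_inj] at h
    exact hinj hl hl' h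
  obtain ⟨lL, hlL, hL⟩ := exists_rank G (fun l => -l.1) hinj' (k - r) (by omega)
  obtain ⟨lR, hlR, hR⟩ := exists_rank G (fun l => l.1) hinj (k - r) (by omega)
  have hL' : (G.filter fun l' => lL.1 < l'.1).card = k - r := by
    rw [← hL]
    congr 1
    refine Finset.filter_congr fun l' _ => ?_
    simp
  have hne : lL ≠ lR := by
    intro h
    apply h3
    rw [← h] at hR
    have e1 : G = insert lL ((G.filter fun l' => lL.1 < l'.1) ∪ (G.filter fun l' => l'.1 < lL.1)) := by
      ext l
      rw [Finset.mem_insert, Finset.mem_union]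
      constructor
      · intro hl
        rcases lt_trichotomy l.1 lL.1 with h4 | h4 | h4
        · exact Or.inr (Or.inr (Finset.mem_filter.2 ⟨hl, h4⟩))
        · exact Or.inl (hinj hl hlL h4)
        · exact Or.inr (Or.inl (Finset.mem_filter.2 ⟨hl, h4⟩))
      · rintro (h4 | h4 | h4)
        · rw [h4]; exact hlL
        · exact (Finset.mem_filter.1 h4).1
        · exact (Finset.mem_filter.1 h4).1
    have e2 : Disjoint (G.filter fun l' => lL.1 < l'.1) (G.filter fun l' => l'.1 < lL.1) := by
      rw [Finset.disjoint_left]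
      intro l hl hl'
      have := (Finset.mem_filter.1 hl).2
      have := (Finset.mem_filter.1 hl').2
      linarith
    have e3 : lL ∉ (G.filter fun l' => lL.1 < l'.1) ∪ (G.filter fun l' => l'.1 < lL.1) := by
      rw [Finset.mem_union]
      rintro (h4 | h4)
      · exact lt_irrefl _ (Finset.mem_filter.1 h4).2
      · exact lt_irrefl _ (Finset.mem_filter.1 h4).2
    rw [e1, Finset.card_insert_of_notMem e3, Finset.card_union_of_disjoint e2, hL', hR]
    omega
  have hev : ∀ᶠ x in 𝓝 x0, ∀ l' ∈ Γ, ∀ l ∈ Γ, ev l x0 = y0 → ev l' x0 ≠ y0 →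
      (ev l' x < ev l x ↔ ev l' x0 < y0) := by
    rw [Finset.eventually_all]; intro l' _
    rw [Finset.eventually_all]; intro l _
    by_cases e1 : ev l x0 = y0
    swap
    · exact Eventually.of_forall fun x h => absurd h e1
    by_cases e2 : ev l' x0 = y0
    · exact Eventually.of_forall fun x _ h => absurd e2 h
    rcases lt_or_gt_of_ne e2 with h | h
    · have h3 : ∀ᶠ x in 𝓝 x0, ev l' x < ev l x :=
        (ev_cont l').continuousAt.eventually_lt (ev_cont l).continuousAt (by rw [e1]; exact h)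
      filter_upwards [h3] with x hx _ _
      exact ⟨fun _ => h, fun _ => hx⟩
    · have h3 : ∀ᶠ x in 𝓝 x0, ev l x < ev l' x :=
        (ev_cont l).continuousAt.eventually_lt (ev_cont l').continuousAt (by rw [e1]; exact h)
      filter_upwards [h3] with x hx _ _
      exact ⟨fun h4 => absurd h4 (not_lt.2 hx.le), fun h4 => absurd h4 (not_lt.2 h.le)⟩
  obtain ⟨δ, hδ, hball⟩ := Metric.eventually_nhds_iff_ball.1 hev
  have hball' : ∀ x, |x - x0| < δ → ∀ l' ∈ Γ, ∀ l ∈ Γ, ev l x0 = y0 → ev l' x0 ≠ y0 →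
      (ev l' x < ev l x ↔ ev l' x0 < y0) := by
    intro x hx
    exact hball x (by rw [Metric.mem_ball, Real.dist_eq]; exact hx)
  have hdiff : ∀ l ∈ G, ∀ l' ∈ G, ∀ x, ev l' x - ev l x = (l'.1 - l.1) * (x - x0) := by
    intro l hl l' hl' x
    have e1 := ((hmem l).1 hl).2
    have e2 := ((hmem l').1 hl').2
    unfold ev at *
    have e3 := e1.trans e2.symm
    linarith
  have lev : ∀ l ∈ G, ∀ x, |x - x0| < δ → level Γ (x, ev l x) =
      r + (G.filter fun l' => ev l' x < ev l x).card := by
    intro l hl x hx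
    have e1 : (Γ.filter fun l' => ev l' x < ev l x) =
        (Γ.filter fun l' => ev l' x0 < y0) ∪ (G.filter fun l' => ev l' x < ev l x) := by
      ext l'
      rw [Finset.mem_union, Finset.mem_filter, Finset.mem_filter, Finset.mem_filter, hmem]
      have e2 := (hmem l).1 hl
      constructor
      · rintro ⟨h4, h5⟩
        by_cases h6 : ev l' x0 = y0
        · exact Or.inr ⟨⟨h4, h6⟩, h5⟩
        · exact Or.inl ⟨h4, (hball' x hx l' h4 l e2.1 e2.2 h6).1 h5⟩
      · rintro (⟨h4, h5⟩ | ⟨⟨h4, h5⟩, h6⟩)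
        · exact ⟨h4, (hball' x hx l' h4 l e2.1 e2.2 h5.ne).2 h5⟩
        · exact ⟨h4, h6⟩
    have e2 : Disjoint (Γ.filter fun l' => ev l' x0 < y0) (G.filter fun l' => ev l' x < ev l x) := by
      rw [Finset.disjoint_left]
      intro l' h4 h5
      have h6 := (Finset.mem_filter.1 h4).2
      have h7 := ((hmem l').1 (Finset.mem_filter.1 h5).1).2
      linarith
    unfold level
    simp only
    rw [e1, Finset.card_union_of_disjoint e2]
    rfl
  have left : ∀ x ∈ Set.Ioo (x0 - δ / 2) x0, level Γ (x, ev lL x) = k := by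
    intro x hx
    have hx' : |x - x0| < δ := by
      rw [abs_lt]; constructor <;> linarith [hx.1, hx.2]
    rw [lev lL hlL x hx']
    have : (G.filter fun l' => ev l' x < ev lL x) = (G.filter fun l' => lL.1 < l'.1) := by
      refine Finset.filter_congr fun l' hl' => ?_
      have e1 := hdiff lL hlL l' hl' x
      have e2 : x - x0 < 0 := by linarith [hx.2]
      constructor
      · intro h
        by_contra hc
        push Not at hc
        have : 0 ≤ (l'.1 - lL.1) * (x - x0) :=
          mul_nonneg_of_nonpos_of_nonpos (by linarith) e2.le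
        linarith
      · intro h
        have : (l'.1 - lL.1) * (x - x0) < 0 := mul_neg_of_pos_of_neg (by linarith) e2
        linarith
    rw [this, hL']
    omega
  have right : ∀ x ∈ Set.Ioo x0 (x0 + δ / 2), level Γ (x, ev lR x) = k := by
    intro x hx
    have hx' : |x - x0| < δ := by
      rw [abs_lt]; constructor <;> linarith [hx.1, hx.2]
    rw [lev lR hlR x hx']
    have : (G.filter fun l' => ev l' x < ev lR x) = (G.filter fun l' => l'.1 < lR.1) := by
      refine Finset.filter_congr fun l' hl' => ?_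
      have e1 := hdiff lR hlR l' hl' x
      have e2 : 0 < x - x0 := by linarith [hx.1]
      constructor
      · intro h
        by_contra hc
        push Not at hc
        have : 0 ≤ (l'.1 - lR.1) * (x - x0) := mul_nonneg (by linarith) e2.le
        linarith
      · intro h
        have : (l'.1 - lR.1) * (x - x0) < 0 := mul_neg_of_neg_of_pos (by linarith) e2
        linarith
    rw [this, hR]
    omega
  refine ⟨lL, ((hmem _).1 hlL).1, lR, ((hmem _).1 hlR).1, hne, ((hmem _).1 hlL).2,
    ((hmem _).1 hlR).2, δ / 2, by positivity, ?_, ?_⟩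
  · exact side_mem ((hmem _).1 hlL).1 (by linarith) left
  · exact side_mem ((hmem _).1 hlR).1 (by linarith) right

/-- the local criterion at the abscissa `x` -/
def Good (Γ : Finset (ℝ × ℝ)) (k : ℕ) (x : ℝ) : Prop :=
  ∃ y, nlt Γ x y ≤ k ∧ k < nlt Γ x y + (Γ.filter fun l => ev l x = y).card ∧
    (Γ.filter fun l => ev l x = y).card ≠ 2 * (k - nlt Γ x y) + 1

/-- the line of rank `k` at `x` passes through a point on at least two lines -/
def Multi (Γ : Finset (ℝ × ℝ)) (k : ℕ) (x : ℝ) : Prop :=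
  ∃ y, nlt Γ x y ≤ k ∧ k < nlt Γ x y + (Γ.filter fun l => ev l x = y).card ∧
    2 ≤ (Γ.filter fun l => ev l x = y).card

theorem multi_good {Γ : Finset (ℝ × ℝ)} {k : ℕ} {x : ℝ} (h : Multi Γ k x) :
    Good Γ k x ∨ (1 ≤ k ∧ Good Γ (k - 1) x) := by
  obtain ⟨y, h1, h2, h3⟩ := h
  by_cases h4 : (Γ.filter fun l => ev l x = y).card = 2 * (k - nlt Γ x y) + 1
  · right
    refine ⟨by omega, y, ?_, ?_, ?_⟩ <;> omega
  · exact Or.inl ⟨y, h1, h2, h4⟩

theorem good_add {Γ Λ : Finset (ℝ × ℝ)} {k : ℕ} {x : ℝ} (h : Good Γ k x)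
    (hlow : ∀ l' ∈ Λ, ∀ l ∈ Γ, ev l' x < ev l x) : Good (Λ ∪ Γ) (k + Λ.card) x := by
  classical
  obtain ⟨y, h1, h2, h3⟩ := h
  have hdisj : Disjoint Λ Γ := by
    rw [Finset.disjoint_left]
    intro l hl hl'
    exact lt_irrefl _ (hlow l hl l hl')
  obtain ⟨l0, hl0⟩ : (Γ.filter fun l => ev l x = y).Nonempty := by
    rw [← Finset.card_pos]; omega
  rw [Finset.mem_filter] at hl0
  have hlow' : ∀ l' ∈ Λ, ev l' x < y := fun l' hl' => by
    have := hlow l' hl' l0 hl0.1
    rw [hl0.2] at this
    exact this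
  have e1 : nlt (Λ ∪ Γ) x y = Λ.card + nlt Γ x y := by
    unfold nlt
    rw [Finset.filter_union, Finset.card_union_of_disjoint
      (Finset.disjoint_filter_filter hdisj), Finset.filter_true_of_mem hlow']
  have e2 : ((Λ ∪ Γ).filter fun l => ev l x = y) = Γ.filter fun l => ev l x = y := by
    rw [Finset.filter_union, Finset.filter_false_of_mem (fun l hl => (hlow' l hl).ne),
      Finset.empty_union]
  refine ⟨y, ?_, ?_, ?_⟩
  · rw [e1]; omega
  · rw [e1, e2]; omega
  · rw [e1, e2]; omega

theorem card_le_psi {Γ : Finset (ℝ × ℝ)} {k : ℕ} (X : Finset ℝ) (hX : ∀ x ∈ X, Good Γ k x) :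
    X.card ≤ psi Γ k := by
  classical
  choose! y h1 h2 h3 using hX
  unfold psi
  have h4 : ((X.image fun x => (x, y x) : Finset (ℝ × ℝ)) : Set (ℝ × ℝ)) ⊆
      {p | IsVertex Γ k p} := by
    intro p hp
    rw [Finset.mem_coe, Finset.mem_image] at hp
    obtain ⟨x, hx, rfl⟩ := hp
    exact good_vertex (h1 x hx) (h2 x hx) (h3 x hx)
  have h5 := Set.ncard_le_ncard h4 (vertex_finite Γ k)
  rw [Set.ncard_coe_finset, Finset.card_image_of_injective] at h5
  · exact h5
  · intro x x' h
    exact congrArg Prod.fst h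

/-- if the lines of rank `k` are multiple at the abscissae in `X`, then half of them are
vertices after adding suitably many low lines -/
theorem exists_psi {Γ Λ : Finset (ℝ × ℝ)} {k w : ℕ} (X : Finset ℝ) (hX : ∀ x ∈ X, Multi Γ k x)
    (hlow : ∀ x ∈ X, ∀ l' ∈ Λ, ∀ l ∈ Γ, ev l' x < ev l x) (hw : w + 1 ≤ Λ.card) :
    ∃ Λ' ⊆ Λ, w ≤ Λ'.card ∧ X.card ≤ 2 * psi (Λ' ∪ Γ) (k + w) := by
  classical
  set X1 := X.filter fun x => Good Γ k x with hX1
  set X2 := X.filter fun x => ¬ Good Γ k x with hX2
  have h1 : X1.card + X2.card = X.card := Finset.card_filter_add_card_filter_not _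
  by_cases h2 : X2.card ≤ X1.card
  · obtain ⟨Λ', hΛ', hc⟩ := Finset.exists_subset_card_eq (show w ≤ Λ.card by omega)
    refine ⟨Λ', hΛ', by omega, ?_⟩
    have h3 : X1.card ≤ psi (Λ' ∪ Γ) (k + w) := by
      refine card_le_psi X1 fun x hx => ?_
      rw [hX1, Finset.mem_filter] at hx
      have := good_add hx.2 (fun l' hl' l hl => hlow x hx.1 l' (hΛ' hl') l hl)
      rw [hc] at this
      exact this
    omega
  · obtain ⟨Λ', hΛ', hc⟩ := Finset.exists_subset_card_eq hw
    refine ⟨Λ', hΛ', by omega, ?_⟩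
    have h3 : X2.card ≤ psi (Λ' ∪ Γ) (k + w) := by
      refine card_le_psi X2 fun x hx => ?_
      rw [hX2, Finset.mem_filter] at hx
      rcases multi_good (hX x hx.1) with h4 | ⟨h4, h5⟩
      · exact absurd h4 hx.2
      have := good_add h5 (fun l' hl' l hl => hlow x hx.1 l' (hΛ' hl') l hl)
      rw [hc] at this
      have e : k - 1 + (w + 1) = k + w := by omega
      rw [e] at this
      exact this
    omega

end Pool.Agent.ILV
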