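import Mathlib

/-! Choice of the parameters. -/

namespace Pool.Agent.ILV

/-- the conditions needed of the parameters -/
structure Cond (h m k A B : ℕ) : Prop where
  c0 : 1 ≤ h
  c0' : 1 ≤ m
  c1 : 8 * h * B ≤ m * A
  c2 : 2 * A ≤ h
  c3 : m * A ^ 3 + 2 * h ^ 2 ≤ k * h ^ 2
  c4 : k < (h / 2) * (3 * m / 32)

theorem exists_cube (N M : ℕ) (hN : 1 ≤ N) (h : N ≤ M) :
    ∃ A, 1 ≤ A ∧ N * A ^ 3 ≤ M ∧ M < N * (A + 1) ^ 3 := by
  classical
  have hex : ∃ n, M < N * (n + 1) ^ 3 := by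
    refine ⟨M, ?_⟩
    calc M < M + 1 := Nat.lt_succ_self M
      _ = 1 * (M + 1) ^ 1 := by ring
      _ ≤ N * (M + 1) ^ 3 := Nat.mul_le_mul hN (Nat.pow_le_pow_right (by omega) (by norm_num))
  refine ⟨Nat.find hex, ?_, ?_, Nat.find_spec hex⟩
  · by_contra hc
    have h0 : Nat.find hex = 0 := by omega
    have := Nat.find_spec hex
    rw [h0] at this
    simp at this
    omega
  · rcases Nat.eq_zero_or_pos (Nat.find hex) with h0 | h0
    · rw [h0]; simp
    · have := Nat.find_min hex (m := Nat.find hex - 1) (by omega)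
      push Not at this
      have e : Nat.find hex - 1 + 1 = Nat.find hex := by omega
      rw [e] at this
      exact this

theorem regimeI (h m j : ℕ) (hh : 4 ≤ h) (hm : 21 ≤ m) (hj : 4 ≤ j) (h1 : 128 * (j + 2) ≤ h * m)
    (h2 : m ≤ j * h ^ 2) (h3 : 4096 * h ≤ j * m ^ 2) :
    ∃ A B, Cond h m (j + 2) A B ∧ h * m * j ^ 2 ≤ 262144 * (A * B) ^ 3 := by
  obtain ⟨A, hA1, hA2, hA3⟩ := exists_cube m (j * h ^ 2) (by omega) h2
  have hA4 : j * h ^ 2 < 8 * (m * A ^ 3) := by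
    have e : (A + 1) ^ 3 ≤ (2 * A) ^ 3 := Nat.pow_le_pow_left (by omega) 3
    calc j * h ^ 2 < m * (A + 1) ^ 3 := hA3
      _ ≤ m * (2 * A) ^ 3 := Nat.mul_le_mul_left _ e
      _ = 8 * (m * A ^ 3) := by ring
  -- m * A > 8 h
  have hmA : 8 * h < m * A := by
    have e1 : (8 * h) ^ 3 < (m * A) ^ 3 := by
      have e2 : (4096 * h) * h ^ 2 ≤ (j * m ^ 2) * h ^ 2 := Nat.mul_le_mul_right _ h3
      have e3 : m ^ 2 * (j * h ^ 2) < m ^ 2 * (8 * (m * A ^ 3)) :=
        Nat.mul_lt_mul_of_pos_left hA4 (by positivity)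
      have e4 : (8 * h) ^ 3 * 8 = (4096 * h) * h ^ 2 := by ring
      have e5 : (m * A) ^ 3 * 8 = m ^ 2 * (8 * (m * A ^ 3)) := by ring
      have e6 : (j * m ^ 2) * h ^ 2 = m ^ 2 * (j * h ^ 2) := by ring
      omega
    exact lt_of_pow_lt_pow_left₀ 3 (Nat.zero_le _) e1
  set B := m * A / (8 * h) with hB
  have hB1 : 8 * h * B ≤ m * A := Nat.mul_div_le _ _
  have hB2 : m * A < 8 * h * (B + 1) := by
    have := Nat.lt_mul_div_succ (m * A) (show 0 < 8 * h by omega)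
    rw [← hB] at this
    exact this
  have hB3 : 1 ≤ B := by
    rw [hB]
    exact Nat.div_pos hmA.le (by omega)
  have hB4 : m * A < 16 * h * B := by
    calc m * A < 8 * h * (B + 1) := hB2
      _ ≤ 8 * h * (2 * B) := Nat.mul_le_mul_left _ (by omega)
      _ = 16 * h * B := by ring
  refine ⟨A, B, ⟨by omega, by omega, hB1, ?_, ?_, ?_⟩, ?_⟩
  · -- 2 A ≤ h
    by_contra hc
    push Not at hc
    have e1 : h ^ 3 ≤ (2 * A) ^ 3 := Nat.pow_le_pow_left hc.le 3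
    have e2 : m * h ^ 3 ≤ 8 * (j * h ^ 2) := by
      calc m * h ^ 3 ≤ m * (2 * A) ^ 3 := Nat.mul_le_mul_left _ e1
        _ = 8 * (m * A ^ 3) := by ring
        _ ≤ 8 * (j * h ^ 2) := Nat.mul_le_mul_left _ hA2
    have e3 : (h * m) * h ^ 2 ≤ (8 * j) * h ^ 2 := by
      calc (h * m) * h ^ 2 = m * h ^ 3 := by ring
        _ ≤ 8 * (j * h ^ 2) := e2
        _ = (8 * j) * h ^ 2 := by ring
    have e4 := Nat.le_of_mul_le_mul_right e3 (by positivity)
    omega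
  · -- c3
    have : (j + 2) * h ^ 2 = j * h ^ 2 + 2 * h ^ 2 := by ring
    omega
  · -- c4
    have e1 : 3 * h ≤ 8 * (h / 2) := by omega
    have e2 : 3 * m ≤ 64 * (3 * m / 32) := by omega
    have e3 : (3 * h) * (3 * m) ≤ (8 * (h / 2)) * (64 * (3 * m / 32)) := Nat.mul_le_mul e1 e2
    have e4 : (3 * h) * (3 * m) = 9 * (h * m) := by ring
    have e5 : (8 * (h / 2)) * (64 * (3 * m / 32)) = 512 * ((h / 2) * (3 * m / 32)) := by ring
    omega
  · -- the count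
    have e1 : (m * A ^ 2) ^ 3 ≤ (16 * h * (A * B)) ^ 3 := by
      refine Nat.pow_le_pow_left ?_ 3
      calc m * A ^ 2 = (m * A) * A := by ring
        _ ≤ (16 * h * B) * A := Nat.mul_le_mul_right _ hB4.le
        _ = 16 * h * (A * B) := by ring
    have e2 : (j * h ^ 2) ^ 2 ≤ (8 * (m * A ^ 3)) ^ 2 := Nat.pow_le_pow_left hA4.le 2
    have e3 : m * (j * h ^ 2) ^ 2 ≤ m * (8 * (m * A ^ 3)) ^ 2 := Nat.mul_le_mul_left _ e2
    have e4 : (h * m * j ^ 2) * h ^ 3 ≤ (262144 * (A * B) ^ 3) * h ^ 3 := by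
      calc (h * m * j ^ 2) * h ^ 3 = m * (j * h ^ 2) ^ 2 := by ring
        _ ≤ m * (8 * (m * A ^ 3)) ^ 2 := e3
        _ = 64 * (m * A ^ 2) ^ 3 := by ring
        _ ≤ 64 * (16 * h * (A * B)) ^ 3 := Nat.mul_le_mul_left _ e1
        _ = (262144 * (A * B) ^ 3) * h ^ 3 := by ring
    exact Nat.le_of_mul_le_mul_right e4 (by positivity)

/-- the order of magnitude -/
def ord (s m k : ℕ) : ℕ := min (min ((s * k) ^ 3) ((m * k) ^ 3)) (s * m * k ^ 2)

theorem params (h m k : ℕ) (hh : 128 ≤ h) (hm : 128 ≤ m) (hk : 6 ≤ k) (hkk : 128 * k ≤ h * m) :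
    ∃ h' m' A B, h' ≤ h ∧ m' ≤ m ∧ Cond h' m' k A B ∧ ord h m k ≤ 7247757312 * (A * B) ^ 3 := by
  obtain ⟨j, rfl⟩ : ∃ j, k = j + 2 := ⟨k - 2, by omega⟩
  have hj : 4 ≤ j := by omega
  have hjk : 2 * (j + 2) ≤ 3 * j := by omega
  unfold ord
  by_cases c1 : j * h ^ 2 < m
  · -- regime III
    have e1 : 128 * 128 ≤ h ^ 2 := by nlinarith
    have e2 : h ^ 2 ≤ j * h ^ 2 := Nat.le_mul_of_pos_left _ (by omega)
    obtain ⟨A, B, hc, ho⟩ := regimeI h (j * h ^ 2) j (by omega) (by omega) hj (by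
        calc 128 * (j + 2) ≤ 192 * j := by omega
          _ = 192 * 1 * j := by ring
          _ ≤ h ^ 2 * h * j := by gcongr <;> omega
          _ = h * (j * h ^ 2) := by ring) le_rfl (by
        calc 4096 * h ≤ h ^ 2 * h := by gcongr; omega
          _ = 1 * (h ^ 3 * 1) := by ring
          _ ≤ j ^ 3 * (h ^ 3 * h) := by
            gcongr
            · exact Nat.one_le_pow _ _ (by omega)
            · omega
          _ = j * (j * h ^ 2) ^ 2 := by ring)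
    refine ⟨h, j * h ^ 2, A, B, le_rfl, c1.le, hc, ?_⟩
    refine (min_le_left _ _).trans ((min_le_left _ _).trans ?_)
    have e3 : (h * (2 * (j + 2))) ^ 3 ≤ (h * (3 * j)) ^ 3 :=
      Nat.pow_le_pow_left (Nat.mul_le_mul_left _ hjk) 3
    have e4 : (h * (2 * (j + 2))) ^ 3 = 8 * (h * (j + 2)) ^ 3 := by ring
    have e5 : (h * (3 * j)) ^ 3 = 27 * (h * (j * h ^ 2) * j ^ 2) := by ring
    omega
  push Not at c1
  by_cases c2 : j * m ^ 2 < 4096 * h
  · -- regime II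
    have em2 : 128 * m ≤ m ^ 2 := by nlinarith
    have em3 : 4 * m ^ 2 ≤ j * m ^ 2 := Nat.mul_le_mul_right _ hj
    set h' := j * m ^ 2 / 4096 with hh'
    have f1 : 4096 * h' ≤ j * m ^ 2 := Nat.mul_div_le _ _
    have f2 : j * m ^ 2 < 4096 * (h' + 1) := by omega
    have f3 : h' ≤ h := by omega
    have f4 : 16 ≤ h' := by omega
    have f5 : j * m ^ 2 < 8192 * h' := by omega
    have f6 : m < 16 * h' := by omega
    obtain ⟨A, B, hc, ho⟩ := regimeI h' m j (by omega) (by omega) hj (by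
        have e1 : 128 ^ 2 ≤ m ^ 2 := Nat.pow_le_pow_left hm 2
        have g1 : 8192 * (256 * j) ≤ 8192 * (h' * m) := by
          calc 8192 * (256 * j) = j * (128 ^ 2 * 128) := by ring
            _ ≤ j * (m ^ 2 * m) := by gcongr
            _ = (j * m ^ 2) * m := by ring
            _ ≤ (8192 * h') * m := Nat.mul_le_mul_right _ f5.le
            _ = 8192 * (h' * m) := by ring
        have g2 := Nat.le_of_mul_le_mul_left g1 (by norm_num)
        omega) (by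
        calc m ≤ 16 * h' := f6.le
          _ ≤ h' * h' := Nat.mul_le_mul_right _ f4
          _ = 1 * h' ^ 2 := by ring
          _ ≤ j * h' ^ 2 := Nat.mul_le_mul_right _ (by omega)) f1
    refine ⟨h', m, A, B, f3, le_rfl, hc, ?_⟩
    refine (min_le_left _ _).trans ((min_le_right _ _).trans ?_)
    have e3 : (m * (2 * (j + 2))) ^ 3 ≤ (m * (3 * j)) ^ 3 :=
      Nat.pow_le_pow_left (Nat.mul_le_mul_left _ hjk) 3
    have e4 : (m * (2 * (j + 2))) ^ 3 = 8 * (m * (j + 2)) ^ 3 := by ring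
    have e5 : (m * (3 * j)) ^ 3 ≤ 27 * (8192 * (h' * m * j ^ 2)) := by
      calc (m * (3 * j)) ^ 3 = 27 * ((j * m ^ 2) * (m * j ^ 2)) := by ring
        _ ≤ 27 * ((8192 * h') * (m * j ^ 2)) := by gcongr
        _ = 27 * (8192 * (h' * m * j ^ 2)) := by ring
    omega
  push Not at c2
  obtain ⟨A, B, hc, ho⟩ := regimeI h m j (by omega) (by omega) hj hkk c1 c2
  refine ⟨h, m, A, B, le_rfl, le_rfl, hc, ?_⟩
  refine (min_le_right _ _).trans ?_
  have e3 : (2 * (j + 2)) ^ 2 ≤ (3 * j) ^ 2 := Nat.pow_le_pow_left hjk 2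
  have e4 : 4 * (h * m * (j + 2) ^ 2) ≤ 9 * (h * m * j ^ 2) := by
    calc 4 * (h * m * (j + 2) ^ 2) = h * m * (2 * (j + 2)) ^ 2 := by ring
      _ ≤ h * m * (3 * j) ^ 2 := Nat.mul_le_mul_left _ e3
      _ = 9 * (h * m * j ^ 2) := by ring
  omega

end Pool.Agent.ILV
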