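import Pool.Agent.ILV.Assemble
import Pool.Agent.ILV.Params

/-! Small levels: the convex lattice polygon with the edge directions of small height. -/

namespace Pool.Agent.ILV
open Finset

/-- sum of the vectors in `D` -/
def vec (D : Finset (ℕ × ℕ)) : ℤ × ℤ := (∑ y ∈ D, (y.1 : ℤ), ∑ y ∈ D, (y.2 : ℤ))

theorem val_vec (D : Finset (ℕ × ℕ)) (q p : ℤ) :
    q * (vec D).2 - p * (vec D).1 = ∑ y ∈ D, (q * y.2 - p * y.1) := by
  unfold vec
  rw [Finset.sum_sub_distrib, Finset.mul_sum, Finset.mul_sum]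

theorem poly (A B s1 m1 : ℕ) (hA : 1 ≤ A) (hB : 1 ≤ B) (h1 : A ^ 2 * B ≤ s1)
    (h2 : A * B ^ 2 ≤ m1) :
    ∃ R : Finset (ℤ × ℤ), 0 < R.card ∧
      (∀ z ∈ R, (0 ≤ z.1 + 0 ∧ z.1 + 0 ≤ (s1 : ℤ)) ∧ (0 ≤ z.2 ∧ z.2 ≤ (m1 : ℤ))) ∧
      ∀ z ∈ cop A B, ClassMulti R 0 z.1 z.2 := by
  classical
  set F := cop A B with hF
  let less : ℕ × ℕ → Finset (ℕ × ℕ) := fun z => F.filter fun y => y.2 * z.1 < z.2 * y.1
  let R : Finset (ℤ × ℤ) := F.image (fun z => vec (less z)) ∪
    F.image (fun z => vec (insert z (less z)))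
  have hless : ∀ z, less z ⊆ F := fun z => Finset.filter_subset _ _
  have hRD : ∀ v ∈ R, ∃ D ⊆ F, v = vec D := by
    intro v hv
    rcases Finset.mem_union.1 hv with h | h
    · obtain ⟨z, hz, rfl⟩ := Finset.mem_image.1 h
      exact ⟨_, hless z, rfl⟩
    · obtain ⟨z, hz, rfl⟩ := Finset.mem_image.1 h
      exact ⟨_, Finset.insert_subset hz (hless z), rfl⟩
  have hFcard : F.card ≤ A * B := by
    rw [hF]
    unfold cop
    refine (Finset.card_filter_le _ _).trans ?_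
    rw [Finset.card_product, Nat.card_Ioc, Nat.card_Ioc, Nat.sub_zero, Nat.sub_zero]
  have hmemF : ((1, 1) : ℕ × ℕ) ∈ F := by
    rw [hF, mem_cop]; exact ⟨⟨by norm_num, hA⟩, ⟨by norm_num, hB⟩, Nat.coprime_one_left 1⟩
  refine ⟨R, ?_, ?_, ?_⟩
  · rw [Finset.card_pos]
    exact ⟨_, Finset.mem_union_left _ (Finset.mem_image_of_mem _ hmemF)⟩
  · intro v hv
    obtain ⟨D, hD, rfl⟩ := hRD v hv
    have b1 : ∑ y ∈ D, (y.1 : ℤ) ≤ s1 := by
      have e1 : ∑ y ∈ D, y.1 ≤ ∑ y ∈ F, y.1 :=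
        Finset.sum_le_sum_of_subset_of_nonneg hD fun _ _ _ => Nat.zero_le _
      have e2 : ∑ y ∈ F, y.1 ≤ F.card • A :=
        Finset.sum_le_card_nsmul _ _ _ fun y hy => (mem_cop.1 hy).1.2
      have e3 : F.card • A ≤ A ^ 2 * B := by
        rw [smul_eq_mul]
        calc F.card * A ≤ (A * B) * A := Nat.mul_le_mul_right _ hFcard
          _ = A ^ 2 * B := by ring
      have : ∑ y ∈ D, y.1 ≤ s1 := by omega
      exact_mod_cast this
    have b2 : ∑ y ∈ D, (y.2 : ℤ) ≤ m1 := by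
      have e1 : ∑ y ∈ D, y.2 ≤ ∑ y ∈ F, y.2 :=
        Finset.sum_le_sum_of_subset_of_nonneg hD fun _ _ _ => Nat.zero_le _
      have e2 : ∑ y ∈ F, y.2 ≤ F.card • B :=
        Finset.sum_le_card_nsmul _ _ _ fun y hy => (mem_cop.1 hy).2.1.2
      have e3 : F.card • B ≤ A * B ^ 2 := by
        rw [smul_eq_mul]
        calc F.card * B ≤ (A * B) * B := Nat.mul_le_mul_right _ hFcard
          _ = A * B ^ 2 := by ring
      have : ∑ y ∈ D, y.2 ≤ m1 := by omega
      exact_mod_cast this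
    have b3 : 0 ≤ ∑ y ∈ D, (y.1 : ℤ) := Finset.sum_nonneg fun y _ => by positivity
    have b4 : 0 ≤ ∑ y ∈ D, (y.2 : ℤ) := Finset.sum_nonneg fun y _ => by positivity
    unfold vec
    simp only [add_zero]
    exact ⟨⟨b3, b1⟩, ⟨b4, b2⟩⟩
  · intro z hz
    have hz' := mem_cop.1 hz
    have hznl : z ∉ less z := by
      intro h
      have := (Finset.mem_filter.1 h).2
      exact lt_irrefl _ this
    set t : ℕ × ℕ → ℤ := fun y => (z.1 : ℤ) * y.2 - (z.2 : ℤ) * y.1 with ht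
    have hval : ∀ D, (z.1 : ℤ) * (vec D).2 - (z.2 : ℤ) * (vec D).1 = ∑ y ∈ D, t y :=
      fun D => val_vec D _ _
    have hneg : ∀ y ∈ F, y ∈ less z ↔ t y < 0 := by
      intro y hy
      simp only [less, ht, Finset.mem_filter]
      constructor
      · rintro ⟨-, h⟩
        have : ((y.2 * z.1 : ℕ) : ℤ) < ((z.2 * y.1 : ℕ) : ℤ) := by exact_mod_cast h
        push_cast at this
        linarith
      · intro h
        refine ⟨hy, ?_⟩
        have : ((y.2 * z.1 : ℕ) : ℤ) < ((z.2 * y.1 : ℕ) : ℤ) := by push_cast; linarith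
        exact_mod_cast this
    have hmin : ∀ D ⊆ F, ∑ y ∈ less z, t y ≤ ∑ y ∈ D, t y := by
      intro D hD
      have e1 : ∑ y ∈ less z, t y = ∑ y ∈ less z, min (t y) 0 := by
        refine Finset.sum_congr rfl fun y hy => ?_
        have := (hneg y (hless z hy)).1 hy
        rw [min_eq_left this.le]
      have e2 : ∑ y ∈ less z, min (t y) 0 = ∑ y ∈ F, min (t y) 0 := by
        refine Finset.sum_subset (hless z) fun y hy hy' => ?_
        have : ¬ t y < 0 := fun h => hy' ((hneg y hy).2 h)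
        push Not at this
        rw [min_eq_right this]
      have e3 : ∑ y ∈ F, min (t y) 0 ≤ ∑ y ∈ D, min (t y) 0 := by
        have : ∑ y ∈ D, -min (t y) 0 ≤ ∑ y ∈ F, -min (t y) 0 :=
          Finset.sum_le_sum_of_subset_of_nonneg hD fun y _ _ => by
            have := min_le_right (t y) 0
            linarith
        rw [Finset.sum_neg_distrib, Finset.sum_neg_distrib] at this
        linarith
      have e4 : ∑ y ∈ D, min (t y) 0 ≤ ∑ y ∈ D, t y :=
        Finset.sum_le_sum fun y _ => min_le_left _ _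
      linarith
    have htz : t z = 0 := by simp only [ht]; ring
    refine ⟨∑ y ∈ less z, t y, ?_, ?_, ?_⟩
    · rw [Nat.le_zero, Finset.card_eq_zero, Finset.filter_eq_empty_iff]
      intro v hv
      obtain ⟨D, hD, rfl⟩ := hRD v hv
      rw [hval, not_lt]
      exact hmin D hD
    all_goals
      have hsub : ({vec (less z), vec (insert z (less z))} : Finset (ℤ × ℤ)) ⊆
          R.filter fun v => (z.1 : ℤ) * v.2 - (z.2 : ℤ) * v.1 = ∑ y ∈ less z, t y := by
        intro v hv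
        rw [Finset.mem_insert, Finset.mem_singleton] at hv
        rw [Finset.mem_filter]
        rcases hv with rfl | rfl
        · exact ⟨Finset.mem_union_left _ (Finset.mem_image_of_mem (fun z => vec (less z)) hz), hval _⟩
        · refine ⟨Finset.mem_union_right _
            (Finset.mem_image_of_mem (fun z => vec (insert z (less z))) hz), ?_⟩
          rw [hval, Finset.sum_insert hznl, htz, zero_add]
      have h2 : 2 ≤ (R.filter fun v =>
          (z.1 : ℤ) * v.2 - (z.2 : ℤ) * v.1 = ∑ y ∈ less z, t y).card := by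
        refine le_trans ?_ (Finset.card_le_card hsub)
        rw [Finset.card_pair]
        intro h
        have h3 : (vec (less z)).1 = (vec (insert z (less z))).1 := congrArg Prod.fst h
        unfold vec at h3
        simp only at h3
        rw [Finset.sum_insert hznl] at h3
        have h4 : (0 : ℤ) < z.1 := by exact_mod_cast hz'.1.1
        linarith
      omega

theorem params_small (s m : ℕ) (hs : 1 ≤ s) (hm : 1 ≤ m) :
    ∃ A B, 1 ≤ A ∧ 1 ≤ B ∧ A ^ 2 * B ≤ s ∧ A * B ^ 2 ≤ m ∧ ord s m 1 ≤ 64 * (A * B) ^ 3 := by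
  unfold ord
  by_cases c1 : s ^ 2 ≤ m
  · refine ⟨1, s, le_rfl, hs, by simp, by simpa using c1, ?_⟩
    refine (min_le_left _ _).trans ((min_le_left _ _).trans ?_)
    simp only [mul_one, one_mul]
    omega
  by_cases c2 : m ^ 2 ≤ s
  · refine ⟨m, 1, hm, le_rfl, by simpa using c2, by simp, ?_⟩
    refine (min_le_left _ _).trans ((min_le_right _ _).trans ?_)
    simp only [mul_one]
    omega
  push Not at c1 c2
  obtain ⟨A, hA1, hA2, hA3⟩ := exists_cube m (s ^ 2) hm c1.le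
  obtain ⟨B, hB1, hB2, hB3⟩ := exists_cube s (m ^ 2) hs c2.le
  have hA4 : s ^ 2 < 8 * (m * A ^ 3) := by
    have e : (A + 1) ^ 3 ≤ (2 * A) ^ 3 := Nat.pow_le_pow_left (by omega) 3
    calc s ^ 2 < m * (A + 1) ^ 3 := hA3
      _ ≤ m * (2 * A) ^ 3 := Nat.mul_le_mul_left _ e
      _ = 8 * (m * A ^ 3) := by ring
  have hB4 : m ^ 2 < 8 * (s * B ^ 3) := by
    have e : (B + 1) ^ 3 ≤ (2 * B) ^ 3 := Nat.pow_le_pow_left (by omega) 3
    calc m ^ 2 < s * (B + 1) ^ 3 := hB3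
      _ ≤ s * (2 * B) ^ 3 := Nat.mul_le_mul_left _ e
      _ = 8 * (s * B ^ 3) := by ring
  refine ⟨A, B, hA1, hB1, ?_, ?_, ?_⟩
  · have e1 : (A ^ 2 * B) ^ 3 * (m ^ 2 * s) ≤ s ^ 3 * (m ^ 2 * s) := by
      calc (A ^ 2 * B) ^ 3 * (m ^ 2 * s) = (m * A ^ 3) ^ 2 * (s * B ^ 3) := by ring
        _ ≤ (s ^ 2) ^ 2 * (m ^ 2) := Nat.mul_le_mul (Nat.pow_le_pow_left hA2 2) hB2
        _ = s ^ 3 * (m ^ 2 * s) := by ring
    have e2 := Nat.le_of_mul_le_mul_right e1 (by positivity)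
    exact le_of_pow_le_pow_left₀ (by norm_num) (Nat.zero_le _) e2
  · have e1 : (A * B ^ 2) ^ 3 * (s ^ 2 * m) ≤ m ^ 3 * (s ^ 2 * m) := by
      calc (A * B ^ 2) ^ 3 * (s ^ 2 * m) = (m * A ^ 3) * (s * B ^ 3) ^ 2 := by ring
        _ ≤ (s ^ 2) * (m ^ 2) ^ 2 := Nat.mul_le_mul hA2 (Nat.pow_le_pow_left hB2 2)
        _ = m ^ 3 * (s ^ 2 * m) := by ring
    have e2 := Nat.le_of_mul_le_mul_right e1 (by positivity)
    exact le_of_pow_le_pow_left₀ (by norm_num) (Nat.zero_le _) e2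
  · refine (min_le_right _ _).trans ?_
    have e1 : (s * m * 1 ^ 2) * (s * m) ≤ (64 * (A * B) ^ 3) * (s * m) := by
      calc (s * m * 1 ^ 2) * (s * m) = s ^ 2 * m ^ 2 := by ring
        _ ≤ (8 * (m * A ^ 3)) * (8 * (s * B ^ 3)) := Nat.mul_le_mul hA4.le hB4.le
        _ = (64 * (A * B) ^ 3) * (s * m) := by ring
    exact Nat.le_of_mul_le_mul_right e1 (by positivity)

end Pool.Agent.ILV
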