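import Pool.Agent.ILV.Core
import Pool.Agent.ILV.Poly

/-! The lower bound. -/

namespace Pool.Agent.ILV
open Finset Filter Topology Pool.Agent.KL Pool.Agent.KLS

theorem ord_mono {s m k s' m' k' : ℕ} (hs : s ≤ s') (hm : m ≤ m') (hk : k ≤ k') :
    ord s m k ≤ ord s' m' k' := by
  unfold ord
  refine min_le_min (min_le_min ?_ ?_) ?_
  · exact Nat.pow_le_pow_left (Nat.mul_le_mul hs hk) 3
  · exact Nat.pow_le_pow_left (Nat.mul_le_mul hm hk) 3
  · exact Nat.mul_le_mul (Nat.mul_le_mul hs hm) (Nat.pow_le_pow_left hk 2)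

theorem ord_scale {a b s m k s' m' k' : ℕ} (ha : 1 ≤ a) (hb : 1 ≤ b) (hs : s ≤ a * s')
    (hm : m ≤ a * m') (hk : k ≤ b * k') : ord s m k ≤ (a * b) ^ 3 * ord s' m' k' := by
  refine (ord_mono hs hm hk).trans ?_
  have e1 : (a * s' * (b * k')) ^ 3 = (a * b) ^ 3 * (s' * k') ^ 3 := by ring
  have e2 : (a * m' * (b * k')) ^ 3 = (a * b) ^ 3 * (m' * k') ^ 3 := by ring
  have e3 : a * s' * (a * m') * (b * k') ^ 2 ≤ (a * b) ^ 3 * (s' * m' * k' ^ 2) := by
    calc a * s' * (a * m') * (b * k') ^ 2 = (a * b) ^ 2 * 1 * (s' * m' * k' ^ 2) := by ring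
      _ ≤ (a * b) ^ 2 * (a * b) * (s' * m' * k' ^ 2) := by
        gcongr; exact Nat.mul_pos ha hb
      _ = (a * b) ^ 3 * (s' * m' * k' ^ 2) := by ring
  unfold ord
  rw [e1, e2]
  rw [← Nat.mul_min_mul_left, ← Nat.mul_min_mul_left]
  exact min_le_min le_rfl e3

theorem avail (D s m h m1 : ℕ) (hD : 3 ≤ D) (h1 : D * (2 * h) ≤ s) (h2 : D * m1 ≤ m) :
    (D - 2) * (s * m) ≤ D * ((s - 2 * h) * (m - m1)) := by
  obtain ⟨E, rfl⟩ : ∃ E, D = E + 2 := ⟨D - 2, by omega⟩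
  have e1 : (E + 1) * s ≤ (E + 2) * (s - 2 * h) := by
    rw [Nat.mul_sub]
    have : (E + 2) * s = (E + 1) * s + s := by ring
    omega
  have e2 : (E + 1) * m ≤ (E + 2) * (m - m1) := by
    rw [Nat.mul_sub]
    have : (E + 2) * m = (E + 1) * m + m := by ring
    omega
  have e3 := Nat.mul_le_mul e1 e2
  have e4 : (E + 2 - 2) = E := by omega
  rw [e4]
  have e5 : (E + 2) * (E * (s * m)) ≤ (E + 2) * ((E + 2) * ((s - 2 * h) * (m - m1))) := by
    calc (E + 2) * (E * (s * m)) ≤ (E + 1) * s * ((E + 1) * m) := by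
          have : (E + 1) * s * ((E + 1) * m) = (E + 2) * (E * (s * m)) + s * m := by ring
          omega
      _ ≤ (E + 2) * (s - 2 * h) * ((E + 2) * (m - m1)) := e3
      _ = (E + 2) * ((E + 2) * ((s - 2 * h) * (m - m1))) := by ring
  exact Nat.le_of_mul_le_mul_left e5 (by omega)

theorem lower_big (D s m k : ℕ) (hD : 3 ≤ D) (hs : 256 * D ≤ s) (hm : 128 * D ≤ m) (hk : 6 ≤ k)
    (hkk : D * (k + 1) ≤ (D - 2) * (s * m)) :
    ∃ Γ : Finset (ℝ × ℝ), InBox s m Γ ∧ k < Γ.card ∧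
      ord s m k ≤ (3 * D * (2304 * D ^ 2)) ^ 3 * (7247757312 * 512) * psi Γ k ^ 3 := by
  classical
  set h := s / (2 * D) with hh
  set m1 := m / D with hm1
  have h128 : 128 ≤ h := by
    rw [hh, Nat.le_div_iff_mul_le (by omega)]
    omega
  have m128 : 128 ≤ m1 := by
    rw [hm1, Nat.le_div_iff_mul_le (by omega)]
    exact hm
  have hs1 : D * (2 * h) ≤ s := by
    have := Nat.mul_div_le s (2 * D)
    rw [← hh] at this
    calc D * (2 * h) = 2 * D * h := by ring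
      _ ≤ s := this
  have hm1' : D * m1 ≤ m := Nat.mul_div_le m D
  have hs2 : s ≤ 3 * D * h := by
    have h1 := Nat.lt_mul_div_succ s (show 0 < 2 * D by omega)
    rw [← hh] at h1
    have h2 : 2 * D * (h + 1) ≤ 3 * D * h := by
      have : 2 * D * 1 ≤ D * h := by
        calc 2 * D * 1 = D * 2 := by ring
          _ ≤ D * h := Nat.mul_le_mul_left _ (by omega)
      have e1 : 2 * D * (h + 1) = 2 * D * h + 2 * D * 1 := by ring
      have e2 : 3 * D * h = 2 * D * h + D * h := by ring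
      omega
    omega
  have hm2 : m ≤ 3 * D * m1 := by
    have h1 := Nat.lt_mul_div_succ m (show 0 < D by omega)
    rw [← hm1] at h1
    have h2 : D * (m1 + 1) ≤ 3 * D * m1 := by
      have : D * 1 ≤ D * m1 := Nat.mul_le_mul_left _ (by omega)
      have e1 : D * (m1 + 1) = D * m1 + D * 1 := by ring
      have e2 : 3 * D * m1 = D * m1 + D * m1 + D * m1 := by ring
      omega
    omega
  have hkle : k ≤ s * m := by
    have e1 : D * k ≤ D * (s * m) := by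
      calc D * k ≤ D * (k + 1) := Nat.mul_le_mul_left _ (by omega)
        _ ≤ (D - 2) * (s * m) := hkk
        _ ≤ D * (s * m) := Nat.mul_le_mul_right _ (by omega)
    exact Nat.le_of_mul_le_mul_left e1 (by omega)
  -- the reduced level
  obtain ⟨k0, hk0, hk1, hk2, hk3⟩ : ∃ k0, 6 ≤ k0 ∧ k0 ≤ k ∧ 128 * k0 ≤ h * m1 ∧
      k ≤ 2304 * D ^ 2 * k0 := by
    by_cases c : 128 * k ≤ h * m1
    · refine ⟨k, hk, le_rfl, c, Nat.le_mul_of_pos_left _ (by positivity)⟩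
    · push Not at c
      have e1 : 128 * 128 ≤ h * m1 := Nat.mul_le_mul h128 m128
      refine ⟨h * m1 / 128, by omega, by omega, by omega, ?_⟩
      have e4 : h * m1 ≤ 256 * (h * m1 / 128) := by omega
      calc k ≤ s * m := hkle
        _ ≤ (3 * D * h) * (3 * D * m1) := Nat.mul_le_mul hs2 hm2
        _ = 9 * D ^ 2 * (h * m1) := by ring
        _ ≤ 9 * D ^ 2 * (256 * (h * m1 / 128)) := Nat.mul_le_mul_left _ e4
        _ = 2304 * D ^ 2 * (h * m1 / 128) := by ring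
  obtain ⟨h', m', A, B, hh', hm', hc, ho⟩ := params h m1 k0 h128 m128 hk0 hk2
  obtain ⟨c0, c0', c1, c2, c3, c4⟩ := hc
  have key : ∀ z ∈ copL A B, ClassMulti (reg h' m') k0 z.1 z.2 := by
    intro z hz
    have hz1 := (Finset.mem_filter.1 hz).2
    have hz2 := mem_cop.1 (Finset.mem_filter.1 hz).1
    have q0 : (0 : ℤ) < (z.1 : ℤ) := by exact_mod_cast hz2.1.1
    have p0 : (0 : ℤ) < (z.2 : ℤ) := by exact_mod_cast hz2.2.1.1
    refine core_class h' m' k0 (z.2 : ℤ) (z.1 : ℤ) c0 c0' p0 q0 ?_ ?_ ?_ ?_ c4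
    · exact Nat.isCoprime_iff_coprime.2 hz2.2.2
    · have : 2 * h' * z.2 ≤ m' * z.1 := by
        have e1 : 8 * h' * z.2 ≤ 8 * h' * B := Nat.mul_le_mul_left _ hz2.2.1.2
        have e2 : m' * A ≤ m' * (4 * z.1) := Nat.mul_le_mul_left _ hz1.le
        have e3 : 8 * h' * z.2 = 4 * (2 * h' * z.2) := by ring
        have e4 : m' * (4 * z.1) = 4 * (m' * z.1) := by ring
        omega
      exact_mod_cast this
    · have : 2 * z.1 ≤ h' := by
        have := hz2.1.2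
        omega
      exact_mod_cast this
    · have : m' * z.1 ^ 3 + 2 * h' ^ 2 ≤ k0 * h' ^ 2 := by
        have e1 : m' * z.1 ^ 3 ≤ m' * A ^ 3 :=
          Nat.mul_le_mul_left _ (Nat.pow_le_pow_left hz2.1.2 3)
        omega
      exact_mod_cast this
  have hcard : k0 < (reg h' m').card := by
    have e1 := step_many h' m' 1 (2 * h') c0 c0' one_pos (by positivity) (by
      have : (1 : ℤ) ≤ m' := by exact_mod_cast c0'
      nlinarith)
    exact (lt_of_lt_of_le c4 e1).trans_le (Finset.card_le_card (Finset.filter_subset _ _))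
  have hav : k + 1 ≤ (s - 2 * h') * (m - m1) := by
    have e0 : 2 * h' ≤ 2 * h := by omega
    have e1 : k + 1 ≤ (s - 2 * h) * (m - m1) := by
      have := hkk.trans (avail D s m h m1 hD hs1 hm1')
      exact Nat.le_of_mul_le_mul_left this (by omega)
    exact e1.trans (Nat.mul_le_mul_right _ (by omega))
  have hsh : 2 * h' ≤ s := by
    have : 1 * (2 * h) ≤ D * (2 * h) := Nat.mul_le_mul_right _ (by omega)
    omega
  have hmm : m - m1 + m1 ≤ m := by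
    have : 1 * m1 ≤ D * m1 := Nat.mul_le_mul_right _ (by omega)
    omega
  obtain ⟨Γ, g1, g2, g3⟩ := assemble (reg h' m') h' (2 * h') m1 (m - m1) s m k0 (k - k0) (copL A B)
    (by
      intro z hz
      obtain ⟨⟨e1, e2⟩, ⟨e3, e4⟩, -⟩ := mem_reg.1 hz
      refine ⟨⟨by omega, by omega⟩, ⟨e3, by omega⟩⟩)
    (by
      intro z hz
      have hz2 := mem_cop.1 (Finset.mem_filter.1 hz).1
      exact ⟨hz2.1.1, hz2.2.1.1, hz2.2.2⟩)
    key hcard hsh hmm (by omega)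
  have ek : k0 + (k - k0) = k := by omega
  rw [ek] at g2 g3
  refine ⟨Γ, g1, g2, ?_⟩
  have g4 : A * B ≤ 8 * psi Γ k := by
    have := copL_card A B
    omega
  have g5 : (A * B) ^ 3 ≤ 512 * psi Γ k ^ 3 := by
    calc (A * B) ^ 3 ≤ (8 * psi Γ k) ^ 3 := Nat.pow_le_pow_left g4 3
      _ = 512 * psi Γ k ^ 3 := by ring
  have g6 : ord s m k ≤ (3 * D * (2304 * D ^ 2)) ^ 3 * ord h m1 k0 := by
    refine ord_scale ?_ ?_ hs2 hm2 hk3
    · omega
    · have : 1 ≤ D ^ 2 := Nat.one_le_pow _ _ (by omega)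
      omega
  calc ord s m k ≤ (3 * D * (2304 * D ^ 2)) ^ 3 * ord h m1 k0 := g6
    _ ≤ (3 * D * (2304 * D ^ 2)) ^ 3 * (7247757312 * (A * B) ^ 3) := Nat.mul_le_mul_left _ ho
    _ ≤ (3 * D * (2304 * D ^ 2)) ^ 3 * (7247757312 * (512 * psi Γ k ^ 3)) :=
        Nat.mul_le_mul_left _ (Nat.mul_le_mul_left _ g5)
    _ = (3 * D * (2304 * D ^ 2)) ^ 3 * (7247757312 * 512) * psi Γ k ^ 3 := by ring

theorem lower_small (s m k : ℕ) (hs : 512 ≤ s) (hm : 256 ≤ m) (hk : k ≤ 5) :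
    ∃ Γ : Finset (ℝ × ℝ), InBox s m Γ ∧ k < Γ.card ∧
      ord s m (k + 1) ≤ 18 ^ 3 * 4096 * psi Γ k ^ 3 := by
  classical
  set s1 := s / 2 with hs1
  set m1 := m / 2 with hm1
  obtain ⟨A, B, hA, hB, h1, h2, ho⟩ := params_small s1 m1 (by omega) (by omega)
  obtain ⟨R, r1, r2, r3⟩ := poly A B s1 m1 hA hB h1 h2
  have hav : 6 ≤ (s - s1) * (m - m1) := by
    calc 6 ≤ 256 * 128 := by norm_num
      _ ≤ (s - s1) * (m - m1) := Nat.mul_le_mul (by omega) (by omega)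
  obtain ⟨Γ, g1, g2, g3⟩ := assemble R 0 s1 m1 (m - m1) s m 0 k (cop A B) r2
    (by
      intro z hz
      have hz2 := mem_cop.1 hz
      exact ⟨hz2.1.1, hz2.2.1.1, hz2.2.2⟩)
    r3 r1 (by omega) (by omega) (by omega)
  rw [zero_add] at g2 g3
  refine ⟨Γ, g1, g2, ?_⟩
  have g4 : A * B ≤ 4 * psi Γ k := by
    have := cop_card A B
    omega
  have g5 : (A * B) ^ 3 ≤ 64 * psi Γ k ^ 3 := by
    calc (A * B) ^ 3 ≤ (4 * psi Γ k) ^ 3 := Nat.pow_le_pow_left g4 3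
      _ = 64 * psi Γ k ^ 3 := by ring
  have g6 : ord s m (k + 1) ≤ (3 * 6) ^ 3 * ord s1 m1 1 :=
    ord_scale (by norm_num) (by norm_num) (by omega) (by omega) (by omega)
  calc ord s m (k + 1) ≤ (3 * 6) ^ 3 * ord s1 m1 1 := g6
    _ ≤ (3 * 6) ^ 3 * (64 * (A * B) ^ 3) := Nat.mul_le_mul_left _ ho
    _ ≤ (3 * 6) ^ 3 * (64 * (64 * psi Γ k ^ 3)) :=
        Nat.mul_le_mul_left _ (Nat.mul_le_mul_left _ g5)
    _ = 18 ^ 3 * 4096 * psi Γ k ^ 3 := by ring

theorem lower_all (D s m k : ℕ) (hD : 3 ≤ D) (hs : 256 * D ≤ s) (hm : 256 * D ≤ m)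
    (hkk : D * (k + 1) ≤ (D - 2) * (s * m)) :
    ∃ Γ : Finset (ℝ × ℝ), InBox s m Γ ∧ k < Γ.card ∧
      ord s m (k + 1) ≤ 8 * ((3 * D * (2304 * D ^ 2)) ^ 3 * (7247757312 * 512)) * psi Γ k ^ 3 := by
  by_cases c : k ≤ 5
  · obtain ⟨Γ, g1, g2, g3⟩ := lower_small s m k (by omega) (by omega) c
    refine ⟨Γ, g1, g2, g3.trans (Nat.mul_le_mul_right _ ?_)⟩
    have e1 : 1 ≤ (3 * D * (2304 * D ^ 2)) ^ 3 := Nat.one_le_pow _ _ (by positivity)
    calc 18 ^ 3 * 4096 ≤ 8 * (1 * (7247757312 * 512)) := by norm_num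
      _ ≤ 8 * ((3 * D * (2304 * D ^ 2)) ^ 3 * (7247757312 * 512)) := by gcongr
  · obtain ⟨Γ, g1, g2, g3⟩ := lower_big D s m k hD hs (by omega) (by omega) hkk
    refine ⟨Γ, g1, g2, ?_⟩
    have g6 : ord s m (k + 1) ≤ (1 * 2) ^ 3 * ord s m k :=
      ord_scale (by norm_num) (by norm_num) (by omega) (by omega) (by omega)
    calc ord s m (k + 1) ≤ (1 * 2) ^ 3 * ord s m k := g6
      _ ≤ (1 * 2) ^ 3 * ((3 * D * (2304 * D ^ 2)) ^ 3 * (7247757312 * 512) * psi Γ k ^ 3) :=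
          Nat.mul_le_mul_left _ g3
      _ = 8 * ((3 * D * (2304 * D ^ 2)) ^ 3 * (7247757312 * 512)) * psi Γ k ^ 3 := by ring

end Pool.Agent.ILV
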