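import Pool.Agent.ILV.UpperQ
import Pool.Agent.ILV.Box

/-! The master upper bound. -/

namespace Pool.Agent.ILV
open Finset Filter Topology Pool.Agent.KL Pool.Agent.KLS

theorem psi_master (s m L1 L2 k : ℕ) (Γ : Finset (ℝ × ℝ)) (hΓ : InBox s m Γ) (hk : k < Γ.card)
    (hL1 : 1 ≤ L1) (hL2 : 1 ≤ L2) :
    psi Γ k ≤ 1 + 2 * ((L1 - 1) * (L2 - 1)) + (s / L1) * (2 * min (k + 1) (Γ.card - k) - 1)
      + 2 * ((m / L2) * (2 * min (k + 1) (Γ.card - k) - 1)) := by
  classical
  set M := min (k + 1) (Γ.card - k) with hM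
  set C : Finset ℝ := insert 0 ((Γ ×ˢ Γ).image fun q : (ℝ × ℝ) × (ℝ × ℝ) =>
    (q.2.2 - q.1.2) / (q.1.1 - q.2.1)) with hC
  have hCmem : ∀ l ∈ Γ, ∀ l' ∈ Γ, l ≠ l' → ∀ x, ev l x = ev l' x → x ∈ C := by
    intro l hl l' hl' hne x hx
    rw [hC, Finset.mem_insert, Finset.mem_image]
    exact Or.inr ⟨(l, l'), by simp [hl, hl'], (eq_of_common hne hx).2.symm⟩
  have hC0 : (0 : ℝ) ∈ C := Finset.mem_insert_self _ _
  obtain ⟨d, hd, hd0⟩ : ∃ d : ℝ, (∀ c ∈ C, ∀ c' ∈ C, c < c' → c + 2 * d < c') ∧ 0 < d := by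
    have h : ∀ᶠ d in 𝓝[>] (0 : ℝ), ∀ c ∈ C, ∀ c' ∈ C, c < c' → c + 2 * d < c' := by
      rw [Finset.eventually_all]; intro c _
      rw [Finset.eventually_all]; intro c' _
      by_cases hcc : c < c'
      · have h1 : ContinuousAt (fun d : ℝ => c + 2 * d) 0 := by fun_prop
        have h2 := h1.eventually_lt (continuousAt_const (y := c')) (by simpa using hcc)
        filter_upwards [nhdsWithin_le_nhds h2] with d hd _
        exact hd
      · exact Eventually.of_forall fun d h => absurd h hcc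
    obtain ⟨d, hd, hd0⟩ := (h.and self_mem_nhdsWithin).exists
    exact ⟨d, hd, hd0⟩
  set V : Finset (ℝ × ℝ) := (vertex_finite Γ k).toFinset with hV
  have hVmem : ∀ p, p ∈ V ↔ IsVertex Γ k p := by
    intro p; rw [hV, Set.Finite.mem_toFinset]; rfl
  have hpsi : psi Γ k = V.card := by
    unfold psi
    rw [Set.ncard_eq_toFinset_card _ (vertex_finite Γ k)]
  have hVC : ∀ p ∈ V, p.1 ∈ C := by
    intro p hp
    obtain ⟨l, hl, l', hl', hne, h1, h2, -⟩ := (hVmem p).1 hp
    exact hCmem l hl l' hl' hne _ (h1.trans h2.symm)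
  have hVlev : ∀ p ∈ V, p ∈ kLevel Γ k := by
    intro p hp
    obtain ⟨l, hl, l', hl', hne, h1, h2, δ, hδ, h3, -⟩ := (hVmem p).1 hp
    have := h3 p.1 ⟨by linarith, le_rfl⟩
    rw [h1] at this
    exact this
  have hsame : ∀ p ∈ V, ∀ q ∈ V, p.1 = q.1 → p = q := by
    intro p hp q hq h
    have h1 := hVlev p hp
    have h2 := hVlev q hq
    have e1 : p = (p.1, p.2) := rfl
    have e2 : q = (p.1, q.2) := by rw [h]
    rw [e1] at h1
    rw [e2] at h2
    have h3 := eq_of_mem h1 h2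
    exact Prod.ext h h3
  have hsep : ∀ p ∈ V, ∀ q ∈ V, p ≠ q → p.1 + 2 * d ≤ q.1 ∨ q.1 + 2 * d ≤ p.1 := by
    intro p hp q hq hne
    rcases lt_trichotomy p.1 q.1 with h | h | h
    · exact Or.inl (hd _ (hVC p hp) _ (hVC q hq) h).le
    · exact absurd (hsame p hp q hq h) hne
    · exact Or.inr (hd _ (hVC q hq) _ (hVC p hp) h).le
  have hgen : ∀ p ∈ V, ∀ x, p.1 - d < x → x < p.1 + d → x ≠ p.1 → Gen Γ x := by
    intro p hp x h1 h2 h3 l hl l' hl' h
    by_contra hne
    have hx := hCmem l hl l' hl' hne x h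
    rcases lt_or_gt_of_ne h3 with h4 | h4
    · have := hd _ hx _ (hVC p hp) h4; linarith
    · have := hd _ (hVC p hp) _ hx h4; linarith
  -- the classes
  let W : Set ℝ → (ℝ × ℝ → Prop) → Finset (ℝ × ℝ) := fun I Q =>
    (V.filter fun p => DrQ Γ I d (k + 1) Q p) ∪ (V.filter fun p => DrQ Γ I d k Q p)
  have hW : ∀ I Q, Up I Q → (W I Q).card ≤ 2 * M - 1 := by
    intro I Q hQ
    have h1 := class_cardQ (Γ := Γ) (d := d) (m := k + 1) hQ (by omega)
      (V.filter fun p => DrQ Γ I d (k + 1) Q p)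
      (fun p hp q hq => hsep p (Finset.mem_filter.1 hp).1 q (Finset.mem_filter.1 hq).1)
      (fun p hp => (Finset.mem_filter.1 hp).2)
    have h2 := class_cardQ (Γ := Γ) (d := d) (m := k) hQ (by omega)
      (V.filter fun p => DrQ Γ I d k Q p)
      (fun p hp q hq => hsep p (Finset.mem_filter.1 hp).1 q (Finset.mem_filter.1 hq).1)
      (fun p hp => (Finset.mem_filter.1 hp).2)
    have h3 := Finset.card_union_le (V.filter fun p => DrQ Γ I d (k + 1) Q p)
      (V.filter fun p => DrQ Γ I d k Q p)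
    simp only [W]
    omega
  let V0 : Finset (ℝ × ℝ) := V.filter fun p => p.1 = 0 ∨ ∃ i ∈ Finset.Icc 1 (L1 - 1),
    ∃ j ∈ (Finset.Ioo (-(L2 : ℤ)) (L2 : ℤ)).erase 0, p.1 = (j : ℝ) / (i : ℝ)
  have hV0 : V0.card ≤ 1 + 2 * ((L1 - 1) * (L2 - 1)) := by
    have h1 : Set.InjOn Prod.fst (V0 : Set (ℝ × ℝ)) := by
      intro p hp q hq h
      exact hsame p (Finset.mem_filter.1 hp).1 q (Finset.mem_filter.1 hq).1 h
    rw [← Finset.card_image_of_injOn h1]
    have h2 : V0.image Prod.fst ⊆ insert (0 : ℝ)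
        (((Finset.Icc 1 (L1 - 1)) ×ˢ ((Finset.Ioo (-(L2 : ℤ)) (L2 : ℤ)).erase 0)).image
          fun q : ℕ × ℤ => (q.2 : ℝ) / (q.1 : ℝ)) := by
      intro x hx
      obtain ⟨p, hp, rfl⟩ := Finset.mem_image.1 hx
      rw [Finset.mem_insert, Finset.mem_image]
      rcases (Finset.mem_filter.1 hp).2 with h | ⟨i, hi, j, hj, h⟩
      · exact Or.inl h
      · exact Or.inr ⟨(i, j), Finset.mem_product.2 ⟨hi, hj⟩, h.symm⟩
    refine (Finset.card_le_card h2).trans ((Finset.card_insert_le _ _).trans ?_)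
    have h3 : ((((Finset.Icc 1 (L1 - 1)) ×ˢ ((Finset.Ioo (-(L2 : ℤ)) (L2 : ℤ)).erase 0)).image
          fun q : ℕ × ℤ => (q.2 : ℝ) / (q.1 : ℝ))).card ≤ (L1 - 1) * (2 * (L2 - 1)) := by
      refine Finset.card_image_le.trans ?_
      rw [Finset.card_product, Nat.card_Icc, Finset.card_erase_of_mem, Int.card_Ioo]
      · have e1 : L1 - 1 + 1 - 1 = L1 - 1 := by omega
        have e2 : ((L2 : ℤ) - -(L2 : ℤ) - 1).toNat - 1 = 2 * (L2 - 1) := by omega
        rw [e1, e2]
      · rw [Finset.mem_Ioo]; omega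
    have h4 : (L1 - 1) * (2 * (L2 - 1)) = 2 * ((L1 - 1) * (L2 - 1)) := by ring
    omega
  let W1 : Finset (ℝ × ℝ) := (Finset.Icc 1 (s / L1)).biUnion fun j =>
    W Set.univ (fun l => ((j * L1 : ℕ) : ℝ) ≤ l.1)
  let W2 : Finset (ℝ × ℝ) := (Finset.Icc 1 (m / L2)).biUnion fun j =>
    W (Set.Ioi 0) (fun l => l.2 < ((j * L2 : ℕ) : ℝ))
  let W3 : Finset (ℝ × ℝ) := (Finset.Icc 1 (m / L2)).biUnion fun j =>
    W (Set.Iio 0) (fun l => ((j * L2 : ℕ) : ℝ) ≤ l.2)
  have hW1 : W1.card ≤ (s / L1) * (2 * M - 1) := by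
    refine Finset.card_biUnion_le.trans ((Finset.sum_le_card_nsmul _ _ _
      fun j _ => hW _ _ (up_slope _)).trans ?_)
    rw [smul_eq_mul, Nat.card_Icc, Nat.add_sub_cancel]
  have hW2 : W2.card ≤ (m / L2) * (2 * M - 1) := by
    refine Finset.card_biUnion_le.trans ((Finset.sum_le_card_nsmul _ _ _
      fun j _ => hW _ _ (up_pos _)).trans ?_)
    rw [smul_eq_mul, Nat.card_Icc, Nat.add_sub_cancel]
  have hW3 : W3.card ≤ (m / L2) * (2 * M - 1) := by
    refine Finset.card_biUnion_le.trans ((Finset.sum_le_card_nsmul _ _ _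
      fun j _ => hW _ _ (up_neg _)).trans ?_)
    rw [smul_eq_mul, Nat.card_Icc, Nat.add_sub_cancel]
  have hcover : V ⊆ ((V0 ∪ W1) ∪ W2) ∪ W3 := by
    intro p hp
    obtain ⟨l, hl, l', hl', hll, e1, e2, h⟩ := vertex_dataQ ((hVmem p).1 hp) hd0 (hgen p hp) hk
    obtain ⟨a, b, has, hbm, hla⟩ := hΓ l hl
    obtain ⟨a', b', has', hbm', hla'⟩ := hΓ l' hl'
    subst hla
    subst hla'
    have haa : a' < a := by
      have : ((a' : ℕ) : ℝ) < ((a : ℕ) : ℝ) := hll
      exact_mod_cast this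
    have hee : (a : ℝ) * p.1 + b = (a' : ℝ) * p.1 + b' := by
      have := e1.trans e2.symm
      unfold ev at this
      exact this
    have hpos : (0 : ℝ) < (a : ℝ) - a' := by
      have : ((a' : ℕ) : ℝ) < ((a : ℕ) : ℝ) := hll
      linarith
    have hx : p.1 * ((a : ℝ) - a') = (b' : ℝ) - b := by linarith
    -- case on the slope difference
    by_cases c1 : L1 ≤ a - a'
    · -- slopes far apart
      have hj1 : 1 ≤ a / L1 := Nat.div_pos (by omega) (by omega)
      have hj2 : a / L1 ≤ s / L1 := Nat.div_le_div_right has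
      have hj3 : a / L1 * L1 ≤ a := Nat.div_mul_le_self a L1
      have hj4 : a' < a / L1 * L1 := by
        have := Nat.div_add_mod a L1
        have h5 := Nat.mod_lt a (by omega : L1 > 0)
        have h6 : L1 * (a / L1) = a / L1 * L1 := Nat.mul_comm _ _
        omega
      rw [Finset.mem_union, Finset.mem_union, Finset.mem_union]
      refine Or.inl (Or.inl (Or.inr ?_))
      rw [Finset.mem_biUnion]
      refine ⟨a / L1, Finset.mem_Icc.2 ⟨hj1, hj2⟩, ?_⟩
      rw [Finset.mem_union, Finset.mem_filter, Finset.mem_filter]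
      rcases h Set.univ (fun l => ((a / L1 * L1 : ℕ) : ℝ) ≤ l.1) (up_slope _) (Set.subset_univ _)
        (by show ((_ : ℕ) : ℝ) ≤ ((_ : ℕ) : ℝ); exact_mod_cast hj3)
        (by simp only [not_le]; exact_mod_cast hj4) with h | h
      · exact Or.inl ⟨hp, h⟩
      · exact Or.inr ⟨hp, h⟩
    by_cases c2 : b' + L2 ≤ b
    · -- intercepts far apart, negative abscissa
      have hxneg : p.1 < 0 := by
        have hbb : (b' : ℝ) < b := by exact_mod_cast (by omega : b' < b)
        by_contra hc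
        push Not at hc
        have := mul_nonneg hc hpos.le
        linarith
      have hI : Set.Ioo (p.1 - d) (p.1 + d) ⊆ Set.Iio 0 := by
        intro y hy
        have := hd _ (hVC p hp) _ hC0 hxneg
        have h7 := hy.2
        show y < 0
        linarith
      have hj1 : 1 ≤ b / L2 := Nat.div_pos (by omega) (by omega)
      have hj2 : b / L2 ≤ m / L2 := Nat.div_le_div_right hbm
      have hj3 : b / L2 * L2 ≤ b := Nat.div_mul_le_self b L2
      have hj4 : b' < b / L2 * L2 := by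
        have := Nat.div_add_mod b L2
        have h5 := Nat.mod_lt b (by omega : L2 > 0)
        have h6 : L2 * (b / L2) = b / L2 * L2 := Nat.mul_comm _ _
        omega
      rw [Finset.mem_union]
      refine Or.inr ?_
      rw [Finset.mem_biUnion]
      refine ⟨b / L2, Finset.mem_Icc.2 ⟨hj1, hj2⟩, ?_⟩
      rw [Finset.mem_union, Finset.mem_filter, Finset.mem_filter]
      rcases h (Set.Iio 0) (fun l => ((b / L2 * L2 : ℕ) : ℝ) ≤ l.2) (up_neg _) hI
        (by show ((_ : ℕ) : ℝ) ≤ ((_ : ℕ) : ℝ); exact_mod_cast hj3)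
        (by simp only [not_le]; exact_mod_cast hj4) with h | h
      · exact Or.inl ⟨hp, h⟩
      · exact Or.inr ⟨hp, h⟩
    by_cases c3 : b + L2 ≤ b'
    · -- intercepts far apart, positive abscissa
      have hxpos : 0 < p.1 := by
        have hbb : (b : ℝ) < b' := by exact_mod_cast (by omega : b < b')
        by_contra hc
        push Not at hc
        have := mul_nonpos_of_nonpos_of_nonneg hc hpos.le
        linarith
      have hI : Set.Ioo (p.1 - d) (p.1 + d) ⊆ Set.Ioi 0 := by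
        intro y hy
        have := hd _ hC0 _ (hVC p hp) hxpos
        have h7 := hy.1
        show 0 < y
        linarith
      have hj1 : 1 ≤ b' / L2 := Nat.div_pos (by omega) (by omega)
      have hj2 : b' / L2 ≤ m / L2 := Nat.div_le_div_right hbm'
      have hj3 : b' / L2 * L2 ≤ b' := Nat.div_mul_le_self b' L2
      have hj4 : b < b' / L2 * L2 := by
        have := Nat.div_add_mod b' L2
        have h5 := Nat.mod_lt b' (by omega : L2 > 0)
        have h6 : L2 * (b' / L2) = b' / L2 * L2 := Nat.mul_comm _ _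
        omega
      rw [Finset.mem_union, Finset.mem_union]
      refine Or.inl (Or.inr ?_)
      rw [Finset.mem_biUnion]
      refine ⟨b' / L2, Finset.mem_Icc.2 ⟨hj1, hj2⟩, ?_⟩
      rw [Finset.mem_union, Finset.mem_filter, Finset.mem_filter]
      rcases h (Set.Ioi 0) (fun l => l.2 < ((b' / L2 * L2 : ℕ) : ℝ)) (up_pos _) hI
        (by show ((_ : ℕ) : ℝ) < ((_ : ℕ) : ℝ); exact_mod_cast hj4)
        (by simp only [not_lt]; exact_mod_cast hj3) with h | h
      · exact Or.inl ⟨hp, h⟩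
      · exact Or.inr ⟨hp, h⟩
    · -- both small
      rw [Finset.mem_union, Finset.mem_union, Finset.mem_union]
      refine Or.inl (Or.inl (Or.inl ?_))
      rw [Finset.mem_filter]
      refine ⟨hp, ?_⟩
      by_cases h0 : b = b'
      · left
        have : p.1 * ((a : ℝ) - a') = 0 := by rw [hx, h0]; ring
        rcases mul_eq_zero.1 this with h | h
        · exact h
        · linarith
      · right
        refine ⟨a - a', Finset.mem_Icc.2 ⟨by omega, by omega⟩, (b' : ℤ) - b, ?_, ?_⟩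
        · rw [Finset.mem_erase, Finset.mem_Ioo]
          omega
        · have e3 : ((a - a' : ℕ) : ℝ) = (a : ℝ) - a' := by
            rw [Nat.cast_sub haa.le]
          rw [e3, eq_div_iff hpos.ne', hx]
          push_cast
          ring
  rw [hpsi]
  have h1 := Finset.card_le_card hcover
  have h2 := Finset.card_union_le ((V0 ∪ W1) ∪ W2) W3
  have h3 := Finset.card_union_le (V0 ∪ W1) W2
  have h4 := Finset.card_union_le V0 W1
  omega

end Pool.Agent.ILV
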