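import Pool.Agent.ILV.Doubling2

/-! Levels of lines with slopes and intercepts in sets with small tripling. -/

namespace Pool.Agent.ILV
open Finset Filter Topology Pool.Agent.KL Pool.Agent.KLS
open scoped Pointwise

open Classical in
/-- positive differences inside cells -/
noncomputable def sh (A : Finset ℝ) (a0 ℓ : ℝ) : Finset ℝ :=
  ((A ×ˢ A).filter fun q => cell a0 ℓ q.1 = cell a0 ℓ q.2 ∧ q.2 < q.1).image
    fun q => q.1 - q.2

theorem mem_sh {A : Finset ℝ} {a0 ℓ v : ℝ} : v ∈ sh A a0 ℓ ↔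
    ∃ z ∈ A, ∃ z' ∈ A, cell a0 ℓ z = cell a0 ℓ z' ∧ z' < z ∧ z - z' = v := by
  classical
  unfold sh
  rw [Finset.mem_image]
  constructor
  · rintro ⟨⟨z, z'⟩, hq, h⟩
    rw [Finset.mem_filter, Finset.mem_product] at hq
    exact ⟨z, hq.1.1, z', hq.1.2, hq.2.1, hq.2.2, h⟩
  · rintro ⟨z, hz, z', hz', h1, h2, h3⟩
    exact ⟨(z, z'), by rw [Finset.mem_filter, Finset.mem_product]; exact ⟨⟨hz, hz'⟩, h1, h2⟩, h3⟩

open Classical in
theorem sh_card (A : Finset ℝ) (a0 ℓ : ℝ) (hℓ : 0 < ℓ) :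
    (A.image (cell a0 ℓ)).card * (sh A a0 ℓ).card ≤ 2 * (A + A - A).card := by
  set J := A.image (cell a0 ℓ) with hJ
  have hrep : ∀ j ∈ J, ∃ z ∈ A, cell a0 ℓ z = j := by
    intro j hj
    obtain ⟨z, hz, h⟩ := Finset.mem_image.1 hj
    exact ⟨z, hz, h⟩
  choose! rep hrep1 hrep2 using hrep
  rw [← Finset.card_product]
  refine Finset.card_le_mul_card_image_of_maps_to
    (f := fun q : ℤ × ℝ => rep q.1 + q.2) ?_ 2 ?_
  · rintro ⟨j, v⟩ hq
    rw [Finset.mem_product] at hq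
    obtain ⟨z, hz, z', hz', -, -, h3⟩ := mem_sh.1 hq.2
    simp only at h3 ⊢
    rw [← h3, ← add_sub_assoc]
    exact Finset.sub_mem_sub (Finset.add_mem_add (hrep1 j hq.1) hz) hz'
  · intro w _
    have hsub : Set.InjOn (fun q : ℤ × ℝ => q.1)
        (((J ×ˢ sh A a0 ℓ).filter fun q => rep q.1 + q.2 = w : Finset _) : Set (ℤ × ℝ)) := by
      rintro ⟨j, v⟩ h1 ⟨j', v'⟩ h2 h
      rw [Finset.mem_coe, Finset.mem_filter] at h1 h2
      simp only at h h1 h2
      subst h
      have : v = v' := by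
        have h3 := h1.2.trans h2.2.symm
        exact add_left_cancel h3
      rw [this]
    rw [← Finset.card_image_of_injOn hsub]
    have hsub2 : ((J ×ˢ sh A a0 ℓ).filter fun q => rep q.1 + q.2 = w).image
        (fun q : ℤ × ℝ => q.1) ⊆ ({cell a0 ℓ w, cell a0 ℓ w - 1} : Finset ℤ) := by
      intro j hj
      obtain ⟨⟨j', v⟩, hq, rfl⟩ := Finset.mem_image.1 hj
      rw [Finset.mem_filter, Finset.mem_product] at hq
      obtain ⟨⟨hj', hv⟩, hw⟩ := hq
      simp only at hj' hv hw ⊢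
      obtain ⟨z, hz, z', hz', h1, h2, h3⟩ := mem_sh.1 hv
      have h4 := cell_lt hℓ h1
      have hr := hrep2 j' hj'
      have c1 : j' ≤ cell a0 ℓ w := by
        rw [← hr]; exact cell_mono hℓ (by linarith)
      have c2 : cell a0 ℓ w ≤ j' + 1 := by
        rw [← hr]
        have : cell a0 ℓ w ≤ cell a0 ℓ (rep j' + ℓ) := cell_mono hℓ (by linarith)
        refine this.trans (le_of_eq ?_)
        unfold cell
        rw [← Int.floor_add_one]
        congr 1
        field_simp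
        ring
      rw [Finset.mem_insert, Finset.mem_singleton]
      omega
    exact (Finset.card_le_card hsub2).trans Finset.card_le_two

theorem cell_threshold {a0 ℓ a a' : ℝ} (hℓ : 0 < ℓ) (h : a' ≤ a)
    (hc : cell a0 ℓ a ≠ cell a0 ℓ a') (h0 : a0 ≤ a') :
    1 ≤ cell a0 ℓ a ∧ a0 + (cell a0 ℓ a : ℝ) * ℓ ≤ a ∧ a' < a0 + (cell a0 ℓ a : ℝ) * ℓ := by
  have c1 : cell a0 ℓ a' < cell a0 ℓ a := lt_of_le_of_ne (cell_mono hℓ h) (Ne.symm hc)
  have c0 : 0 ≤ cell a0 ℓ a' := by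
    unfold cell
    rw [Int.floor_nonneg]
    exact div_nonneg (by linarith) hℓ.le
  refine ⟨by omega, ?_, ?_⟩
  · have := Int.floor_le ((a - a0) / ℓ)
    rw [le_div_iff₀ hℓ] at this
    unfold cell
    linarith
  · have h3 := Int.lt_floor_add_one ((a' - a0) / ℓ)
    have h4 : ((cell a0 ℓ a' : ℤ) : ℝ) + 1 ≤ cell a0 ℓ a := by exact_mod_cast c1
    have h5 : (a' - a0) / ℓ < cell a0 ℓ a := lt_of_lt_of_le h3 h4
    rw [div_lt_iff₀ hℓ] at h5
    linarith

open Classical in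
theorem psi_prod (Γ : Finset (ℝ × ℝ)) (A B : Finset ℝ) (hΓA : ∀ l ∈ Γ, l.1 ∈ A)
    (hΓB : ∀ l ∈ Γ, l.2 ∈ B) (k : ℕ) (hk : k < Γ.card) (a0 ℓ b0 ℓ' : ℝ) (hℓ : 0 < ℓ)
    (hℓ' : 0 < ℓ') (hA : ∀ a ∈ A, a0 ≤ a) (hA' : a0 ∈ A) (hB : ∀ b ∈ B, b0 ≤ b) (hB' : b0 ∈ B) :
    psi Γ k ≤ 1 + 2 * ((sh A a0 ℓ).card * (sh B b0 ℓ').card)
      + ((A.image (cell a0 ℓ)).card - 1) * (2 * min (k + 1) (Γ.card - k) - 1)
      + 2 * (((B.image (cell b0 ℓ')).card - 1) * (2 * min (k + 1) (Γ.card - k) - 1)) := by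
  set M := min (k + 1) (Γ.card - k) with hM
  set C : Finset ℝ := insert 0 ((Γ ×ˢ Γ).image fun q : (ℝ × ℝ) × (ℝ × ℝ) =>
    (q.2.2 - q.1.2) / (q.1.1 - q.2.1)) with hC
  have hCmem : ∀ l ∈ Γ, ∀ l' ∈ Γ, l ≠ l' → ∀ x, ev l x = ev l' x → x ∈ C := by
    intro l hl l' hl' hne x hx
    rw [hC, Finset.mem_insert, Finset.mem_image]
    exact Or.inr ⟨(l, l'), by simp [hl, hl'], (eq_of_common hne hx).2.symm⟩
  have hC0 : (0 : ℝ) ∈ C := Finset.mem_insert_self _ _
  obtain ⟨d, hd, hd0⟩ : ∃ d : ℝ, (∀ c ∈ C, ∀ c' ∈ C, c < c' → c + 2 * d < c') ∧ 0 < d := by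
    have h : ∀ᶠ d in 𝓝[>] (0 : ℝ), ∀ c ∈ C, ∀ c' ∈ C, c < c' → c + 2 * d < c' := by
      rw [Finset.eventually_all]; intro c _
      rw [Finset.eventually_all]; intro c' _
      by_cases hcc : c < c'
      · have h1 : ContinuousAt (fun d : ℝ => c + 2 * d) 0 := by fun_prop
        have h2 := h1.eventually_lt (continuousAt_const (y := c')) (by simpa using hcc)
        filter_upwards [nhdsWithin_le_nhds h2] with d hd _
        exact hd
      · exact Eventually.of_forall fun d h => absurd h hcc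
    obtain ⟨d, hd, hd0⟩ := (h.and self_mem_nhdsWithin).exists
    exact ⟨d, hd, hd0⟩
  set V : Finset (ℝ × ℝ) := (vertex_finite Γ k).toFinset with hV
  have hVmem : ∀ p, p ∈ V ↔ IsVertex Γ k p := by
    intro p; rw [hV, Set.Finite.mem_toFinset]; rfl
  have hpsi : psi Γ k = V.card := by
    unfold psi
    rw [Set.ncard_eq_toFinset_card _ (vertex_finite Γ k)]
  have hVC : ∀ p ∈ V, p.1 ∈ C := by
    intro p hp
    obtain ⟨l, hl, l', hl', hne, h1, h2, -⟩ := (hVmem p).1 hp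
    exact hCmem l hl l' hl' hne _ (h1.trans h2.symm)
  have hVlev : ∀ p ∈ V, p ∈ kLevel Γ k := by
    intro p hp
    obtain ⟨l, hl, l', hl', hne, h1, h2, δ, hδ, h3, -⟩ := (hVmem p).1 hp
    have := h3 p.1 ⟨by linarith, le_rfl⟩
    rw [h1] at this
    exact this
  have hsame : ∀ p ∈ V, ∀ q ∈ V, p.1 = q.1 → p = q := by
    intro p hp q hq h
    have h1 := hVlev p hp
    have h2 := hVlev q hq
    have e1 : p = (p.1, p.2) := rfl
    have e2 : q = (p.1, q.2) := by rw [h]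
    rw [e1] at h1
    rw [e2] at h2
    have h3 := eq_of_mem h1 h2
    exact Prod.ext h h3
  have hsep : ∀ p ∈ V, ∀ q ∈ V, p ≠ q → p.1 + 2 * d ≤ q.1 ∨ q.1 + 2 * d ≤ p.1 := by
    intro p hp q hq hne
    rcases lt_trichotomy p.1 q.1 with h | h | h
    · exact Or.inl (hd _ (hVC p hp) _ (hVC q hq) h).le
    · exact absurd (hsame p hp q hq h) hne
    · exact Or.inr (hd _ (hVC q hq) _ (hVC p hp) h).le
  have hgen : ∀ p ∈ V, ∀ x, p.1 - d < x → x < p.1 + d → x ≠ p.1 → Gen Γ x := by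
    intro p hp x h1 h2 h3 l hl l' hl' h
    by_contra hne
    have hx := hCmem l hl l' hl' hne x h
    rcases lt_or_gt_of_ne h3 with h4 | h4
    · have := hd _ hx _ (hVC p hp) h4; linarith
    · have := hd _ (hVC p hp) _ hx h4; linarith
  -- the classes
  let W : Set ℝ → (ℝ × ℝ → Prop) → Finset (ℝ × ℝ) := fun I Q =>
    (V.filter fun p => DrQ Γ I d (k + 1) Q p) ∪ (V.filter fun p => DrQ Γ I d k Q p)
  have hW : ∀ I Q, Up I Q → (W I Q).card ≤ 2 * M - 1 := by
    intro I Q hQ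
    have h1 := class_cardQ (Γ := Γ) (d := d) (m := k + 1) hQ (by omega)
      (V.filter fun p => DrQ Γ I d (k + 1) Q p)
      (fun p hp q hq => hsep p (Finset.mem_filter.1 hp).1 q (Finset.mem_filter.1 hq).1)
      (fun p hp => (Finset.mem_filter.1 hp).2)
    have h2 := class_cardQ (Γ := Γ) (d := d) (m := k) hQ (by omega)
      (V.filter fun p => DrQ Γ I d k Q p)
      (fun p hp q hq => hsep p (Finset.mem_filter.1 hp).1 q (Finset.mem_filter.1 hq).1)
      (fun p hp => (Finset.mem_filter.1 hp).2)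
    have h3 := Finset.card_union_le (V.filter fun p => DrQ Γ I d (k + 1) Q p)
      (V.filter fun p => DrQ Γ I d k Q p)
    simp only [W]
    omega
  set SA := sh A a0 ℓ with hSA
  set SB := sh B b0 ℓ' with hSB
  let V0 : Finset (ℝ × ℝ) := V.filter fun p => p.1 = 0 ∨ ∃ x ∈ SA, ∃ y ∈ SB,
    (p.1 = y / x ∨ p.1 = -(y / x))
  have hV0 : V0.card ≤ 1 + 2 * (SA.card * SB.card) := by
    have h1 : Set.InjOn Prod.fst (V0 : Set (ℝ × ℝ)) := by
      intro p hp q hq h
      exact hsame p (Finset.mem_filter.1 hp).1 q (Finset.mem_filter.1 hq).1 h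
    rw [← Finset.card_image_of_injOn h1]
    have h2 : V0.image Prod.fst ⊆ insert (0 : ℝ)
        (((SA ×ˢ SB).image fun q : ℝ × ℝ => q.2 / q.1) ∪
          ((SA ×ˢ SB).image fun q : ℝ × ℝ => -(q.2 / q.1))) := by
      intro x hx
      obtain ⟨p, hp, rfl⟩ := Finset.mem_image.1 hx
      rw [Finset.mem_insert, Finset.mem_union, Finset.mem_image, Finset.mem_image]
      rcases (Finset.mem_filter.1 hp).2 with h | ⟨x, hx, y, hy, h | h⟩
      · exact Or.inl h
      · exact Or.inr (Or.inl ⟨(x, y), Finset.mem_product.2 ⟨hx, hy⟩, h.symm⟩)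
      · exact Or.inr (Or.inr ⟨(x, y), Finset.mem_product.2 ⟨hx, hy⟩, h.symm⟩)
    refine (Finset.card_le_card h2).trans ((Finset.card_insert_le _ _).trans ?_)
    have h3 := Finset.card_union_le ((SA ×ˢ SB).image fun q : ℝ × ℝ => q.2 / q.1)
      ((SA ×ˢ SB).image fun q : ℝ × ℝ => -(q.2 / q.1))
    have h4 : ((SA ×ˢ SB).image fun q : ℝ × ℝ => q.2 / q.1).card ≤ SA.card * SB.card :=
      Finset.card_image_le.trans (le_of_eq (Finset.card_product _ _))
    have h5 : ((SA ×ˢ SB).image fun q : ℝ × ℝ => -(q.2 / q.1)).card ≤ SA.card * SB.card :=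
      Finset.card_image_le.trans (le_of_eq (Finset.card_product _ _))
    omega
  set JA := A.image (cell a0 ℓ) with hJA
  set JB := B.image (cell b0 ℓ') with hJB
  have h0A : (0 : ℤ) ∈ JA := by
    rw [hJA, Finset.mem_image]
    exact ⟨a0, hA', by unfold cell; simp⟩
  have h0B : (0 : ℤ) ∈ JB := by
    rw [hJB, Finset.mem_image]
    exact ⟨b0, hB', by unfold cell; simp⟩
  let W1 : Finset (ℝ × ℝ) := (JA.erase 0).biUnion fun j =>
    W Set.univ (fun l => a0 + j * ℓ ≤ l.1)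
  let W2 : Finset (ℝ × ℝ) := (JB.erase 0).biUnion fun j =>
    W (Set.Ioi 0) (fun l => l.2 < b0 + j * ℓ')
  let W3 : Finset (ℝ × ℝ) := (JB.erase 0).biUnion fun j =>
    W (Set.Iio 0) (fun l => b0 + j * ℓ' ≤ l.2)
  have hW1 : W1.card ≤ (JA.card - 1) * (2 * M - 1) := by
    refine Finset.card_biUnion_le.trans ((Finset.sum_le_card_nsmul _ _ _
      fun j _ => hW _ _ (up_slope _)).trans ?_)
    rw [smul_eq_mul, Finset.card_erase_of_mem h0A]
  have hW2 : W2.card ≤ (JB.card - 1) * (2 * M - 1) := by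
    refine Finset.card_biUnion_le.trans ((Finset.sum_le_card_nsmul _ _ _
      fun j _ => hW _ _ (up_pos _)).trans ?_)
    rw [smul_eq_mul, Finset.card_erase_of_mem h0B]
  have hW3 : W3.card ≤ (JB.card - 1) * (2 * M - 1) := by
    refine Finset.card_biUnion_le.trans ((Finset.sum_le_card_nsmul _ _ _
      fun j _ => hW _ _ (up_neg _)).trans ?_)
    rw [smul_eq_mul, Finset.card_erase_of_mem h0B]
  have hcover : V ⊆ ((V0 ∪ W1) ∪ W2) ∪ W3 := by
    intro p hp
    obtain ⟨l, hl, l', hl', hll, e1, e2, h⟩ := vertex_dataQ ((hVmem p).1 hp) hd0 (hgen p hp) hk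
    have e3 : l.1 * p.1 + l.2 = l'.1 * p.1 + l'.2 := e1.trans e2.symm
    have hpos : 0 < l.1 - l'.1 := by linarith
    have hx : p.1 * (l.1 - l'.1) = l'.2 - l.2 := by linarith
    by_cases c1 : cell a0 ℓ l.1 = cell a0 ℓ l'.1
    swap
    · obtain ⟨t0, t1, t2⟩ := cell_threshold hℓ hll.le c1 (hA _ (hΓA l' hl'))
      rw [Finset.mem_union, Finset.mem_union, Finset.mem_union]
      refine Or.inl (Or.inl (Or.inr ?_))
      rw [Finset.mem_biUnion]
      refine ⟨cell a0 ℓ l.1, Finset.mem_erase.2 ⟨by omega,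
        Finset.mem_image.2 ⟨l.1, hΓA l hl, rfl⟩⟩, ?_⟩
      rw [Finset.mem_union, Finset.mem_filter, Finset.mem_filter]
      rcases h Set.univ (fun l'' => a0 + (cell a0 ℓ l.1 : ℝ) * ℓ ≤ l''.1) (up_slope _)
        (Set.subset_univ _) t1 (by rw [not_le]; exact t2) with h | h
      · exact Or.inl ⟨hp, h⟩
      · exact Or.inr ⟨hp, h⟩
    have hxA : l.1 - l'.1 ∈ SA := mem_sh.2 ⟨l.1, hΓA l hl, l'.1, hΓA l' hl', c1, hll, rfl⟩
    rcases lt_trichotomy l'.2 l.2 with h2 | h2 | h2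
    · -- negative abscissa
      have hxneg : p.1 < 0 := by
        by_contra hc
        push Not at hc
        have := mul_nonneg hc hpos.le
        linarith
      by_cases c2 : cell b0 ℓ' l.2 = cell b0 ℓ' l'.2
      · rw [Finset.mem_union, Finset.mem_union, Finset.mem_union]
        refine Or.inl (Or.inl (Or.inl ?_))
        rw [Finset.mem_filter]
        refine ⟨hp, Or.inr ⟨_, hxA, l.2 - l'.2,
          mem_sh.2 ⟨l.2, hΓB l hl, l'.2, hΓB l' hl', c2, h2, rfl⟩, Or.inr ?_⟩⟩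
        rw [← neg_div, eq_div_iff hpos.ne']
        linarith
      · obtain ⟨t0, t1, t2⟩ := cell_threshold hℓ' h2.le c2 (hB _ (hΓB l' hl'))
        have hI : Set.Ioo (p.1 - d) (p.1 + d) ⊆ Set.Iio 0 := by
          intro y hy
          have := hd _ (hVC p hp) _ hC0 hxneg
          have h7 := hy.2
          show y < 0
          linarith
        rw [Finset.mem_union]
        refine Or.inr ?_
        rw [Finset.mem_biUnion]
        refine ⟨cell b0 ℓ' l.2, Finset.mem_erase.2 ⟨by omega,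
          Finset.mem_image.2 ⟨l.2, hΓB l hl, rfl⟩⟩, ?_⟩
        rw [Finset.mem_union, Finset.mem_filter, Finset.mem_filter]
        rcases h (Set.Iio 0) (fun l'' => b0 + (cell b0 ℓ' l.2 : ℝ) * ℓ' ≤ l''.2) (up_neg _) hI
          t1 (by rw [not_le]; exact t2) with h | h
        · exact Or.inl ⟨hp, h⟩
        · exact Or.inr ⟨hp, h⟩
    · -- abscissa zero
      rw [Finset.mem_union, Finset.mem_union, Finset.mem_union]
      refine Or.inl (Or.inl (Or.inl ?_))
      rw [Finset.mem_filter]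
      refine ⟨hp, Or.inl ?_⟩
      have : p.1 * (l.1 - l'.1) = 0 := by rw [hx, h2]; ring
      rcases mul_eq_zero.1 this with h | h
      · exact h
      · linarith
    · -- positive abscissa
      have hxpos : 0 < p.1 := by
        by_contra hc
        push Not at hc
        have := mul_nonpos_of_nonpos_of_nonneg hc hpos.le
        linarith
      by_cases c2 : cell b0 ℓ' l'.2 = cell b0 ℓ' l.2
      · rw [Finset.mem_union, Finset.mem_union, Finset.mem_union]
        refine Or.inl (Or.inl (Or.inl ?_))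
        rw [Finset.mem_filter]
        refine ⟨hp, Or.inr ⟨_, hxA, l'.2 - l.2,
          mem_sh.2 ⟨l'.2, hΓB l' hl', l.2, hΓB l hl, c2, h2, rfl⟩, Or.inl ?_⟩⟩
        rw [eq_div_iff hpos.ne']
        linarith
      · obtain ⟨t0, t1, t2⟩ := cell_threshold hℓ' h2.le c2 (hB _ (hΓB l hl))
        have hI : Set.Ioo (p.1 - d) (p.1 + d) ⊆ Set.Ioi 0 := by
          intro y hy
          have := hd _ hC0 _ (hVC p hp) hxpos
          have h7 := hy.1
          show 0 < y
          linarith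
        rw [Finset.mem_union, Finset.mem_union]
        refine Or.inl (Or.inr ?_)
        rw [Finset.mem_biUnion]
        refine ⟨cell b0 ℓ' l'.2, Finset.mem_erase.2 ⟨by omega,
          Finset.mem_image.2 ⟨l'.2, hΓB l' hl', rfl⟩⟩, ?_⟩
        rw [Finset.mem_union, Finset.mem_filter, Finset.mem_filter]
        rcases h (Set.Ioi 0) (fun l'' => l''.2 < b0 + (cell b0 ℓ' l'.2 : ℝ) * ℓ') (up_pos _) hI
          t2 (by rw [not_lt]; exact t1) with h | h
        · exact Or.inl ⟨hp, h⟩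
        · exact Or.inr ⟨hp, h⟩
  rw [hpsi]
  have h1 := Finset.card_le_card hcover
  have h2 := Finset.card_union_le ((V0 ∪ W1) ∪ W2) W3
  have h3 := Finset.card_union_le (V0 ∪ W1) W2
  have h4 := Finset.card_union_le V0 W1
  omega

end Pool.Agent.ILV
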