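import Pool.Agent.ILV.Master

/-! The upper bound in closed form. -/

namespace Pool.Agent.ILV
open Finset Filter Topology Pool.Agent.KL Pool.Agent.KLS

theorem exists_cbrt {y : ℝ} (hy : 1 ≤ y) : ∃ α : ℝ, 1 ≤ α ∧ α ^ 3 = y := by
  refine ⟨y ^ ((1 : ℝ) / 3), Real.one_le_rpow hy (by norm_num), ?_⟩
  rw [← Real.rpow_natCast, ← Real.rpow_mul (by linarith)]
  norm_num

theorem cube_inj {a b : ℝ} (ha : 0 ≤ a) (hb : 0 ≤ b) (h : a ^ 3 = b ^ 3) : a = b :=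
  (pow_left_inj₀ ha hb (by norm_num)).1 h

theorem div_le_real (s L : ℕ) (α : ℝ) (hα : 0 < α) (hL : α ≤ L) : ((s / L : ℕ) : ℝ) ≤ s / α := by
  have h1 : ((s / L : ℕ) : ℝ) ≤ (s : ℝ) / L := Nat.cast_div_le
  refine h1.trans ?_
  exact div_le_div_of_nonneg_left (Nat.cast_nonneg _) hα hL

theorem mul_two_sub (s M : ℕ) (hM : 1 ≤ M) : s * (2 * M - 1) + s = 2 * (s * M) := by
  obtain ⟨M', rfl⟩ : ∃ M', M = M' + 1 := ⟨M - 1, by omega⟩
  have : 2 * (M' + 1) - 1 = 2 * M' + 1 := by omega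
  rw [this]; ring

/-- upper bounds for the complexity of the `k`-level of lines with coefficients in a box -/
theorem upper_bounds (s m k : ℕ) (Γ : Finset (ℝ × ℝ)) (hs : 1 ≤ s) (hm : 1 ≤ m)
    (hΓ : InBox s m Γ) (hk : k < Γ.card) :
    psi Γ k ≤ 2 * (s * min (k + 1) (Γ.card - k)) ∧
    psi Γ k ≤ 4 * (m * min (k + 1) (Γ.card - k)) ∧
    psi Γ k ^ 3 ≤ 729 * (s * m * min (k + 1) (Γ.card - k) ^ 2) := by
  set M := min (k + 1) (Γ.card - k) with hM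
  have hM1 : 1 ≤ M := by omega
  have hA : psi Γ k ≤ 2 * (s * M) := by
    have h1 := psi_master s m 1 (m + 1) k Γ hΓ hk le_rfl (by omega)
    rw [← hM] at h1
    have e1 : m / (m + 1) = 0 := Nat.div_eq_of_lt (by omega)
    rw [e1, Nat.div_one] at h1
    have h2 := mul_two_sub s M hM1
    simp only [Nat.sub_self, Nat.zero_mul, Nat.mul_zero, Nat.add_zero] at h1
    omega
  have hB : psi Γ k ≤ 4 * (m * M) := by
    have h1 := psi_master s m (s + 1) 1 k Γ hΓ hk (by omega) le_rfl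
    rw [← hM] at h1
    have e1 : s / (s + 1) = 0 := Nat.div_eq_of_lt (by omega)
    rw [e1, Nat.div_one] at h1
    have h2 := mul_two_sub m M hM1
    simp only [Nat.sub_self, Nat.zero_mul, Nat.mul_zero, Nat.add_zero] at h1
    omega
  refine ⟨hA, hB, ?_⟩
  by_cases c1 : s ^ 2 * M < m
  · calc psi Γ k ^ 3 ≤ (2 * (s * M)) ^ 3 := Nat.pow_le_pow_left hA 3
      _ = 8 * (s * (s ^ 2 * M) * M ^ 2) := by ring
      _ ≤ 8 * (s * m * M ^ 2) := by gcongr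
      _ ≤ 729 * (s * m * M ^ 2) := by gcongr; norm_num
  by_cases c2 : m ^ 2 * M < s
  · calc psi Γ k ^ 3 ≤ (4 * (m * M)) ^ 3 := Nat.pow_le_pow_left hB 3
      _ = 64 * ((m ^ 2 * M) * m * M ^ 2) := by ring
      _ ≤ 64 * (s * m * M ^ 2) := by gcongr
      _ ≤ 729 * (s * m * M ^ 2) := by gcongr; norm_num
  push Not at c1 c2
  have hsR : (1 : ℝ) ≤ s := by exact_mod_cast hs
  have hmR : (1 : ℝ) ≤ m := by exact_mod_cast hm
  have hMR : (1 : ℝ) ≤ M := by exact_mod_cast hM1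
  obtain ⟨α, hα1, hα⟩ : ∃ α : ℝ, 1 ≤ α ∧ α ^ 3 = (s : ℝ) ^ 2 * M / m := by
    refine exists_cbrt ?_
    rw [le_div_iff₀ (by linarith)]
    have : ((m : ℕ) : ℝ) ≤ ((s ^ 2 * M : ℕ) : ℝ) := by exact_mod_cast c1
    push_cast at this
    linarith
  obtain ⟨β, hβ1, hβ⟩ : ∃ β : ℝ, 1 ≤ β ∧ β ^ 3 = (m : ℝ) ^ 2 * M / s := by
    refine exists_cbrt ?_
    rw [le_div_iff₀ (by linarith)]
    have : ((s : ℕ) : ℝ) ≤ ((m ^ 2 * M : ℕ) : ℝ) := by exact_mod_cast c2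
    push_cast at this
    linarith
  have hα0 : 0 < α := by linarith
  have hβ0 : 0 < β := by linarith
  set T := α * β with hT
  have hT1 : 1 ≤ T := by rw [hT]; nlinarith
  have hT3 : T ^ 3 = (s : ℝ) * m * M ^ 2 := by
    rw [hT, mul_pow, hα, hβ]
    field_simp
  have hsα : (s : ℝ) / α * M = T := by
    refine cube_inj (by positivity) (by linarith) ?_
    rw [hT3, mul_pow, div_pow, hα]
    field_simp
  have hmβ : (m : ℝ) / β * M = T := by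
    refine cube_inj (by positivity) (by linarith) ?_
    rw [hT3, mul_pow, div_pow, hβ]
    field_simp
  set L1 := ⌈α⌉₊ with hL1
  set L2 := ⌈β⌉₊ with hL2
  have hL1' : α ≤ L1 := Nat.le_ceil α
  have hL2' : β ≤ L2 := Nat.le_ceil β
  have hL1p : 1 ≤ L1 := Nat.ceil_pos.2 hα0
  have hL2p : 1 ≤ L2 := Nat.ceil_pos.2 hβ0
  have hL1u : ((L1 - 1 : ℕ) : ℝ) ≤ α := by
    have := (Nat.ceil_lt_add_one hα0.le).le
    rw [Nat.cast_sub hL1p]; push_cast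
    rw [← hL1] at this
    linarith
  have hL2u : ((L2 - 1 : ℕ) : ℝ) ≤ β := by
    have := (Nat.ceil_lt_add_one hβ0.le).le
    rw [Nat.cast_sub hL2p]; push_cast
    rw [← hL2] at this
    linarith
  have h1 := psi_master s m L1 L2 k Γ hΓ hk hL1p hL2p
  rw [← hM] at h1
  have h2 : (psi Γ k : ℝ) ≤ 1 + 2 * (((L1 - 1 : ℕ) : ℝ) * ((L2 - 1 : ℕ) : ℝ))
      + ((s / L1 : ℕ) : ℝ) * ((2 * M - 1 : ℕ) : ℝ) + 2 * (((m / L2 : ℕ) : ℝ) * ((2 * M - 1 : ℕ) : ℝ)) := by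
    exact_mod_cast h1
  have hM2 : ((2 * M - 1 : ℕ) : ℝ) ≤ 2 * M := by
    have : ((2 * M - 1 : ℕ) : ℝ) ≤ ((2 * M : ℕ) : ℝ) := by exact_mod_cast Nat.sub_le _ _
    push_cast at this
    exact this
  have h3 : ((L1 - 1 : ℕ) : ℝ) * ((L2 - 1 : ℕ) : ℝ) ≤ T := by
    rw [hT]; exact mul_le_mul hL1u hL2u (Nat.cast_nonneg _) hα0.le
  have h4 : ((s / L1 : ℕ) : ℝ) * ((2 * M - 1 : ℕ) : ℝ) ≤ 2 * T := by
    calc ((s / L1 : ℕ) : ℝ) * ((2 * M - 1 : ℕ) : ℝ) ≤ (s / α) * (2 * M) :=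
          mul_le_mul (div_le_real s L1 α hα0 hL1') hM2 (Nat.cast_nonneg _) (by positivity)
      _ = 2 * T := by rw [← hsα]; ring
  have h5 : ((m / L2 : ℕ) : ℝ) * ((2 * M - 1 : ℕ) : ℝ) ≤ 2 * T := by
    calc ((m / L2 : ℕ) : ℝ) * ((2 * M - 1 : ℕ) : ℝ) ≤ (m / β) * (2 * M) :=
          mul_le_mul (div_le_real m L2 β hβ0 hL2') hM2 (Nat.cast_nonneg _) (by positivity)
      _ = 2 * T := by rw [← hmβ]; ring
  have h6 : (psi Γ k : ℝ) ≤ 9 * T := by linarith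
  have h7 : (psi Γ k : ℝ) ^ 3 ≤ (9 * T) ^ 3 := pow_le_pow_left₀ (Nat.cast_nonneg _) h6 3
  rw [mul_pow, hT3] at h7
  have h8 : ((psi Γ k ^ 3 : ℕ) : ℝ) ≤ ((729 * (s * m * M ^ 2) : ℕ) : ℝ) := by
    push_cast
    linarith
  exact_mod_cast h8

end Pool.Agent.ILV
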