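import Pool.Agent.ILV.Product
import Pool.Agent.ILV.UpperFinal

/-! The bound for sets of lines with slopes in `A` and intercepts in `B`. -/

namespace Pool.Agent.ILV
open Finset Filter Topology Pool.Agent.KL Pool.Agent.KLS
open scoped Pointwise

open Classical in
theorem psi_cube (Γ : Finset (ℝ × ℝ)) (A B : Finset ℝ) (hΓA : ∀ l ∈ Γ, l.1 ∈ A)
    (hΓB : ∀ l ∈ Γ, l.2 ∈ B) (k : ℕ) (hk : k < Γ.card) :
    psi Γ k ^ 3 ≤ 9261 * ((A + A - A).card * (B + B - B).card * min (k + 1) (Γ.card - k) ^ 2) := by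
  set M := min (k + 1) (Γ.card - k) with hM
  have hM1 : 1 ≤ M := by omega
  have hΓ : Γ.Nonempty := Finset.card_pos.1 (by omega)
  have hAne : A.Nonempty := by obtain ⟨l, hl⟩ := hΓ; exact ⟨_, hΓA l hl⟩
  have hBne : B.Nonempty := by obtain ⟨l, hl⟩ := hΓ; exact ⟨_, hΓB l hl⟩
  set WA := (A + A - A).card with hWA
  set WB := (B + B - B).card with hWB
  have hWA1 : 1 ≤ WA := Finset.card_pos.2 ((hAne.add hAne).sub hAne)
  have hWB1 : 1 ≤ WB := Finset.card_pos.2 ((hBne.add hBne).sub hBne)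
  have hMR : (1 : ℝ) ≤ M := by exact_mod_cast hM1
  have hAR : (1 : ℝ) ≤ WA := by exact_mod_cast hWA1
  have hBR : (1 : ℝ) ≤ WB := by exact_mod_cast hWB1
  obtain ⟨T, hT1, hT⟩ : ∃ T : ℝ, 1 ≤ T ∧ T ^ 3 = (WA : ℝ) * WB * M ^ 2 := by
    refine exists_cbrt ?_
    have h1 : (1 : ℝ) ≤ (WA : ℝ) * WB := by nlinarith
    have h2 : (1 : ℝ) ≤ (M : ℝ) ^ 2 := by nlinarith
    nlinarith
  have key : (psi Γ k : ℝ) ≤ 21 * T → psi Γ k ^ 3 ≤ 9261 * (WA * WB * M ^ 2) := by
    intro h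
    have h1 : (psi Γ k : ℝ) ^ 3 ≤ (21 * T) ^ 3 := pow_le_pow_left₀ (Nat.cast_nonneg _) h 3
    rw [mul_pow, hT] at h1
    have h2 : ((psi Γ k ^ 3 : ℕ) : ℝ) ≤ ((9261 * (WA * WB * M ^ 2) : ℕ) : ℝ) := by
      push_cast
      linarith
    exact_mod_cast h2
  apply key
  set τ : ℝ := T / M with hτ
  have hτ0 : 0 < τ := by positivity
  have hτM : τ * M = T := by rw [hτ]; field_simp
  have hτ3 : τ ^ 3 * M = WA * WB := by
    have : (τ * M) ^ 3 = (WA : ℝ) * WB * M ^ 2 := by rw [hτM, hT]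
    have e : (τ ^ 3 * M) * M ^ 2 = (WA * WB : ℝ) * M ^ 2 := by
      rw [← this]; ring
    exact mul_right_cancel₀ (by positivity) e
  set a0 := A.min' hAne with ha0
  set b0 := B.min' hBne with hb0
  have hAmin : ∀ a ∈ A, a0 ≤ a := fun a ha => A.min'_le _ ha
  have hBmin : ∀ b ∈ B, b0 ≤ b := fun b hb => B.min'_le _ hb
  have hA0 : a0 ∈ A := A.min'_mem hAne
  have hB0 : b0 ∈ B := B.min'_mem hBne
  by_cases cA : (A.card : ℝ) ≤ τ
  · -- few slopes
    have h1 := psi_le_slopes Γ k hk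
    have h0 : (Γ.image Prod.fst).card ≤ A.card := by
      refine Finset.card_le_card ?_
      intro a ha
      obtain ⟨l, hl, rfl⟩ := Finset.mem_image.1 ha
      exact hΓA l hl
    have h2 : 2 * min k (Γ.card - 1 - k) + 1 ≤ 2 * M := by omega
    have h3 : psi Γ k ≤ A.card * (2 * M) := by
      calc psi Γ k ≤ ((Γ.image Prod.fst).card - 1) * (2 * min k (Γ.card - 1 - k) + 1) := h1
        _ ≤ A.card * (2 * M) := Nat.mul_le_mul (by omega) h2
    have h4 : (psi Γ k : ℝ) ≤ A.card * (2 * M) := by exact_mod_cast h3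
    have h5 : (A.card : ℝ) * (2 * M) ≤ τ * (2 * M) := mul_le_mul_of_nonneg_right cA (by positivity)
    linarith
  push Not at cA
  by_cases cB : (B.card : ℝ) ≤ τ
  · -- few intercepts
    have hBc : 1 ≤ B.card := Finset.card_pos.2 hBne
    obtain ⟨ℓ, hℓ, hN1, hN2⟩ := exists_scale A a0 hAmin 1 le_rfl (Finset.card_pos.2 hAne)
    obtain ⟨ℓ', hℓ', hN1', hN2'⟩ := exists_scale B b0 hBmin B.card hBc le_rfl
    have h1 := psi_prod Γ A B hΓA hΓB k hk a0 ℓ b0 ℓ' hℓ hℓ' hAmin hA0 hBmin hB0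
    rw [← hM] at h1
    have hc : (B.image (cell b0 ℓ')).card = B.card := le_antisymm Finset.card_image_le hN1'
    have hinj := Finset.card_image_iff.1 hc
    have hS : (sh B b0 ℓ').card = 0 := by
      rw [Finset.card_eq_zero, Finset.eq_empty_iff_forall_notMem]
      intro v hv
      obtain ⟨z, hz, z', hz', h2, h3, -⟩ := mem_sh.1 hv
      have := hinj hz hz' h2
      rw [this] at h3
      exact lt_irrefl _ h3
    have hN : (A.image (cell a0 ℓ)).card = 1 := by omega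
    rw [hS, hN, hc] at h1
    have h2 := mul_two_sub (B.card - 1) M hM1
    have h3 : psi Γ k ≤ 4 * (B.card * M) := by
      have h4 : (B.card - 1) * M + M = B.card * M := by
        have : B.card - 1 + 1 = B.card := by omega
        calc (B.card - 1) * M + M = (B.card - 1 + 1) * M := by ring
          _ = B.card * M := by rw [this]
      simp only [Nat.sub_self, Nat.mul_zero, Nat.zero_mul, Nat.add_zero] at h1
      omega
    have h4 : (psi Γ k : ℝ) ≤ 4 * (B.card * M) := by exact_mod_cast h3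
    have h5 : (B.card : ℝ) * M ≤ τ * M := mul_le_mul_of_nonneg_right cB (by positivity)
    linarith
  push Not at cB
  set t := ⌈τ⌉₊ with ht
  have ht1 : 1 ≤ t := Nat.ceil_pos.2 hτ0
  have htτ : τ ≤ t := Nat.le_ceil τ
  have htA : t ≤ A.card := Nat.ceil_le.2 cA.le
  have htB : t ≤ B.card := Nat.ceil_le.2 cB.le
  have htu : ((t - 1 : ℕ) : ℝ) ≤ τ := by
    have := (Nat.ceil_lt_add_one hτ0.le).le
    rw [Nat.cast_sub ht1]; push_cast
    rw [← ht] at this
    linarith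
  obtain ⟨ℓ, hℓ, hN1, hN2⟩ := exists_scale A a0 hAmin t ht1 htA
  obtain ⟨ℓ', hℓ', hN1', hN2'⟩ := exists_scale B b0 hBmin t ht1 htB
  have h1 := psi_prod Γ A B hΓA hΓB k hk a0 ℓ b0 ℓ' hℓ hℓ' hAmin hA0 hBmin hB0
  rw [← hM] at h1
  have hsA := sh_card A a0 ℓ hℓ
  have hsB := sh_card B b0 ℓ' hℓ'
  rw [← hWA] at hsA
  rw [← hWB] at hsB
  set NA := (A.image (cell a0 ℓ)).card with hNA
  set NB := (B.image (cell b0 ℓ')).card with hNB
  set SA := (sh A a0 ℓ).card with hSA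
  set SB := (sh B b0 ℓ').card with hSB
  have g1 : (NA - 1) * (2 * M - 1) ≤ 2 * (t - 1) * (2 * M) := Nat.mul_le_mul (by omega) (by omega)
  have g2 : (NB - 1) * (2 * M - 1) ≤ 2 * (t - 1) * (2 * M) := Nat.mul_le_mul (by omega) (by omega)
  have g3 : psi Γ k ≤ 1 + 2 * (SA * SB) + 3 * (2 * (t - 1) * (2 * M)) := by omega
  have g4 : (psi Γ k : ℝ) ≤ 1 + 2 * ((SA : ℝ) * SB) + 3 * (2 * ((t - 1 : ℕ) : ℝ) * (2 * M)) := by
    exact_mod_cast g3
  have g5 : τ * SA ≤ 2 * WA := by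
    have : t * SA ≤ 2 * WA := (Nat.mul_le_mul_right _ hN1).trans hsA
    have h : (t : ℝ) * SA ≤ 2 * WA := by exact_mod_cast this
    exact (mul_le_mul_of_nonneg_right htτ (Nat.cast_nonneg _)).trans h
  have g6 : τ * SB ≤ 2 * WB := by
    have : t * SB ≤ 2 * WB := (Nat.mul_le_mul_right _ hN1').trans hsB
    have h : (t : ℝ) * SB ≤ 2 * WB := by exact_mod_cast this
    exact (mul_le_mul_of_nonneg_right htτ (Nat.cast_nonneg _)).trans h
  have g7 : (SA : ℝ) * SB ≤ 4 * T := by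
    have e1 : (τ * SA) * (τ * SB) ≤ (2 * WA) * (2 * WB) :=
      mul_le_mul g5 g6 (by positivity) (by positivity)
    have e2 : τ ^ 2 * ((SA : ℝ) * SB) ≤ τ ^ 2 * (4 * T) := by
      calc τ ^ 2 * ((SA : ℝ) * SB) = (τ * SA) * (τ * SB) := by ring
        _ ≤ (2 * WA) * (2 * WB) := e1
        _ = 4 * (WA * WB) := by ring
        _ = 4 * (τ ^ 3 * M) := by rw [hτ3]
        _ = τ ^ 2 * (4 * (τ * M)) := by ring
        _ = τ ^ 2 * (4 * T) := by rw [hτM]
    exact le_of_mul_le_mul_left e2 (by positivity)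
  have g8 : ((t - 1 : ℕ) : ℝ) * M ≤ T := by
    rw [← hτM]
    exact mul_le_mul_of_nonneg_right htu (by positivity)
  linarith

end Pool.Agent.ILV
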