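import Pool.Agent.KLS.Upper

/-! Counting drops of a general class of lines among the lowest lines. -/

namespace Pool.Agent.ILV
open Finset Filter Topology Pool.Agent.KL Pool.Agent.KLS

open Classical in
/-- number of lines in the class `Q` among the `m` lowest lines at `x` -/
noncomputable def PQ (Γ : Finset (ℝ × ℝ)) (Q : ℝ × ℝ → Prop) (m : ℕ) (x : ℝ) : ℕ :=
  ((Low Γ m x).filter Q).card

/-- on `I` a line of the class `Q` crosses a line outside the class only upwards -/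
def Up (I : Set ℝ) (Q : ℝ × ℝ → Prop) : Prop :=
  ∀ x ∈ I, ∀ x' ∈ I, x < x' → ∀ w u : ℝ × ℝ, Q w → ¬ Q u → ev u x < ev w x → ev w x' < ev u x' →
    False

theorem up_slope (σ : ℝ) : Up Set.univ (fun l => σ ≤ l.1) := by
  intro x _ x' _ hxx w u hw hu h3 h4
  have h5 : u.1 < w.1 := lt_of_lt_of_le (not_le.1 hu) hw
  unfold ev at h3 h4
  nlinarith

theorem up_pos (τ : ℝ) : Up (Set.Ioi 0) (fun l => l.2 < τ) := by
  intro x hx x' hx' hxx w u hw hu h3 h4
  have h5 : w.2 < u.2 := lt_of_lt_of_le hw (not_lt.1 hu)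
  unfold ev at h3 h4
  have hx0 : (0 : ℝ) < x := hx
  have hx1 : (0 : ℝ) < x' := hx'
  have h6 : u.1 < w.1 := by
    by_contra hc
    push Not at hc
    have := mul_le_mul_of_nonneg_right hc hx0.le
    linarith
  nlinarith

theorem up_neg (τ : ℝ) : Up (Set.Iio 0) (fun l => τ ≤ l.2) := by
  intro x hx x' hx' hxx w u hw hu h3 h4
  have h5 : u.2 < w.2 := lt_of_lt_of_le (not_le.1 hu) hw
  unfold ev at h3 h4
  have hx0 : x < 0 := hx
  have hx1 : x' < 0 := hx'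
  have h6 : u.1 < w.1 := by
    by_contra hc
    push Not at hc
    have := mul_le_mul_of_nonpos_right hc hx1.le
    linarith
  nlinarith

open Classical in
theorem PQ_add {Γ : Finset (ℝ × ℝ)} {Q : ℝ × ℝ → Prop} {m : ℕ} {x : ℝ} (hx : Gen Γ x)
    (hm : m ≤ Γ.card) : PQ Γ Q m x + PQ Γ (fun l => ¬ Q l) m x = m := by
  unfold PQ
  rw [Finset.card_filter_add_card_filter_not, Low_card hx hm]

open Classical in
theorem q_cases {Γ : Finset (ℝ × ℝ)} {I : Set ℝ} {Q : ℝ × ℝ → Prop} (hQ : Up I Q) {m : ℕ}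
    {x x' : ℝ} (hx : x ∈ I) (hx' : x' ∈ I) (hxx : x < x') :
    ((Low Γ m x').filter Q) ⊆ ((Low Γ m x).filter Q) ∨
    ((Low Γ m x).filter fun l => ¬ Q l) ⊆ ((Low Γ m x').filter fun l => ¬ Q l) := by
  by_contra hc
  push Not at hc
  obtain ⟨h1, h2⟩ := hc
  rw [Finset.not_subset] at h1 h2
  obtain ⟨w, hw, hw'⟩ := h1
  obtain ⟨u, hu, hu'⟩ := h2
  rw [Finset.mem_filter] at hw hw' hu hu'
  have hwx : w ∉ Low Γ m x := fun h => hw' ⟨h, hw.2⟩
  have hux : u ∉ Low Γ m x' := fun h => hu' ⟨h, hu.2⟩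
  have h3 := Low_lt hu.1 (mem_Low.1 hw.1).1 hwx
  have h4 := Low_lt hw.1 (mem_Low.1 hu.1).1 hux
  exact hQ x hx x' hx' hxx w u hw.2 hu.2 h3 h4

theorem PQ_anti {Γ : Finset (ℝ × ℝ)} {I : Set ℝ} {Q : ℝ × ℝ → Prop} (hQ : Up I Q) {m : ℕ}
    {x x' : ℝ} (hx : Gen Γ x) (hx' : Gen Γ x') (hxI : x ∈ I) (hxI' : x' ∈ I)
    (hm : m ≤ Γ.card) (hxx : x < x') : PQ Γ Q m x' ≤ PQ Γ Q m x := by
  classical
  rcases q_cases (Γ := Γ) (m := m) hQ hxI hxI' hxx with h | h
  · exact Finset.card_le_card h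
  · have h1 : PQ Γ (fun l => ¬ Q l) m x ≤ PQ Γ (fun l => ¬ Q l) m x' := by
      unfold PQ
      convert Finset.card_le_card h
    have h2 := PQ_add (Q := Q) hx hm
    have h3 := PQ_add (Q := Q) hx' hm
    omega

theorem PQ_strict {Γ : Finset (ℝ × ℝ)} {I : Set ℝ} {Q : ℝ × ℝ → Prop} (hQ : Up I Q) {m : ℕ}
    {x x' : ℝ} (hx : Gen Γ x) (hx' : Gen Γ x') (hxI : x ∈ I) (hxI' : x' ∈ I)
    (hm : m ≤ Γ.card) (hxx : x < x') {w u : ℝ × ℝ} (hw : w ∈ Low Γ m x) (hw' : w ∉ Low Γ m x')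
    (hws : Q w) (hu : u ∉ Low Γ m x) (hu' : u ∈ Low Γ m x') (hus : ¬ Q u) :
    PQ Γ Q m x' < PQ Γ Q m x := by
  classical
  rcases q_cases (Γ := Γ) (m := m) hQ hxI hxI' hxx with h | h
  · refine Finset.card_lt_card ((Finset.ssubset_iff_of_subset h).2 ⟨w, ?_, ?_⟩)
    · rw [Finset.mem_filter]; exact ⟨hw, hws⟩
    · rw [Finset.mem_filter]; exact fun h => hw' h.1
  · have h1 : PQ Γ (fun l => ¬ Q l) m x < PQ Γ (fun l => ¬ Q l) m x' := by
      unfold PQ
      have : ((Low Γ m x).filter fun l => ¬ Q l).card < ((Low Γ m x').filter fun l => ¬ Q l).card := by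
        refine Finset.card_lt_card ((Finset.ssubset_iff_of_subset h).2 ⟨u, ?_, ?_⟩)
        · rw [Finset.mem_filter]; exact ⟨hu', hus⟩
        · rw [Finset.mem_filter]; exact fun h => hu h.1
      convert this
    have h2 := PQ_add (Q := Q) hx hm
    have h3 := PQ_add (Q := Q) hx' hm
    omega

open Classical in
theorem PQ_le {Γ : Finset (ℝ × ℝ)} {Q : ℝ × ℝ → Prop} {m : ℕ} {x : ℝ} (hx : Gen Γ x)
    (hm : m ≤ Γ.card) :
    PQ Γ Q m x ≤ m ∧ PQ Γ Q m x ≤ (Γ.filter Q).card ∧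
      (Γ.filter Q).card ≤ PQ Γ Q m x + (Γ.card - m) := by
  have h1 := PQ_add (Q := Q) hx hm
  refine ⟨by omega, ?_, ?_⟩
  · refine Finset.card_le_card ?_
    intro l hl
    rw [Finset.mem_filter] at hl ⊢
    exact ⟨(mem_Low.1 hl.1).1, hl.2⟩
  · have h2 : (Γ.filter Q) ⊆ ((Low Γ m x).filter Q) ∪ (Γ \ Low Γ m x) := by
      intro l hl
      rw [Finset.mem_filter] at hl
      rw [Finset.mem_union, Finset.mem_filter, Finset.mem_sdiff]
      by_cases h : l ∈ Low Γ m x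
      · exact Or.inl ⟨h, hl.2⟩
      · exact Or.inr ⟨hl.1, h⟩
    have h3 : Low Γ m x ⊆ Γ := fun l hl => (mem_Low.1 hl).1
    have h4 := (Finset.card_le_card h2).trans (Finset.card_union_le _ _)
    rw [Finset.card_sdiff_of_subset h3, Low_card hx hm] at h4
    exact h4

/-- near `p` the count `PQ` drops -/
def DrQ (Γ : Finset (ℝ × ℝ)) (I : Set ℝ) (d : ℝ) (m : ℕ) (Q : ℝ × ℝ → Prop) (p : ℝ × ℝ) : Prop :=
  ∃ x x', p.1 - d < x ∧ x < p.1 ∧ p.1 < x' ∧ x' < p.1 + d ∧ x ∈ I ∧ x' ∈ I ∧ Gen Γ x ∧ Gen Γ x' ∧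
    PQ Γ Q m x' < PQ Γ Q m x

theorem class_cardQ {Γ : Finset (ℝ × ℝ)} {I : Set ℝ} {Q : ℝ × ℝ → Prop} (hQ : Up I Q) {d : ℝ}
    {m : ℕ} (hm : m ≤ Γ.card) (V : Finset (ℝ × ℝ))
    (hV : ∀ p ∈ V, ∀ q ∈ V, p ≠ q → p.1 + 2 * d ≤ q.1 ∨ q.1 + 2 * d ≤ p.1)
    (hD : ∀ p ∈ V, DrQ Γ I d m Q p) : V.card ≤ min m (Γ.card - m) := by
  classical
  choose! x x' h1 h2 h3 h4 i1 i2 h5 h6 h7 using hD
  set st := (Γ.filter Q).card with hst
  have hinj : Set.InjOn (fun p => PQ Γ Q m (x p)) (V : Set (ℝ × ℝ)) := by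
    have key : ∀ p ∈ V, ∀ q ∈ V, p.1 + 2 * d ≤ q.1 → PQ Γ Q m (x q) < PQ Γ Q m (x p) := by
      intro p hp q hq hpq
      have h8 : x' p < x q := by linarith [h4 p hp, h1 q hq]
      exact lt_of_le_of_lt (PQ_anti hQ (h6 p hp) (h5 q hq) (i2 p hp) (i1 q hq) hm h8) (h7 p hp)
    intro p hp q hq h
    simp only at h
    by_contra hne
    rcases hV p hp q hq hne with h8 | h8
    · have := key p hp q hq h8; omega
    · have := key q hq p hp h8; omega
  have hmaps : Set.MapsTo (fun p => PQ Γ Q m (x p)) (V : Set (ℝ × ℝ))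
      (Finset.Ioc (st - (Γ.card - m)) (min m st) : Finset ℕ) := by
    intro p hp
    have a1 := PQ_le (Q := Q) (h5 p hp) hm
    have a2 := PQ_le (Q := Q) (h6 p hp) hm
    have a3 := h7 p hp
    simp only [Finset.coe_Ioc, Set.mem_Ioc, le_min_iff]
    refine ⟨?_, a1.1, a1.2.1⟩
    have := a2.2.2
    omega
  have h8 := Finset.card_le_card_of_injOn _ hmaps hinj
  rw [Nat.card_Ioc] at h8
  have h9 : st ≤ Γ.card := Finset.card_filter_le _ _
  omega

theorem vertex_dataQ {Γ : Finset (ℝ × ℝ)} {k : ℕ} {p : ℝ × ℝ} (hp : IsVertex Γ k p) {d : ℝ}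
    (hd : 0 < d) (hg : ∀ x, p.1 - d < x → x < p.1 + d → x ≠ p.1 → Gen Γ x)
    (hk : k < Γ.card) :
    ∃ l ∈ Γ, ∃ l' ∈ Γ, l'.1 < l.1 ∧ ev l p.1 = p.2 ∧ ev l' p.1 = p.2 ∧
      ∀ (I : Set ℝ) (Q : ℝ × ℝ → Prop), Up I Q → Set.Ioo (p.1 - d) (p.1 + d) ⊆ I →
        Q l → ¬ Q l' → DrQ Γ I d (k + 1) Q p ∨ DrQ Γ I d k Q p := by
  classical
  obtain ⟨l, hl, l', hl', hne, h1, h2, δ, hδ, h3, h4⟩ := hp
  have hs : l.1 ≠ l'.1 := (eq_of_common hne (h1.trans h2.symm)).1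
  set ε := min δ d / 2 with hε
  have hε0 : 0 < ε := by positivity
  have hε1 : ε < d := by
    have := min_le_right δ d
    have := min_le_left δ d
    rw [hε]; linarith
  have hε2 : ε < δ := by
    have := min_le_left δ d
    rw [hε]; linarith
  have gx : Gen Γ (p.1 - ε) := hg _ (by linarith) (by linarith) (by linarith)
  have gx' : Gen Γ (p.1 + ε) := hg _ (by linarith) (by linarith) (by linarith)
  have rx := nlt_of_gen gx hl (h3 _ ⟨by linarith, by linarith⟩)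
  have rx' := nlt_of_gen gx' hl' (h4 _ ⟨by linarith, by linarith⟩)
  have mx : p.1 - ε ∈ Set.Ioo (p.1 - d) (p.1 + d) := ⟨by linarith, by linarith⟩
  have mx' : p.1 + ε ∈ Set.Ioo (p.1 - d) (p.1 + d) := ⟨by linarith, by linarith⟩
  have hdiff : ∀ x, ev l x - ev l' x = (l.1 - l'.1) * (x - p.1) := by
    intro x
    unfold ev at *
    linarith
  rcases lt_or_gt_of_ne hs with h | h
  · -- convex
    refine ⟨l', hl', l, hl, h, h2, h1, fun I Q hQ hI hσ2 hσ1 => Or.inr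
      ⟨p.1 - ε, p.1 + ε, by linarith, by linarith, by linarith, by linarith, hI mx, hI mx',
        gx, gx', ?_⟩⟩
    have e1 : ev l' (p.1 - ε) < ev l (p.1 - ε) := by
      have := hdiff (p.1 - ε)
      nlinarith
    have e2 : ev l (p.1 + ε) < ev l' (p.1 + ε) := by
      have := hdiff (p.1 + ε)
      nlinarith
    have nl : l ∉ Low Γ k (p.1 - ε) := fun h => by
      have := (mem_Low.1 h).2; omega
    have nl' : l' ∉ Low Γ k (p.1 + ε) := fun h => by
      have := (mem_Low.1 h).2; omega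
    have c1 : l' ∈ Low Γ k (p.1 - ε) := by
      rw [mem_Low]
      refine ⟨hl', ?_⟩
      rw [← rx]
      unfold nlt
      refine Finset.card_lt_card ?_
      rw [Finset.ssubset_iff_of_subset]
      · exact ⟨l', by simp [hl', e1], by simp⟩
      · intro l'' hl''
        rw [Finset.mem_filter] at hl'' ⊢
        exact ⟨hl''.1, hl''.2.trans e1⟩
    have c2 : l ∈ Low Γ k (p.1 + ε) := by
      rw [mem_Low]
      refine ⟨hl, ?_⟩
      rw [← rx']
      unfold nlt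
      refine Finset.card_lt_card ?_
      rw [Finset.ssubset_iff_of_subset]
      · exact ⟨l, by simp [hl, e2], by simp⟩
      · intro l'' hl''
        rw [Finset.mem_filter] at hl'' ⊢
        exact ⟨hl''.1, hl''.2.trans e2⟩
    exact PQ_strict hQ gx gx' (hI mx) (hI mx') (by omega) (by linarith) c1 nl' hσ2 nl c2 hσ1
  · -- concave
    refine ⟨l, hl, l', hl', h, h1, h2, fun I Q hQ hI hσ2 hσ1 => Or.inl
      ⟨p.1 - ε, p.1 + ε, by linarith, by linarith, by linarith, by linarith, hI mx, hI mx',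
        gx, gx', ?_⟩⟩
    have e1 : ev l (p.1 - ε) < ev l' (p.1 - ε) := by
      have := hdiff (p.1 - ε)
      nlinarith
    have e2 : ev l' (p.1 + ε) < ev l (p.1 + ε) := by
      have := hdiff (p.1 + ε)
      nlinarith
    have c1 : l ∈ Low Γ (k + 1) (p.1 - ε) := mem_Low.2 ⟨hl, by omega⟩
    have c2 : l' ∈ Low Γ (k + 1) (p.1 + ε) := mem_Low.2 ⟨hl', by omega⟩
    have nl' : l' ∉ Low Γ (k + 1) (p.1 - ε) := by
      intro h
      have h5 := (mem_Low.1 h).2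
      have h6 : nlt Γ (p.1 - ε) (ev l (p.1 - ε)) < nlt Γ (p.1 - ε) (ev l' (p.1 - ε)) := by
        unfold nlt
        refine Finset.card_lt_card ?_
        rw [Finset.ssubset_iff_of_subset]
        · exact ⟨l, by simp [hl, e1], by simp⟩
        · intro l'' hl''
          rw [Finset.mem_filter] at hl'' ⊢
          exact ⟨hl''.1, hl''.2.trans e1⟩
      omega
    have nl : l ∉ Low Γ (k + 1) (p.1 + ε) := by
      intro h
      have h5 := (mem_Low.1 h).2
      have h6 : nlt Γ (p.1 + ε) (ev l' (p.1 + ε)) < nlt Γ (p.1 + ε) (ev l (p.1 + ε)) := by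
        unfold nlt
        refine Finset.card_lt_card ?_
        rw [Finset.ssubset_iff_of_subset]
        · exact ⟨l', by simp [hl', e2], by simp⟩
        · intro l'' hl''
          rw [Finset.mem_filter] at hl'' ⊢
          exact ⟨hl''.1, hl''.2.trans e2⟩
      omega
    exact PQ_strict hQ gx gx' (hI mx) (hI mx') (by omega) (by linarith) c1 nl hσ2 nl' c2 hσ1

end Pool.Agent.ILV
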